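import Pool.Agent.X61.RI.Fermat

/-! The solutions of the Fermat equation in units of a quadratic field. -/

set_option autoImplicit false

namespace Pool.Agent.X61.RI

open NumberField IsDedekindDomain

variable {K : Type} [Field K] [NumberField K]

theorem growth_neg {f : ℕ → ℤ} {a : ℤ} (h0 : f 0 = 2) (h1 : f 1 = a)
    (hrec : ∀ n, f (n + 2) = a * f (n + 1) + f n) (ha : a ≠ 0) {n : ℕ} (hn : 3 ≤ n) :
    4 ≤ |f n| := by
  have ha2 : 0 < a ^ 2 := by positivity
  have key : ∀ n, 0 < a * f (n + 1) * f n := by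
    intro n
    induction n with
    | zero =>
      rw [zero_add, h0, h1]
      nlinarith
    | succ n ih =>
      have h2 : f (n + 1) ≠ 0 := by
        intro h
        rw [h] at ih
        simp at ih
      have h3 : 0 < f (n + 1) ^ 2 := by positivity
      rw [hrec n]
      nlinarith [mul_pos ha2 h3]
  have hab : ∀ n, |f (n + 1)| + |f n| ≤ |f (n + 2)| := by
    intro n
    have h2 := key n
    have h3 : |f (n + 1)| ≤ |a * f (n + 1)| := by
      rw [abs_mul]
      have h4 : 1 ≤ |a| := Int.one_le_abs ha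
      nlinarith [abs_nonneg (f (n + 1))]
    rw [hrec n]
    rcases pos_and_pos_or_neg_and_neg_of_mul_pos h2 with ⟨h5, h6⟩ | ⟨h5, h6⟩
    · rw [abs_of_pos (add_pos h5 h6), abs_of_pos h6]
      rw [abs_of_pos h5] at h3
      linarith
    · rw [abs_of_neg (add_neg h5 h6), abs_of_neg h6]
      rw [abs_of_neg h5] at h3
      linarith
  have k1 : 1 ≤ |f 1| := by
    rw [h1]
    exact Int.one_le_abs ha
  have k0 : |f 0| = 2 := by
    rw [h0]
    rfl
  have k2 := hab 0
  have k3 := hab 1
  simp only [zero_add] at k2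
  norm_num at k3
  have key2 : ∀ m, 4 ≤ |f (m + 3)| := by
    intro m
    induction m with
    | zero =>
      rw [zero_add]
      linarith
    | succ m ih =>
      have := hab (m + 2)
      have h5 := abs_nonneg (f (m + 2))
      have e : m + 1 + 3 = m + 2 + 2 := by ring
      rw [e]
      have e2 : m + 2 + 1 = m + 3 := by ring
      rw [e2] at this
      linarith
  obtain ⟨m, rfl⟩ := Nat.exists_eq_add_of_le hn
  rw [add_comm]
  exact key2 m

theorem growth_pos {f : ℕ → ℤ} {a : ℤ} (h0 : f 0 = 2) (h1 : f 1 = a)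
    (hrec : ∀ n, f (n + 2) = a * f (n + 1) - f n) (ha : 3 ≤ |a|) {n : ℕ} (hn : 2 ≤ n) :
    4 ≤ |f n| := by
  have hab : ∀ n, 3 * |f (n + 1)| - |f n| ≤ |f (n + 2)| := by
    intro n
    rw [hrec n]
    have h2 := abs_sub_abs_le_abs_sub (a * f (n + 1)) (f n)
    rw [abs_mul] at h2
    have h3 : 3 * |f (n + 1)| ≤ |a| * |f (n + 1)| :=
      mul_le_mul_of_nonneg_right ha (abs_nonneg _)
    linarith
  have key : ∀ n, |f n| ≤ |f (n + 1)| ∧ 3 ≤ |f (n + 1)| := by
    intro n
    induction n with
    | zero =>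
      rw [zero_add, h1, h0]
      exact ⟨le_trans (by norm_num) ha, ha⟩
    | succ n ih =>
      have h2 := hab n
      refine ⟨?_, ?_⟩ <;> · show _ ≤ |f (n + 2)|; linarith [ih.1, ih.2]
  obtain ⟨m, rfl⟩ := Nat.exists_eq_add_of_le hn
  have h2 := hab m
  have h3 := key m
  rw [add_comm]
  show 4 ≤ |f (m + 2)|
  linarith

theorem quad_cayley (h2 : Module.finrank ℚ K = 2) (x : K) :
    x ^ 2 - algebraMap ℚ K (Algebra.trace ℚ K x) * x + algebraMap ℚ K (Algebra.norm ℚ x) = 0 := by
  obtain ⟨b, -⟩ : ∃ b : Module.Basis (Fin 2) ℚ K, True :=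
    ⟨Module.finBasisOfFinrankEq ℚ K h2, trivial⟩
  have h := Matrix.aeval_self_charpoly (Algebra.leftMulMatrix b x)
  rw [Matrix.charpoly_fin_two] at h
  simp only [map_add, map_sub, map_mul, map_pow, Polynomial.aeval_X, Polynomial.aeval_C] at h
  rw [← Algebra.trace_eq_matrix_trace, ← Algebra.norm_eq_matrix_det] at h
  apply Algebra.leftMulMatrix_injective b
  rw [map_zero, map_add, map_sub, map_mul, map_pow, AlgHom.commutes, AlgHom.commutes]
  exact h

theorem quad_norm_sub (h2 : Module.finrank ℚ K = 2) (x : K) :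
    Algebra.norm ℚ (1 - x) = 1 - Algebra.trace ℚ K x + Algebra.norm ℚ x := by
  obtain ⟨b, -⟩ : ∃ b : Module.Basis (Fin 2) ℚ K, True :=
    ⟨Module.finBasisOfFinrankEq ℚ K h2, trivial⟩
  rw [Algebra.norm_eq_matrix_det b, Algebra.norm_eq_matrix_det b, Algebra.trace_eq_matrix_trace b,
    map_sub, map_one, Matrix.det_fin_two, Matrix.det_fin_two, Matrix.trace_fin_two]
  simp only [Matrix.sub_apply, Matrix.one_apply_eq, ne_eq, zero_ne_one, not_false_eq_true,
    Matrix.one_apply_ne, one_ne_zero, zero_sub]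
  ring

/-- `x` is a unit at all primes -/
def UnitAll (x : K) : Prop := ∀ v : HeightOneSpectrum (𝓞 K), v.valuation K x = 1

theorem UnitAll.integral {x : K} (h : UnitAll x) : IsIntegral ℤ x := by
  obtain ⟨y, hy⟩ := HeightOneSpectrum.mem_integers_of_valuation_le_one K x fun v => (h v).le
  rw [← hy]
  exact NumberField.RingOfIntegers.isIntegral_coe y

theorem UnitAll.inv {x : K} (h : UnitAll x) : UnitAll x⁻¹ := by
  intro v
  rw [map_inv₀, h v, inv_one]

theorem UnitAll.trace {x : K} (h : UnitAll x) : ∃ a : ℤ, Algebra.trace ℚ K x = a := by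
  obtain ⟨a, ha⟩ := IsIntegrallyClosed.isIntegral_iff.1
    (Algebra.isIntegral_trace (L := ℚ) (F := K) h.integral)
  exact ⟨a, ha.symm⟩

theorem UnitAll.norm {x : K} (h : UnitAll x) (hx : x ≠ 0) :
    Algebra.norm ℚ x = 1 ∨ Algebra.norm ℚ x = -1 := by
  obtain ⟨a, ha⟩ := IsIntegrallyClosed.isIntegral_iff.1
    (Algebra.isIntegral_norm ℚ h.integral)
  obtain ⟨b, hb⟩ := IsIntegrallyClosed.isIntegral_iff.1
    (Algebra.isIntegral_norm ℚ h.inv.integral)
  have ha' : (a : ℚ) = Algebra.norm ℚ x := ha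
  have hb' : (b : ℚ) = Algebra.norm ℚ x⁻¹ := hb
  have h1 : (a : ℚ) * b = 1 := by
    rw [ha', hb', ← map_mul, mul_inv_cancel₀ hx, map_one]
  have h2 : a * b = 1 := by exact_mod_cast h1
  rcases Int.eq_one_or_neg_one_of_mul_eq_one h2 with h3 | h3
  · left
    rw [← ha', h3]
    norm_num
  · right
    rw [← ha', h3]
    norm_num

theorem one_neg_pow {c : ℚ} (h : c = 1 ∨ c = -1) (n : ℕ) : c ^ n = 1 ∨ c ^ n = -1 := by
  rcases h with rfl | rfl
  · left
    exact one_pow n
  · exact neg_one_pow_eq_or ℚ n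

theorem quad_root (h2 : Module.finrank ℚ K = 2) {x y : K} (hx0 : x ≠ 0) (hy0 : y ≠ 0)
    (hx : UnitAll x) (hy : UnitAll y) {n : ℕ} (hn : 3 ≤ n) (h : x ^ n + y ^ n = 1) :
    RootOfUnity x := by
  obtain ⟨a, ha⟩ := hx.trace
  have hc := quad_cayley h2 x
  rw [ha] at hc
  -- the traces of the powers
  have ht : ∀ m : ℕ, ∃ b : ℤ, Algebra.trace ℚ K (x ^ m) = b := by
    intro m
    exact UnitAll.trace (x := x ^ m) fun v => by rw [map_pow, hx v, one_pow]
  choose f hf using ht
  have h0 : f 0 = 2 := by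
    have h3 := hf 0
    rw [pow_zero, ← map_one (algebraMap ℚ K), Algebra.trace_algebraMap, h2] at h3
    have h4 : (f 0 : ℚ) = 2 := by
      rw [← h3]
      norm_num
    exact_mod_cast h4
  have h1 : f 1 = a := by
    have h3 := hf 1
    rw [pow_one, ha] at h3
    exact_mod_cast h3.symm
  have hu : |f n| ≤ 3 := by
    have h3 := quad_norm_sub h2 (x ^ n)
    have h4 : 1 - x ^ n = y ^ n := by linear_combination -h
    rw [h4, hf n, map_pow (Algebra.norm ℚ) y, map_pow (Algebra.norm ℚ) x] at h3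
    have h5 := one_neg_pow (hx.norm hx0) n
    have h6 := one_neg_pow (hy.norm hy0) n
    have h7 : ((f n : ℤ) : ℚ) = 1 + Algebra.norm ℚ x ^ n - Algebra.norm ℚ y ^ n := by linarith
    have h8 : |((f n : ℤ) : ℚ)| ≤ 3 := by
      rw [h7]
      rcases h5 with h5 | h5 <;> rcases h6 with h6 | h6 <;> rw [h5, h6] <;> norm_num
    exact_mod_cast h8
  rcases hx.norm hx0 with hN | hN
  · -- norm one
    rw [hN, map_one] at hc
    have hrec : ∀ m, f (m + 2) = a * f (m + 1) - f m := by
      intro m
      have e : x ^ (m + 2) = (a : ℚ) • x ^ (m + 1) - x ^ m := by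
        rw [Algebra.smul_def]
        linear_combination x ^ m * hc
      have h3 := congrArg (Algebra.trace ℚ K) e
      rw [map_sub, map_smul, hf, hf, hf, smul_eq_mul] at h3
      exact_mod_cast h3
    have hsmall : |a| ≤ 2 := by
      by_contra hcon
      have h3 := growth_pos h0 h1 hrec (by omega) (n := n) (by omega)
      omega
    have e : (algebraMap ℚ K) (a : ℚ) = (a : K) := map_intCast _ a
    rw [e] at hc
    have h3 : a = -2 ∨ a = -1 ∨ a = 0 ∨ a = 1 ∨ a = 2 := by
      rw [abs_le] at hsmall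
      omega
    rcases h3 with rfl | rfl | rfl | rfl | rfl
    · push_cast at hc
      refine ⟨2, by norm_num, ?_⟩
      have h4 : (x + 1) ^ 2 = 0 := by linear_combination hc
      have h5 : x + 1 = 0 := pow_eq_zero_iff (two_ne_zero) |>.1 h4
      linear_combination (x - 1) * h5
    · push_cast at hc
      refine ⟨3, by norm_num, ?_⟩
      linear_combination (x - 1) * hc
    · push_cast at hc
      refine ⟨4, by norm_num, ?_⟩
      linear_combination (x ^ 2 - 1) * hc
    · push_cast at hc
      refine ⟨6, by norm_num, ?_⟩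
      linear_combination (x + 1) * (x ^ 3 - 1) * hc
    · push_cast at hc
      refine ⟨1, by norm_num, ?_⟩
      have h4 : (x - 1) ^ 2 = 0 := by linear_combination hc
      have h5 : x - 1 = 0 := pow_eq_zero_iff (two_ne_zero) |>.1 h4
      linear_combination h5
  · -- norm minus one
    rw [hN, map_neg, map_one] at hc
    have hrec : ∀ m, f (m + 2) = a * f (m + 1) + f m := by
      intro m
      have e : x ^ (m + 2) = (a : ℚ) • x ^ (m + 1) + x ^ m := by
        rw [Algebra.smul_def]
        linear_combination x ^ m * hc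
      have h3 := congrArg (Algebra.trace ℚ K) e
      rw [map_add, map_smul, hf, hf, hf, smul_eq_mul] at h3
      exact_mod_cast h3
    have hsmall : a = 0 := by
      by_contra hcon
      have h3 := growth_neg h0 h1 hrec hcon hn
      omega
    rw [hsmall, Int.cast_zero, map_zero, zero_mul, sub_zero] at hc
    refine ⟨2, by norm_num, ?_⟩
    linear_combination hc

end Pool.Agent.X61.RI
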