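import Pool.Agent.X61.RI.Line
import Pool.Agent.Y911.RR.Main

/-! The elements `x` of a number field for which `x` and `1 - x` are units outside the primes of
a random set. -/

set_option autoImplicit false

namespace Pool.Agent.X61.RI

open NumberField IsDedekindDomain Finset MeasureTheory ProbabilityTheory
open Pool.Agent.H691R3 Pool.Agent.TH876.Loc Pool.Agent.Y911.RR

variable {K : Type} [Field K] [NumberField K]

theorem inj01 : Function.Injective (![0, 1] : Fin 2 → K) := by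
  intro i j hij
  fin_cases i <;> fin_cases j <;> simp at hij ⊢

theorem off01 {x : K} (h : x ≠ 0 ∧ x ≠ 1) : ∀ l : Fin 2, x ≠ (![0, 1] : Fin 2 → K) l := by
  intro l
  fin_cases l
  · exact h.1
  · exact h.2

theorem int01 (v : Pr K) : Int1 (![0, 1] : Fin 2 → K) v := by
  intro l
  fin_cases l
  · show fv v (0 : K) ≤ 1
    rw [map_zero]
    norm_num
  · show fv v (1 : K) ≤ 1
    rw [map_one]

/-- the point `x` off `∞, 0, 1` -/
def opt (x : {x : K // x ≠ 0 ∧ x ≠ 1}) : Off (dv (![0, 1] : Fin 2 → K)) :=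
  ⟨pt x.1, fun l => pt_off (off01 x.2) l⟩

theorem opt_injective : Function.Injective (opt (K := K)) := fun _ _ h =>
  Subtype.ext (pt_inj (congrArg Subtype.val h))

theorem mem_opt (v : Pr K) (x : {x : K // x ≠ 0 ∧ x ≠ 1}) :
    v ∈ spA (dv (![0, 1] : Fin 2 → K)) (opt x) ↔
      ¬ (v.valuation K x.1 = 1 ∧ v.valuation K (x.1 - 1) = 1) := by
  rw [mem_spA]
  show (∃ l, Meet v (pt x.1) (dv (![0, 1] : Fin 2 → K) l)) ↔ _
  rw [meet_iff_val (by norm_num) (int01 v) x.1, Fin.exists_fin_two]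
  simp only [Matrix.cons_val_zero, Matrix.cons_val_one, sub_zero]
  tauto

/-- `x` and `x - 1` are units at `v` -/
def UnitAt (v : Pr K) (x : K) : Prop := v.valuation K x = 1 ∧ v.valuation K (x - 1) = 1

variable {Ω : Type*} [MeasurableSpace Ω] {μ : Measure Ω} {E : Pr K → Set Ω} {τ : ℝ}

/-- **The unit equation for the primes of a random set has finitely many solutions.** -/
theorem units_finite (S₀ : Set (Pr K)) (hS : S₀.Finite) (hτ : 2 / 3 < τ)
    (hi : iIndepSet E μ) (hE : ∀ v, μ (E v) ≤ ENNReal.ofReal ((Nv v) ^ (-τ))) :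
    ∀ᵐ ω ∂μ, {x : K | (x ≠ 0 ∧ x ≠ 1) ∧ ∀ v, v ∉ S₀ → ω ∉ E v → UnitAt v x}.Finite := by
  have h := line_finite (q := 3) le_rfl (dv (![0, 1] : Fin 2 → K)) (dv_inj inj01) hS.toFinset
    (by exact_mod_cast hτ) hi hE
  filter_upwards [h] with ω hω
  have h2 := hω.preimage (f := opt (K := K)) opt_injective.injOn
  refine (h2.image Subtype.val).subset ?_
  rintro x ⟨hx, hu⟩
  refine ⟨⟨x, hx⟩, ?_, rfl⟩
  intro v hv
  rw [mem_opt] at hv
  rw [Set.Finite.mem_toFinset]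
  by_contra hcon
  rw [not_or] at hcon
  exact hv (hu v hcon.1 hcon.2)

/-- **With large probability the large primes of the random set do not matter.** -/
theorem units_small (S₀ : Set (Pr K)) (hS : S₀.Finite) {δ : ℝ} (hδ : 0 < δ)
    (hδτ : δ < τ - 2 / 3) : ∃ C : ℝ, 0 < C ∧
    ∀ {Ω : Type} [MeasurableSpace Ω] (μ : Measure Ω) (E : Pr K → Set Ω), iIndepSet E μ →
      (∀ v, μ (E v) ≤ ENNReal.ofReal ((Nv v) ^ (-τ))) → ∀ R : ℝ, 0 < R →
      μ {ω | ∃ x : K, (x ≠ 0 ∧ x ≠ 1) ∧ (∀ v, v ∉ S₀ → ¬ (R ≤ Nv v ∧ ω ∈ E v) → UnitAt v x) ∧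
        ∃ v, v ∉ S₀ ∧ ¬ UnitAt v x} ≤ ENNReal.ofReal (C * R ^ (-δ)) := by
  obtain ⟨C, hC, h⟩ := line_small (q := 3) le_rfl (dv (![0, 1] : Fin 2 → K)) (dv_inj inj01)
    hS.toFinset hδ (by exact_mod_cast hδτ)
  refine ⟨C, hC, ?_⟩
  intro Ω _ μ E hi hE R hR
  refine (measure_mono ?_).trans (h μ E hi hE R hR)
  rintro ω ⟨x, hx, hu, v, hv, hv'⟩
  refine ⟨opt ⟨x, hx⟩, ?_, v, ?_, ?_⟩
  · intro w hw
    rw [mem_opt] at hw
    rw [Set.Finite.mem_toFinset]
    by_contra hcon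
    rw [not_or] at hcon
    exact hw (hu w hcon.1 hcon.2)
  · rw [mem_opt]
    exact hv'
  · rw [Set.Finite.mem_toFinset]
    exact hv

end Pool.Agent.X61.RI
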