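import Pool.Agent.X61.RI.Sum
import Pool.Agent.X61.RI.Three
import Pool.Agent.Y911.US.Main

/-! The points with a large part of the support composed of the primes of a random set. -/

set_option autoImplicit false

namespace Pool.Agent.X61.RI

open NumberField IsDedekindDomain Finset MeasureTheory ProbabilityTheory
open Pool.Agent.H691R3 Pool.Agent.TH876.Loc Pool.Agent.Y911.RR
open Pool.Agent.Y911.US (ht ht_nonneg ht_mk two_pow_sum)

/-- a series with a finite expectation is almost surely finite -/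
theorem ae_bounded' {Ω : Type*} [MeasurableSpace Ω] {μ : Measure Ω} {T : Type*} [Countable T]
    {B : T → Set Ω} {w f : T → ℝ} {D : ℝ} (hw : ∀ t, 0 ≤ w t)
    (hf : ∀ t, 0 ≤ f t) (hB : ∀ t, μ (B t) ≤ ENNReal.ofReal (f t))
    (hD : ∀ F : Finset T, ∑ t ∈ F, w t * f t ≤ D) :
    ∀ᵐ ω ∂μ, ∃ C : ℝ, ∀ F : Finset T, (∀ t ∈ F, ω ∈ B t) → ∑ t ∈ F, w t ≤ C := by
  have h := ae_bounded (μ := μ) (B := fun t => toMeasurable μ (B t))
    (fun t => measurableSet_toMeasurable μ _) hw hf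
    (fun t => by rw [measure_toMeasurable]; exact hB t) hD
  filter_upwards [h] with ω hω
  obtain ⟨C, hC⟩ := hω
  exact ⟨C, fun F hF => hC F fun t ht => subset_toMeasurable μ _ (hF t ht)⟩

theorem finite_of_card {T : Type*} {p : T → Prop} {C : ℝ}
    (h : ∀ F : Finset T, (∀ t ∈ F, p t) → (F.card : ℝ) ≤ C) : {t | p t}.Finite := by
  by_contra hinf
  obtain ⟨F, hF, hcard⟩ := Set.Infinite.exists_subset_card_eq hinf (⌊C⌋₊ + 1)
  have h1 := h F fun t ht => hF ht
  rw [hcard] at h1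
  push_cast at h1
  exact absurd h1 (not_le.2 (Nat.lt_floor_add_one _))

variable {K : Type} [Field K] [NumberField K]
variable {Ω : Type*} [MeasurableSpace Ω] {μ : Measure Ω} {E : Pr K → Set Ω} {τ : ℝ} {q : ℕ}

open Classical in
/-- the sum over the objects with a large random part -/
theorem part_sum {T : Type} [Countable T] (sp : T → Finset (Pr K)) (S₀ : Finset (Pr K))
    (hτ0 : 0 ≤ τ) {σ κ θ D : ℝ} (hD0 : 0 < D)
    (hD : ∀ F : Finset T, ∑ t ∈ F, (nn (sp t)) ^ (-θ) ≤ D) (hθ : θ < σ + κ * τ)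
    (hi : iIndepSet E μ) (hE : ∀ v, μ (E v) ≤ ENNReal.ofReal ((Nv v) ^ (-τ))) :
    ∀ᵐ ω ∂μ, ∃ C : ℝ, ∀ F : Finset T, (∀ t ∈ F, (nn (sp t)) ^ κ ≤
      nn ((sp t).filter fun v => v ∈ S₀ ∨ ω ∈ E v)) → ∑ t ∈ F, (nn (sp t)) ^ (-σ) ≤ C := by
  obtain ⟨D', hD', hb⟩ := two_pow_sum K sp hθ hD0 hD
  have hS := nn_pos S₀
  exact ae_bounded' (μ := μ)
    (B := fun t : T => {ω | (nn (sp t)) ^ κ ≤ nn ((sp t).filter fun v => v ∈ S₀ ∨ ω ∈ E v)})
    (w := fun t => (nn (sp t)) ^ (-σ))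
    (f := fun t => 2 ^ (sp t).card * ((nn (sp t)) ^ κ / nn S₀) ^ (-τ))
    (D := (nn S₀) ^ τ * D')
    (fun t => Real.rpow_nonneg (nn_pos _).le _)
    (fun t => by
      have := nn_pos (sp t)
      positivity)
    (fun t => by
      have h0 := nn_pos (sp t)
      refine (measure_mono ?_).trans (part_le (fun v => Nv_pos v) hi hτ0 hE (sp t)
        (Z := (nn (sp t)) ^ κ / nn S₀) (by positivity))
      intro ω hω
      show (nn (sp t)) ^ κ / nn S₀ ≤ nn ((sp t).filter fun v => ω ∈ E v)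
      rw [div_le_iff₀ hS]
      refine le_trans hω ?_
      have hsub : ((sp t).filter fun v => v ∈ S₀ ∨ ω ∈ E v) ⊆
          ((sp t).filter fun v => ω ∈ E v) ∪ (S₀ \ (sp t).filter fun v => ω ∈ E v) := by
        intro v hv
        rw [mem_filter] at hv
        by_cases h : ω ∈ E v
        · exact mem_union_left _ (mem_filter.2 ⟨hv.1, h⟩)
        · refine mem_union_right _ (mem_sdiff.2 ⟨hv.2.resolve_right h, fun h' => h ?_⟩)
          exact (mem_filter.1 h').2
      refine (nn_mono hsub).trans ?_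
      rw [nn_union disjoint_sdiff]
      exact mul_le_mul_of_nonneg_left (nn_mono sdiff_subset) (nn_pos _).le)
    (fun F => by
      have e : ∀ t ∈ F, (nn (sp t)) ^ (-σ) * (2 ^ (sp t).card *
          ((nn (sp t)) ^ κ / nn S₀) ^ (-τ)) =
          (nn S₀) ^ τ * (2 ^ (sp t).card * (nn (sp t)) ^ (-(σ + κ * τ))) := by
        intro t _
        have h0 := nn_pos (sp t)
        rw [Real.div_rpow (by positivity) hS.le, ← Real.rpow_mul h0.le, neg_add, Real.rpow_add h0,
          Real.rpow_neg hS.le τ, div_eq_mul_inv, inv_inv, mul_neg]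
        ring
      rw [sum_congr rfl e, ← mul_sum]
      exact mul_le_mul_of_nonneg_left (hb F) (Real.rpow_nonneg (nn_pos _).le _))

/-- the triple `(x, 1 - x, -1)` -/
def tr {K : Type} [Field K] (x : K) : Fin 3 → K := ![x, 1 - x, -1]

/-- the matrix of the triple -/
def trMat (K : Type) [Field K] : Fin 3 × Fin 2 → K := fun p =>
  (![![1, 0], ![-1, 1], ![0, -1]] : Fin 3 → Fin 2 → K) p.1 p.2

omit [NumberField K] in
theorem tr_eq (x : K) : tr x = fun i : Fin 3 => ∑ j, trMat K (i, j) * (![x, 1] : Fin 2 → K) j := by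
  funext i
  unfold tr trMat
  fin_cases i
  · simp
  · simp
    ring
  · simp

/-- the height of the triple -/
theorem tr_height (x : K) : Height.logHeight (tr x) ≤
    (Height.totalWeight K * Real.log 2 + Height.logHeight (trMat K)) + ht (pt x) := by
  have h := Height.logHeight_linearMap_apply_le (trMat K) (![x, 1] : Fin 2 → K)
  unfold pt
  rw [ht_mk, tr_eq]
  refine h.trans (le_of_eq ?_)
  rw [Nat.card_eq_fintype_card, Fintype.card_fin]
  push_cast
  rfl

/-- the support of the point of the projective line without `0, 1, ∞` -/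
noncomputable def sp3 (x : {x : K // x ≠ 0 ∧ x ≠ 1}) : Finset (Pr K) :=
  spA (dv (![0, 1] : Fin 2 → K)) (opt x)

instance countable_sub3 {p : K → Prop} : Countable {x : K // p x} := by
  have := countable_field K
  exact Subtype.countable

theorem all3 {θ : ℝ} (hθ : 2 / 3 < θ) : ∃ D : ℝ, 0 < D ∧
    ∀ F : Finset {x : K // x ≠ 0 ∧ x ≠ 1}, ∑ t ∈ F, (nn (sp3 t)) ^ (-θ) ≤ D := by
  classical
  obtain ⟨D, hD, hb⟩ := off_dec (q := 3) le_rfl (dv (![0, 1] : Fin 2 → K)) (dv_inj inj01) θ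
    (by exact_mod_cast hθ)
  refine ⟨D, hD, fun F => ?_⟩
  have h := hb (F.image opt)
  rw [sum_image fun a _ b _ hab => opt_injective hab] at h
  exact h

theorem small3 (X : ℝ) : {x : {x : K // x ≠ 0 ∧ x ≠ 1} | nn (sp3 x) ≤ X}.Finite := by
  classical
  obtain ⟨C, hC, hb⟩ := off_count (q := 3) le_rfl (dv (![0, 1] : Fin 2 → K)) (dv_inj inj01) 1
    one_pos
  refine finite_of_card (C := C * (max X 1) ^ (2 / ((3 : ℕ) : ℝ) + 1)) fun F hF => ?_
  have h := hb (max X 1) (le_max_right _ _) (F.image opt) (fun P hP => by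
    obtain ⟨t, ht, rfl⟩ := mem_image.1 hP
    exact (hF t ht).trans (le_max_left _ _))
  rwa [card_image_of_injective F opt_injective] at h

theorem lift_sum {c θ D : ℝ}
    (hb : ∀ F : Finset {P : Off (dv (![0, 1] : Fin 2 → K)) //
      Real.log (nn (spA (dv (![0, 1] : Fin 2 → K)) P)) ≤ c * ht P.1},
      ∑ t ∈ F, (nn (spA (dv (![0, 1] : Fin 2 → K)) t.1)) ^ (-θ) ≤ D)
    {p : {x : K // x ≠ 0 ∧ x ≠ 1} → Prop} {G : Finset {x : {x : K // x ≠ 0 ∧ x ≠ 1} // p x}}
    (key : ∀ t ∈ G, Real.log (nn (spA (dv (![0, 1] : Fin 2 → K)) (opt t.1))) ≤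
      c * ht (opt t.1).1) :
    ∑ t ∈ G, (nn (sp3 t.1)) ^ (-θ) ≤ D := by
  classical
  obtain ⟨g, hg⟩ : ∃ g : {t // t ∈ G} → {P : Off (dv (![0, 1] : Fin 2 → K)) //
      Real.log (nn (spA (dv (![0, 1] : Fin 2 → K)) P)) ≤ c * ht P.1},
      ∀ t, (g t).1 = opt t.1.1 := ⟨fun t => ⟨opt t.1.1, key t.1 t.2⟩, fun t => rfl⟩
  have hinj : Function.Injective g := by
    intro a b hab
    have h1 : (g a).1 = (g b).1 := by rw [hab]
    rw [hg, hg] at h1
    exact Subtype.ext (Subtype.ext (opt_injective h1))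
  have h := hb (G.attach.image g)
  rw [sum_image fun a _ b _ hab => hinj hab] at h
  rw [← sum_attach G fun t => (nn (sp3 t.1)) ^ (-θ)]
  refine le_trans (le_of_eq ?_) h
  refine sum_congr rfl fun t _ => ?_
  rw [hg]
  rfl

/-- the points with a height larger than the power `M > 1/3` of the conductor -/
theorem exc3 {M : ℝ} (hM : 1 / 3 < M) : ∃ ν : ℝ, 0 < ν ∧ ν ≤ 1 / 3 ∧ ∀ θ : ℝ, 2 / 3 - ν < θ →
    ∃ D : ℝ, 0 < D ∧
    ∀ F : Finset {x : {x : K // x ≠ 0 ∧ x ≠ 1} //
      M * Real.log (nn (sp3 x)) < Height.logHeight (tr x.1)},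
      ∑ t ∈ F, (nn (sp3 t.1)) ^ (-θ) ≤ D := by
  classical
  obtain ⟨M', hM'⟩ : ∃ M' : ℝ, M' = (1 / 3 + M) / 2 := ⟨_, rfl⟩
  have h1 : 1 / 3 < M' := by rw [hM']; linarith
  have h2 : M' < M := by rw [hM']; linarith
  have hM'0 : 0 < M' := by linarith
  have hκ : 0 < 3 - 1 / M' := by
    have : 1 / M' < 3 := by
      rw [div_lt_iff₀ hM'0]
      linarith
    linarith
  obtain ⟨ν, hν, hexc⟩ := exc_dec (q := 3) le_rfl (dv (![0, 1] : Fin 2 → K)) (dv_inj inj01) hκ
  obtain ⟨c, hc⟩ : ∃ c : ℝ, c = Height.totalWeight K * Real.log 2 +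
      Height.logHeight (trMat K) := ⟨_, rfl⟩
  have hfin := small3 (K := K) (Real.exp (c / (M - M')))
  refine ⟨min ν (1 / 3), lt_min hν (by norm_num), min_le_right _ _, fun θ hθ => ?_⟩
  have hθ0 : 0 < θ := by
    have := min_le_right ν (1 / 3)
    linarith
  obtain ⟨D, hD, hb⟩ := hexc θ (by
    have := min_le_left ν (1 / 3)
    push_cast
    linarith)
  refine ⟨D + (hfin.toFinset.card + 1), by positivity, fun F => ?_⟩
  have hsplit := Finset.sum_filter_add_sum_filter_not F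
    (fun t => nn (sp3 t.1) ≤ Real.exp (c / (M - M'))) (fun t => (nn (sp3 t.1)) ^ (-θ))
  rw [← hsplit]
  have hA : ∑ t ∈ F.filter (fun t => nn (sp3 t.1) ≤ Real.exp (c / (M - M'))),
      (nn (sp3 t.1)) ^ (-θ) ≤ hfin.toFinset.card + 1 := by
    have k1 : ∀ t ∈ F.filter (fun t => nn (sp3 t.1) ≤ Real.exp (c / (M - M'))),
        (nn (sp3 t.1)) ^ (-θ) ≤ 1 := fun t _ =>
      Real.rpow_le_one_of_one_le_of_nonpos (one_le_nn _) (by linarith)
    refine (sum_le_sum k1).trans ?_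
    rw [sum_const, nsmul_eq_mul, mul_one]
    have k2 : ((F.filter (fun t => nn (sp3 t.1) ≤ Real.exp (c / (M - M')))).image
        Subtype.val) ⊆ hfin.toFinset := by
      intro x hx
      obtain ⟨t, ht, rfl⟩ := mem_image.1 hx
      rw [Set.Finite.mem_toFinset]
      exact (mem_filter.1 ht).2
    have k3 := card_le_card k2
    rw [card_image_of_injective _ Subtype.val_injective] at k3
    have k4 : ((F.filter (fun t => nn (sp3 t.1) ≤ Real.exp (c / (M - M')))).card : ℝ) ≤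
        hfin.toFinset.card := by exact_mod_cast k3
    linarith
  have hB : ∑ t ∈ F.filter (fun t => ¬ nn (sp3 t.1) ≤ Real.exp (c / (M - M'))),
      (nn (sp3 t.1)) ^ (-θ) ≤ D := by
    have key : ∀ t ∈ F.filter (fun t => ¬ nn (sp3 t.1) ≤ Real.exp (c / (M - M'))),
        Real.log (nn (spA (dv (![0, 1] : Fin 2 → K)) (opt t.1))) ≤
          (((3 : ℕ) : ℝ) - (3 - 1 / M')) * ht (opt t.1).1 := by
      intro t ht'
      have k1 := not_le.1 (mem_filter.1 ht').2
      have k2 : c / (M - M') < Real.log (nn (sp3 t.1)) := by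
        rw [Real.lt_log_iff_exp_lt (nn_pos _)]
        exact k1
      rw [div_lt_iff₀ (by linarith)] at k2
      have k3 := t.2
      have k4 := tr_height t.1.1
      rw [← hc] at k4
      have k5 : M' * Real.log (nn (sp3 t.1)) ≤ ht (pt t.1.1) := by nlinarith
      push_cast
      have k6 : (3 : ℝ) - (3 - 1 / M') = 1 / M' := by ring
      rw [k6]
      show Real.log (nn (sp3 t.1)) ≤ 1 / M' * ht (pt t.1.1)
      rw [one_div, le_inv_mul_iff₀ hM'0]
      exact k5
    exact lift_sum hb key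
  linarith

end Pool.Agent.X61.RI
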