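import Pool.Agent.X61.RI.Hyp
import Pool.Agent.X61.RI.Three

/-! The unit equation for the primes dividing a typical positive integer. -/

set_option autoImplicit false

namespace Pool.Agent.X61.RI

open NumberField IsDedekindDomain Finset
open Pool.Agent.H691R3 Pool.Agent.TH876.Loc Pool.Agent.Y911.RR

/-- the prime divides `N` -/
def Dvd (v : Pr ℚ) (N : ℕ) : Prop := v.valuation ℚ (N : ℚ) < 1

theorem absNorm_nat (N : ℕ) : Ideal.absNorm (Ideal.span {(N : 𝓞 ℚ)}) = N := by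
  rw [Ideal.absNorm_span_singleton]
  have h : (N : 𝓞 ℚ) = algebraMap ℤ (𝓞 ℚ) N := by simp
  rw [h, Algebra.norm_algebraMap, RingOfIntegers.rank, Module.finrank_self, pow_one]
  simp

theorem prod_dvd {J : Finset (Pr ℚ)} {N : ℕ} (h : ∀ v ∈ J, Dvd v N) :
    (∏ v ∈ J, Ideal.absNorm v.asIdeal) ∣ N := by
  classical
  have h1 : (∏ v ∈ J, v.asIdeal) ∣ Ideal.span {(N : 𝓞 ℚ)} := by
    have hinj : Set.InjOn (fun v : Pr ℚ => v.asIdeal) J := fun v _ w _ h =>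
      HeightOneSpectrum.ext h
    rw [← Finset.prod_image (f := fun I : Ideal (𝓞 ℚ) => I) hinj]
    refine Finset.prod_primes_dvd _ ?_ ?_
    · intro I hI
      obtain ⟨v, -, rfl⟩ := mem_image.1 hI
      exact v.prime
    · intro I hI
      obtain ⟨v, hv, rfl⟩ := mem_image.1 hI
      have h2 := h v hv
      unfold Dvd at h2
      have h3 : ((N : ℕ) : ℚ) = algebraMap (𝓞 ℚ) ℚ (N : 𝓞 ℚ) := by simp
      rw [h3, HeightOneSpectrum.valuation_lt_one_iff_dvd] at h2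
      exact h2
  have h2 := map_dvd Ideal.absNorm h1
  rwa [map_prod, absNorm_nat] at h2

theorem nn_eq (J : Finset (Pr ℚ)) : nn J = ((∏ v ∈ J, Ideal.absNorm v.asIdeal : ℕ) : ℝ) := by
  unfold nn
  push_cast
  rfl

open Classical in
/-- the number of the multiples -/
theorem count_dvd (J : Finset (Pr ℚ)) (X : ℕ) :
    (((Ioc 0 X).filter fun N => ∀ v ∈ J, Dvd v N).card : ℝ) ≤ X * (nn J) ^ (-(1 : ℝ)) := by
  obtain ⟨M, hM⟩ : ∃ M : ℕ, M = ∏ v ∈ J, Ideal.absNorm v.asIdeal := ⟨_, rfl⟩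
  have h1 : ((Ioc 0 X).filter fun N => ∀ v ∈ J, Dvd v N) ⊆ (Ioc 0 X).filter fun N => M ∣ N := by
    intro N hN
    rw [mem_filter] at hN ⊢
    exact ⟨hN.1, by rw [hM]; exact prod_dvd hN.2⟩
  have h2 := card_le_card h1
  rw [Nat.Ioc_filter_dvd_card_eq_div] at h2
  rw [nn_eq, ← hM, Real.rpow_neg_one]
  calc (((Ioc 0 X).filter fun N => ∀ v ∈ J, Dvd v N).card : ℝ) ≤ ((X / M : ℕ) : ℝ) := by
        exact_mod_cast h2
    _ ≤ (X : ℝ) / M := Nat.cast_div_le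
    _ = X * (M : ℝ)⁻¹ := div_eq_mul_inv _ _

/-- the points -/
abbrev Pt := {x : ℚ // x ≠ 0 ∧ x ≠ 1}

open Classical in
/-- the bad primes outside `S₀` -/
noncomputable def bad (S₀ : Finset (Pr ℚ)) (x : Pt) : Finset (Pr ℚ) :=
  spA (dv (![0, 1] : Fin 2 → ℚ)) (opt x) \ S₀

open Classical in
theorem mem_bad {S₀ : Finset (Pr ℚ)} {x : Pt} {v : Pr ℚ} :
    v ∈ bad S₀ x ↔ v ∉ S₀ ∧ ¬ UnitAt v x.1 := by
  unfold bad
  rw [mem_sdiff, mem_opt, and_comm]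
  rfl

theorem bad_sum (S₀ : Finset (Pr ℚ)) {τ : ℝ} (hτ : 2 / 3 < τ) : ∃ D : ℝ, 0 < D ∧
    ∀ F : Finset Pt, ∑ x ∈ F, (nn (bad S₀ x)) ^ (-τ) ≤ D := by
  classical
  obtain ⟨D, hD, hb⟩ := off_dec (q := 3) le_rfl (dv (![0, 1] : Fin 2 → ℚ)) (dv_inj inj01) τ
    (by exact_mod_cast hτ)
  refine ⟨(nn S₀) ^ τ * D, mul_pos (Real.rpow_pos_of_pos (nn_pos _) _) hD, fun F => ?_⟩
  have h1 := hb (F.image opt)
  rw [sum_image fun x _ y _ h => opt_injective h] at h1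
  calc ∑ x ∈ F, (nn (bad S₀ x)) ^ (-τ)
      ≤ ∑ x ∈ F, (nn S₀) ^ τ * (nn (spA (dv (![0, 1] : Fin 2 → ℚ)) (opt x))) ^ (-τ) := by
        refine sum_le_sum fun x _ => ?_
        have := sdiff_bound S₀ (spA (dv (![0, 1] : Fin 2 → ℚ)) (opt x)) (τ := τ) (by linarith)
        unfold bad
        convert this using 3
    _ = (nn S₀) ^ τ * ∑ x ∈ F, (nn (spA (dv (![0, 1] : Fin 2 → ℚ)) (opt x))) ^ (-τ) :=
        (mul_sum _ _ _).symm
    _ ≤ (nn S₀) ^ τ * D := mul_le_mul_of_nonneg_left h1 (Real.rpow_nonneg (nn_pos _).le _)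

/-- the points of small conductor -/
theorem small_finite (S₀ : Finset (Pr ℚ)) (Z : ℝ) : {x : Pt | nn (bad S₀ x) < Z}.Finite := by
  obtain ⟨D, hD, hb⟩ := bad_sum S₀ (τ := 1) (by norm_num)
  by_contra hcon
  have hinf : {x : Pt | nn (bad S₀ x) < Z}.Infinite := hcon
  obtain ⟨n, hn⟩ := exists_nat_gt (D * Z)
  obtain ⟨F, hF, hFn⟩ := hinf.exists_subset_card_eq n
  rcases F.eq_empty_or_nonempty with h | ⟨x₀, hx₀⟩
  · rw [h, card_empty] at hFn
    rw [← hFn] at hn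
    have hZ0 : Z < 0 := by
      by_contra h0
      have : 0 ≤ D * Z := mul_nonneg hD.le (not_lt.1 h0)
      simp only [Nat.cast_zero] at hn
      linarith
    obtain ⟨x, hx⟩ := hinf.nonempty
    have h1 : nn (bad S₀ x) < Z := hx
    have := nn_pos (bad S₀ x)
    linarith
  · have hZ : 0 < Z := (nn_pos (bad S₀ x₀)).trans (hF hx₀)
    have h1 : (F.card : ℝ) * Z⁻¹ ≤ D := by
      rw [← nsmul_eq_mul, ← sum_const]
      refine (sum_le_sum fun x hx => ?_).trans (hb F)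
      rw [Real.rpow_neg_one]
      exact inv_anti₀ (nn_pos _) (le_of_lt (hF hx))
    rw [hFn, ← div_eq_mul_inv, div_le_iff₀ hZ] at h1
    linarith

open Classical in
/-- **The primes dividing a typical integer.** -/
theorem typical (S₀ : Finset (Pr ℚ)) {δ : ℝ} (hδ : 0 < δ) (hδ3 : δ < 1 / 3) : ∃ C : ℝ, 0 < C ∧
    ∀ (Z : ℝ) (X : ℕ), 0 < Z →
      (((Ioc 0 X).filter fun N => ∃ x : Pt, Z ≤ nn (bad S₀ x) ∧ ∀ v ∈ bad S₀ x, Dvd v N).card : ℝ) ≤
        C * X * Z ^ (-δ) := by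
  obtain ⟨D, hD, hb⟩ := bad_sum S₀ (τ := 1 - δ) (by linarith)
  refine ⟨D, hD, fun Z X hZ => ?_⟩
  set E := (Ioc 0 X).filter fun N => ∃ x : Pt, Z ≤ nn (bad S₀ x) ∧ ∀ v ∈ bad S₀ x, Dvd v N
    with hE
  have hex : ∀ N ∈ E, ∃ x : Pt, Z ≤ nn (bad S₀ x) ∧ ∀ v ∈ bad S₀ x, Dvd v N := fun N hN =>
    (mem_filter.1 hN).2
  have hne : Nonempty Pt := ⟨⟨2, by norm_num, by norm_num⟩⟩
  choose! f hf using hex
  have h1 : E ⊆ (E.image f).biUnion fun x => (Ioc 0 X).filter fun N => ∀ v ∈ bad S₀ x, Dvd v N := by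
    intro N hN
    rw [mem_biUnion]
    exact ⟨f N, mem_image_of_mem f hN, mem_filter.2 ⟨(mem_filter.1 hN).1, (hf N hN).2⟩⟩
  have h2 : ∀ x ∈ E.image f, Z ≤ nn (bad S₀ x) := by
    intro x hx
    obtain ⟨N, hN, rfl⟩ := mem_image.1 hx
    exact (hf N hN).1
  calc (E.card : ℝ) ≤ ((E.image f).biUnion fun x =>
        (Ioc 0 X).filter fun N => ∀ v ∈ bad S₀ x, Dvd v N).card := by
        exact_mod_cast card_le_card h1
    _ ≤ ((∑ x ∈ E.image f, ((Ioc 0 X).filter fun N => ∀ v ∈ bad S₀ x, Dvd v N).card : ℕ) : ℝ) := by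
        exact_mod_cast card_biUnion_le
    _ = ∑ x ∈ E.image f, (((Ioc 0 X).filter fun N => ∀ v ∈ bad S₀ x, Dvd v N).card : ℝ) := by
        push_cast
        rfl
    _ ≤ ∑ x ∈ E.image f, X * Z ^ (-δ) * (nn (bad S₀ x)) ^ (-(1 - δ)) := by
        refine sum_le_sum fun x hx => (count_dvd _ _).trans ?_
        have h3 := nn_pos (bad S₀ x)
        rw [mul_assoc]
        refine mul_le_mul_of_nonneg_left ?_ (Nat.cast_nonneg _)
        calc (nn (bad S₀ x)) ^ (-(1 : ℝ)) = (nn (bad S₀ x)) ^ (-δ) *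
              (nn (bad S₀ x)) ^ (-(1 - δ)) := by
              rw [← Real.rpow_add h3]
              ring_nf
          _ ≤ Z ^ (-δ) * (nn (bad S₀ x)) ^ (-(1 - δ)) :=
              mul_le_mul_of_nonneg_right
                (Real.rpow_le_rpow_of_nonpos hZ (h2 x hx) (by linarith)) (by positivity)
    _ = X * Z ^ (-δ) * ∑ x ∈ E.image f, (nn (bad S₀ x)) ^ (-(1 - δ)) := (mul_sum _ _ _).symm
    _ ≤ X * Z ^ (-δ) * D := mul_le_mul_of_nonneg_left (hb _) (by positivity)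
    _ = D * X * Z ^ (-δ) := by ring

end Pool.Agent.X61.RI
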