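import Mathlib

/-! Objects whose support is composed of the elements of a random set (first Borel-Cantelli
lemma). -/

set_option autoImplicit false

namespace Pool.Agent.X61.RI

open Finset MeasureTheory ProbabilityTheory

section General

variable {Ω : Type*} [MeasurableSpace Ω] {μ : Measure Ω}

/-- sums of real numbers -/
theorem tsum_ne_top {T : Type*} {B : T → Set Ω} {f : T → ℝ} {D : ℝ} (hf : ∀ t, 0 ≤ f t)
    (hB : ∀ t, μ (B t) ≤ ENNReal.ofReal (f t)) (hD : ∀ F : Finset T, ∑ t ∈ F, f t ≤ D) :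
    ∑' t, μ (B t) ≤ ENNReal.ofReal D := by
  rw [ENNReal.tsum_eq_iSup_sum]
  refine iSup_le fun F => ?_
  calc ∑ t ∈ F, μ (B t) ≤ ∑ t ∈ F, ENNReal.ofReal (f t) := sum_le_sum fun t _ => hB t
    _ = ENNReal.ofReal (∑ t ∈ F, f t) := (ENNReal.ofReal_sum_of_nonneg fun t _ => hf t).symm
    _ ≤ _ := ENNReal.ofReal_le_ofReal (hD F)

theorem ae_finite {T : Type*} [Countable T] {B : T → Set Ω} {f : T → ℝ} {D : ℝ} (hf : ∀ t, 0 ≤ f t)
    (hB : ∀ t, μ (B t) ≤ ENNReal.ofReal (f t)) (hD : ∀ F : Finset T, ∑ t ∈ F, f t ≤ D) :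
    ∀ᵐ ω ∂μ, {t | ω ∈ B t}.Finite :=
  ae_finite_setOfPred_mem ((tsum_ne_top hf hB hD).trans_lt ENNReal.ofReal_lt_top).ne

/-- the union bound for all objects -/
theorem exists_le {T : Type*} [Countable T] {B : T → Set Ω} {f : T → ℝ} {D : ℝ}
    (hf : ∀ t, 0 ≤ f t)
    (hB : ∀ t, μ (B t) ≤ ENNReal.ofReal (f t)) (hD : ∀ F : Finset T, ∑ t ∈ F, f t ≤ D) :
    μ {ω | ∃ t, ω ∈ B t} ≤ ENNReal.ofReal D := by
  have e : {ω | ∃ t, ω ∈ B t} = ⋃ t, B t := by
    ext ω
    simp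
  rw [e]
  exact (measure_iUnion_le B).trans (tsum_ne_top hf hB hD)

variable {ι : Type*} {N : ι → ℝ} {E : ι → Set Ω} {τ : ℝ}

/-- the probability that a finite set consists of elements of the random set -/
theorem inter_le (hN : ∀ v, 0 < N v) (hi : iIndepSet E μ)
    (hE : ∀ v, μ (E v) ≤ ENNReal.ofReal ((N v) ^ (-τ))) (J : Finset ι) :
    μ (⋂ v ∈ J, E v) ≤ ENNReal.ofReal ((∏ v ∈ J, N v) ^ (-τ)) := by
  rw [hi.meas_biInter J, ← Real.finsetProd_rpow _ _ (fun v _ => (hN v).le),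
    ENNReal.ofReal_prod_of_nonneg fun v _ => Real.rpow_nonneg (hN v).le _]
  exact Finset.prod_le_prod' fun v _ => hE v

open Classical in
/-- the probability that the part of a finite set composed of elements of the random set is
large -/
theorem part_le (hN : ∀ v, 0 < N v) (hi : iIndepSet E μ) (hτ : 0 ≤ τ)
    (hE : ∀ v, μ (E v) ≤ ENNReal.ofReal ((N v) ^ (-τ))) (A : Finset ι) {Z : ℝ} (hZ : 0 < Z) :
    μ {ω | Z ≤ ∏ v ∈ A.filter (fun v => ω ∈ E v), N v} ≤
      ENNReal.ofReal (2 ^ A.card * Z ^ (-τ)) := by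
  have hsub : {ω | Z ≤ ∏ v ∈ A.filter (fun v => ω ∈ E v), N v} ⊆
      ⋃ J ∈ A.powerset.filter (fun J => Z ≤ ∏ v ∈ J, N v), ⋂ v ∈ J, E v := by
    intro ω hω
    rw [Set.mem_iUnion₂]
    refine ⟨A.filter (fun v => ω ∈ E v), ?_, ?_⟩
    · rw [mem_filter, mem_powerset]
      exact ⟨filter_subset _ _, hω⟩
    · rw [Set.mem_iInter₂]
      intro v hv
      exact (mem_filter.1 hv).2
  refine (measure_mono hsub).trans ((measure_biUnion_finset_le _ _).trans ?_)
  have h1 : ∀ J ∈ A.powerset.filter (fun J => Z ≤ ∏ v ∈ J, N v),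
      μ (⋂ v ∈ J, E v) ≤ ENNReal.ofReal (Z ^ (-τ)) := by
    intro J hJ
    refine (inter_le hN hi hE J).trans (ENNReal.ofReal_le_ofReal ?_)
    exact Real.rpow_le_rpow_of_nonpos hZ (mem_filter.1 hJ).2 (by linarith)
  refine (sum_le_sum h1).trans ?_
  rw [sum_const, nsmul_eq_mul, ENNReal.ofReal_mul (by positivity)]
  refine mul_le_mul_left ?_ _
  have h2 : (A.powerset.filter (fun J => Z ≤ ∏ v ∈ J, N v)).card ≤ 2 ^ A.card := by
    rw [← card_powerset]
    exact card_filter_le _ _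
  calc (((A.powerset.filter (fun J => Z ≤ ∏ v ∈ J, N v)).card : ℕ) : ENNReal)
      ≤ ((2 ^ A.card : ℕ) : ENNReal) := by exact_mod_cast h2
    _ = ENNReal.ofReal (2 ^ A.card) := by
        rw [← ENNReal.ofReal_natCast]
        push_cast
        rfl

end General

end Pool.Agent.X61.RI
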