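import Pool.Agent.X61.RI.Fam
import Pool.Agent.X61.RI.Part

/-! Points of rational curves in the hyperplane `z_1 + ... + z_n = 0` composed of the primes of a
random set. -/

set_option autoImplicit false

namespace Pool.Agent.X61.RI

open NumberField IsDedekindDomain Finset MeasureTheory ProbabilityTheory Polynomial
open Pool.Agent.H691R3 Pool.Agent.TH876.Loc Pool.Agent.Y911.RR
open Pool.Agent.Y911.US (ht ht_nonneg ht_mk)

variable {K : Type} [Field K] [NumberField K]

theorem countable_primes (K : Type) [Field K] [NumberField K] : Countable (Pr K) := by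
  have h : (⋃ n : ℕ, {v : Pr K | Nv v ≤ n}) = Set.univ := by
    refine Set.eq_univ_of_forall fun v => ?_
    obtain ⟨n, hn⟩ := exists_nat_ge (Nv v)
    exact Set.mem_iUnion.2 ⟨n, hn⟩
  have h2 : (Set.univ : Set (Pr K)).Countable := by
    rw [← h]
    exact Set.countable_iUnion fun n =>
      (Pool.Agent.TH876.KR.finite_primes (K := K) (n : ℝ)).countable
  exact Set.countable_univ_iff.1 h2

/-- the point with the parameter `t` -/
def cpt {q : ℕ} (c : Fin q → Option K) (t : {t : K // ∀ l, c l ≠ some t}) :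
    Off (fun l => opp (c l)) :=
  ⟨pt t.1, fun l => by
    show pt t.1 ≠ opp (c l)
    rcases hcl : c l with _ | a
    · exact pt_ne_infty _
    · intro h
      have h' : t.1 = a := pt_inj h
      exact t.2 l (by rw [hcl, h'])⟩

theorem cpt_injective {q : ℕ} (c : Fin q → Option K) : Function.Injective (cpt c) := fun _ _ h =>
  Subtype.ext (pt_inj (congrArg Subtype.val h))

variable {Ω : Type*} [MeasurableSpace Ω] {μ : Measure Ω} {E : Pr K → Set Ω} {τ : ℝ}

/-- **For all divisors and all finite sets at the same time.** -/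
theorem line_all (hi : iIndepSet E μ) (hE : ∀ v, μ (E v) ≤ ENNReal.ofReal ((Nv v) ^ (-τ))) :
    ∀ᵐ ω ∂μ, ∀ (q : ℕ) (c : Fin q → Option K) (S : Finset (Pr K)), 3 ≤ q →
      Function.Injective c → 2 / (q : ℝ) < τ →
      {t : K | (∀ l, c l ≠ some t) ∧
        ∀ v, (∃ l, Meet v (pt t) (opp (c l))) → v ∈ S ∨ ω ∈ E v}.Finite := by
  have c1 := countable_primes K
  have c2 := countable_field K
  rw [ae_all_iff]
  intro q
  rw [ae_all_iff]
  intro c
  rw [ae_all_iff]
  intro S
  by_cases hq : 3 ≤ q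
  swap
  · exact Filter.Eventually.of_forall fun ω h => absurd h hq
  by_cases hc : Function.Injective c
  swap
  · exact Filter.Eventually.of_forall fun ω _ h => absurd h hc
  by_cases hτ : 2 / (q : ℝ) < τ
  swap
  · exact Filter.Eventually.of_forall fun ω _ _ h => absurd h hτ
  filter_upwards [line_finite hq (fun l => opp (c l)) (opc_inj hc) S hτ hi hE] with ω hω _ _ _
  have h2 := hω.preimage (f := cpt c) (cpt_injective c).injOn
  refine (h2.image Subtype.val).subset ?_
  rintro t ⟨ht, hu⟩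
  refine ⟨⟨t, ht⟩, ?_, rfl⟩
  intro v hv
  rw [mem_spA] at hv
  exact hu v hv

/-! ### curves -/

/-- the rational curve `t ↦ (f_1(t) : ... : f_n(t))` of degree `D` in the hyperplane -/
def IsCurve {K : Type} [Field K] {n : ℕ} (f : Fin n → K[X]) (D : ℕ) : Prop :=
  ∑ i, f i = 0 ∧ (∀ i, (f i).natDegree ≤ D) ∧ (∃ i, f i ≠ 0 ∧ (f i).natDegree = D) ∧
    ∃ g : Fin n → K[X], ∑ i, g i * f i = 1

/-- the point of the curve with the parameter `o` (`none` is `∞`) is on a coordinate hyperplane -/
def Meets {K : Type} [Field K] {n : ℕ} (f : Fin n → K[X]) (D : ℕ) : Option K → Prop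
  | some a => ∃ i, (f i).eval a = 0
  | none => ∃ i, (f i).natDegree < D

/-- the primes at which the absolute values of the coordinates are not all equal -/
def csupp {n : ℕ} (z : Fin n → K) : Set (HeightOneSpectrum (𝓞 K)) :=
  {v | ∃ i j, v.valuation K (z i) ≠ v.valuation K (z j)}

/-- the primes which are good for the curve -/
def GoodC {n q : ℕ} (v : Pr K) (f g : Fin n → K[X]) (c : Fin q → Option K) : Prop :=
  (∀ i, f i ≠ 0 → GoodP v (f i)) ∧ (∀ i, g i ≠ 0 → GoodP v (g i)) ∧
    ∀ l a, c l = some a → v.valuation K a ≤ 1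

theorem goodC_finite {n q : ℕ} (f g : Fin n → K[X]) (c : Fin q → Option K) :
    {v : Pr K | ¬ GoodC v f g c}.Finite := by
  have h0 : ∀ f : Fin n → K[X], (⋃ i : Fin n, {v : Pr K | ¬ (f i ≠ 0 → GoodP v (f i))}).Finite := by
    intro f
    refine Set.finite_iUnion fun i => ?_
    by_cases hi : f i = 0
    · refine Set.finite_empty.subset fun v hv => ?_
      exact absurd (fun h => absurd hi h) hv
    · exact (goodP_finite hi).subset fun v hv h => hv fun _ => h
  have h1 : (⋃ l : Fin q, {v : Pr K | ¬ ∀ a, c l = some a → v.valuation K a ≤ 1}).Finite := by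
    refine Set.finite_iUnion fun l => ?_
    rcases hl : c l with _ | b
    · refine Set.finite_empty.subset fun v hv => ?_
      exfalso
      apply hv
      intro a ha
      exact absurd ha (by simp)
    · refine (int_finite b).subset fun v hv h => hv ?_
      intro a ha
      rw [Option.some.injEq] at ha
      subst ha
      exact h
  refine (((h0 f).union (h0 g)).union h1).subset fun v hv => ?_
  by_contra hcon
  rw [Set.mem_union, Set.mem_union, not_or, not_or] at hcon
  apply hv
  refine ⟨fun i => ?_, fun i => ?_, fun l => ?_⟩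
  · by_contra h
    exact hcon.1.1 (Set.mem_iUnion.2 ⟨i, h⟩)
  · by_contra h
    exact hcon.1.2 (Set.mem_iUnion.2 ⟨i, h⟩)
  · by_contra h
    exact hcon.2 (Set.mem_iUnion.2 ⟨l, h⟩)

theorem eval_int {v : Pr K} {P : K[X]} (hP : P ≠ 0 → GoodP v P) {t : K}
    (ht : v.valuation K t ≤ 1) : v.valuation K (P.eval t) ≤ 1 := by
  by_cases h : P = 0
  · rw [h, eval_zero, map_zero]
    exact zero_le_one
  · rw [eval_eq_sum_range]
    refine Valuation.map_sum_le _ fun i _ => ?_
    rw [map_mul, map_pow]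
    exact mul_le_of_le_one_of_le ((hP h).1 i) (pow_le_one₀ (zero_le) ht)

theorem meets_supp {n q D : ℕ} {v : Pr K} {f g : Fin n → K[X]} {c : Fin q → Option K}
    (hf : IsCurve f D) (hg : ∑ i, g i * f i = 1) (hv : GoodC v f g c) {l : Fin q}
    (hc : Meets f D (c l)) {t : K} (ht : ∀ i, (f i).eval t ≠ 0)
    (hm : Meet v (pt t) (opp (c l))) : v ∈ csupp fun i => (f i).eval t := by
  have hf0 : ∀ i, f i ≠ 0 := fun i h => ht i (by rw [h, eval_zero])
  rcases hcl : c l with _ | a
  · rw [hcl] at hm hc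
    have hm' : Meet v (pt t) (infty K) := hm
    rw [meet_pt_infty] at hm'
    have h1 : 1 < v.valuation K t := by
      by_contra hcon
      exact absurd ((val_le_one v t).1 (not_lt.1 hcon)) (not_le.2 hm')
    obtain ⟨i, hi⟩ := hc
    obtain ⟨j, _, hj⟩ := hf.2.2.1
    refine ⟨i, j, ?_⟩
    show v.valuation K ((f i).eval t) ≠ v.valuation K ((f j).eval t)
    rw [eval_large (hv.1 i (hf0 i)) h1, eval_large (hv.1 j (hf0 j)) h1]
    exact (pow_lt_pow_right₀ h1 (by omega)).ne
  · rw [hcl] at hm hc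
    have h1 := hv.2.2 l a hcl
    have hm' : Meet v (pt t) (pt a) := hm
    rw [meet_pt_pt v t a ((val_le_one v a).1 h1), lt_max_iff] at hm'
    have h3 : fv v (t - a) < 1 := by
      rcases hm' with h3 | h3
      · by_contra hcon
        have h4 : 1 < fv v t := lt_of_le_of_lt (not_lt.1 hcon) h3
        have h5 : fv v t ≤ max (fv v (t - a)) (fv v a) := by
          have := fv_na v (t - a) a
          rwa [sub_add_cancel] at this
        rcases le_max_iff.1 h5 with h6 | h6
        · exact absurd h3 (not_lt.2 h6)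
        · exact absurd (h6.trans ((val_le_one v a).1 h1)) (not_le.2 h4)
      · exact h3
    have h4 : v.valuation K (t - a) < 1 := (val_lt_one v _).2 h3
    have h5 : v.valuation K t ≤ 1 := by
      have e : t = (t - a) + a := by ring
      rw [e]
      exact Valuation.map_add_le _ h4.le h1
    obtain ⟨i, hi⟩ := hc
    have h6 := lt_of_le_of_lt (sub_eval (hv.1 i (hf0 i)) h5 h1) h4
    rw [hi, sub_zero] at h6
    by_contra hcon
    have hall : ∀ j, v.valuation K ((f j).eval t) = v.valuation K ((f i).eval t) := by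
      intro j
      by_contra h
      exact hcon ⟨j, i, h⟩
    have h7 : v.valuation K (∑ j, (g j).eval t * (f j).eval t) < 1 := by
      refine Valuation.map_sum_lt _ one_ne_zero fun j _ => ?_
      rw [map_mul, hall j]
      exact lt_of_le_of_lt (mul_le_of_le_one_of_le (eval_int (hv.2.1 j) h5) le_rfl) h6
    have h8 : ∑ j, (g j).eval t * (f j).eval t = 1 := by
      have := congrArg (Polynomial.eval t) hg
      rw [eval_finsetSum, eval_one] at this
      rw [← this]
      exact Finset.sum_congr rfl fun j _ => (eval_mul).symm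
    rw [h8, map_one] at h7
    exact lt_irrefl _ h7

theorem csupp_finite {n : ℕ} {z : Fin n → K} (hz : ∀ i, z i ≠ 0) : (csupp z).Finite := by
  have h1 : (⋃ i : Fin n, {v : Pr K | ¬ v.valuation K (z i) = 1}).Finite :=
    Set.finite_iUnion fun i => unit_finite (hz i)
  refine h1.subset ?_
  rintro v ⟨i, j, hij⟩
  by_contra hcon
  rw [Set.mem_iUnion, not_exists] at hcon
  have h2 : ∀ i, v.valuation K (z i) = 1 := by
    intro i
    by_contra h
    exact hcon i h
  exact hij (by rw [h2 i, h2 j])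

/-- the height of the points of the curve -/
theorem curve_height {n D : ℕ} {f : Fin n → K[X]} (hD : ∀ i, (f i).natDegree ≤ D) :
    ∃ C : ℝ, ∀ t : K, Height.logHeight (fun i => (f i).eval t) ≤ C + D * ht (pt t) := by
  classical
  obtain ⟨p, hp⟩ : ∃ p : Fin n → MvPolynomial (Fin 2) K, p = fun i =>
      ∑ k ∈ Finset.range (D + 1), MvPolynomial.C ((f i).coeff k) *
        (MvPolynomial.X 0 ^ k * MvPolynomial.X 1 ^ (D - k)) := ⟨_, rfl⟩
  have hhom : ∀ i, (p i).IsHomogeneous D := by
    intro i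
    rw [hp]
    refine MvPolynomial.IsHomogeneous.sum _ _ _ fun k hk => ?_
    have hk' : k + (D - k) = D := by
      have := Finset.mem_range.1 hk
      omega
    have h1 := (MvPolynomial.isHomogeneous_X K (0 : Fin 2)).pow k
    have h2 := (MvPolynomial.isHomogeneous_X K (1 : Fin 2)).pow (D - k)
    have h3 := (MvPolynomial.isHomogeneous_C (Fin 2) ((f i).coeff k)).mul (h1.mul h2)
    have e : 0 + (1 * k + 1 * (D - k)) = D := by omega
    rw [e] at h3
    exact h3
  obtain ⟨C, hC⟩ := Height.logHeight_eval_le' (K := K) hhom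
  refine ⟨C, fun t => ?_⟩
  have h := hC ![t, 1]
  have e1 : (fun j => (p j).eval ![t, 1]) = fun i => (f i).eval t := by
    funext i
    rw [hp]
    simp only [map_sum, map_mul, MvPolynomial.eval_C, map_pow, MvPolynomial.eval_X,
      Matrix.cons_val_zero, Matrix.cons_val_one, one_pow, mul_one]
    rw [eval_eq_sum_range' (Nat.lt_succ_of_le (hD i))]
  rw [e1] at h
  unfold pt
  rw [ht_mk]
  exact h

theorem ht_finite (B : ℝ) : {t : K | ht (pt t) ≤ B}.Finite := by
  refine (NumberField.finite_setOfPred_logHeight₁_le (K := K) B).subset ?_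
  intro t h
  have h' : ht (pt t) ≤ B := h
  unfold pt at h'
  rw [ht_mk] at h'
  show Height.logHeight₁ t ≤ B
  rw [Height.logHeight₁_eq_logHeight]
  exact h'

theorem curve_exc {n q D : ℕ} (hq : 3 ≤ q) {f : Fin n → K[X]} (hf : IsCurve f D)
    {c : Fin q → Option K} (hinj : Function.Injective c) (hc : ∀ l, Meets f D (c l)) {M : ℝ}
    (hM : (D : ℝ) / q < M) : ∃ ν : ℝ, 0 < ν ∧ ∀ τ : ℝ, 0 ≤ τ → 2 / (q : ℝ) - ν < τ →
    ∀ {Ω : Type} [MeasurableSpace Ω] (μ : Measure Ω) (E : Pr K → Set Ω), iIndepSet E μ →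
      (∀ v, μ (E v) ≤ ENNReal.ofReal ((Nv v) ^ (-τ))) →
    ∀ᵐ ω ∂μ, ∀ S : Finset (Pr K), {t : K | (∀ i, (f i).eval t ≠ 0) ∧
      (∀ v ∈ csupp fun i => (f i).eval t, v ∈ S ∨ ω ∈ E v) ∧
      M * (∑ᶠ (v : Pr K) (_ : v ∈ csupp fun i => (f i).eval t), Real.log (Nv v)) <
        Height.logHeight fun i => (f i).eval t}.Finite := by
  classical
  have hq0 : (0 : ℝ) < q := by exact_mod_cast (by omega : 0 < q)
  have hM0 : 0 < M := lt_of_le_of_lt (by positivity) hM
  have hMq : (D : ℝ) < M * q := by rwa [div_lt_iff₀ hq0] at hM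
  obtain ⟨g, hg⟩ := hf.2.2.2
  have hB := goodC_finite f g c
  obtain ⟨κ, hκ⟩ : ∃ κ : ℝ, κ = (M * q - D) / (2 * M) := ⟨_, rfl⟩
  have hκ0 : 0 < κ := by
    rw [hκ]
    exact div_pos (by linarith) (by linarith)
  have hMκ : M * ((q : ℝ) - κ) - D = (M * q - D) / 2 := by
    rw [hκ]
    field_simp
    ring
  obtain ⟨ν, hν, hexc⟩ := exc_dec hq (fun l => opp (c l)) (opc_inj hinj) hκ0
  obtain ⟨Cf, hCf⟩ := curve_height (K := K) hf.2.1
  refine ⟨ν, hν, ?_⟩
  intro τ hτ0 hτ Ω _ μ E hi hE
  obtain ⟨D', hD', hb⟩ := hexc ((2 / q - ν + τ) / 2) (by linarith)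
  have c1 := countable_primes K
  rw [ae_all_iff]
  intro S
  have h := part_sum (μ := μ) (E := E)
    (fun t : {P : Off (fun l => opp (c l)) //
      Real.log (nn (spA (fun l => opp (c l)) P)) ≤ ((q : ℝ) - κ) * ht P.1} =>
        spA (fun l => opp (c l)) t.1)
    (S ∪ hB.toFinset) hτ0 (σ := 0) (κ := 1) hD' hb (by linarith) hi hE
  filter_upwards [h] with ω hω
  obtain ⟨C, hC⟩ := hω
  have hfin : {t : {P : Off (fun l => opp (c l)) //
      Real.log (nn (spA (fun l => opp (c l)) P)) ≤ ((q : ℝ) - κ) * ht P.1} |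
      (nn (spA (fun l => opp (c l)) t.1)) ^ (1 : ℝ) ≤
        nn ((spA (fun l => opp (c l)) t.1).filter
          fun v => v ∈ S ∪ hB.toFinset ∨ ω ∈ E v)}.Finite := by
    refine finite_of_card (C := C) fun F hF => ?_
    have h1 := hC F hF
    simp only [neg_zero, Real.rpow_zero, Finset.sum_const, nsmul_eq_mul, mul_one] at h1
    exact h1
  have hW1 : {t : K | ∃ ho : ∀ l, c l ≠ some t, cpt c ⟨t, ho⟩ ∈ Subtype.val '' {t :
      {P : Off (fun l => opp (c l)) //
      Real.log (nn (spA (fun l => opp (c l)) P)) ≤ ((q : ℝ) - κ) * ht P.1} |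
      (nn (spA (fun l => opp (c l)) t.1)) ^ (1 : ℝ) ≤
        nn ((spA (fun l => opp (c l)) t.1).filter
          fun v => v ∈ S ∪ hB.toFinset ∨ ω ∈ E v)}}.Finite := by
    refine (((hfin.image Subtype.val).preimage (f := cpt c)
      (cpt_injective c).injOn).image Subtype.val).subset ?_
    rintro t ⟨ho, h'⟩
    exact ⟨⟨t, ho⟩, h', rfl⟩
  have hW2 := ht_finite (K := K)
    ((Cf + M * Real.log (nn hB.toFinset)) / ((M * q - D) / 2))
  refine (hW1.union hW2).subset ?_
  rintro t ⟨ht0, hsup, hlt⟩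
  have ho : ∀ l, c l ≠ some t := by
    intro l hl
    have := hc l
    rw [hl] at this
    obtain ⟨i, hi'⟩ := this
    exact ht0 i hi'
  have hgood : ∀ v : Pr K, v ∈ spA (fun l => opp (c l)) (cpt c ⟨t, ho⟩) → v ∉ hB.toFinset →
      v ∈ csupp fun i => (f i).eval t := by
    intro v hv hvB
    rw [mem_spA] at hv
    obtain ⟨l, hl⟩ := hv
    have hvg : GoodC v f g c := by
      by_contra h'
      exact hvB ((Set.Finite.mem_toFinset hB).2 h')
    exact meets_supp hf hg hvg (hc l) ht0 hl
  by_cases hex : Real.log (nn (spA (fun l => opp (c l)) (cpt c ⟨t, ho⟩))) ≤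
      ((q : ℝ) - κ) * ht (cpt c ⟨t, ho⟩).1
  · left
    refine ⟨ho, ⟨cpt c ⟨t, ho⟩, hex⟩, ?_, rfl⟩
    show (nn (spA (fun l => opp (c l)) (cpt c ⟨t, ho⟩))) ^ (1 : ℝ) ≤ _
    rw [Real.rpow_one]
    refine le_of_eq ?_
    congr 1
    refine (Finset.filter_true_of_mem fun v hv => ?_).symm
    rw [Finset.mem_union]
    by_cases hvB : v ∈ hB.toFinset
    · exact Or.inl (Or.inr hvB)
    · rcases hsup v (hgood v hv hvB) with h1 | h1
      · exact Or.inl (Or.inl h1)
      · exact Or.inr h1
  · right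
    have hex' := not_le.1 hex
    obtain ⟨s, hs⟩ : ∃ s, s = spA (fun l => opp (c l)) (cpt c ⟨t, ho⟩) := ⟨_, rfl⟩
    rw [← hs] at hex' hgood
    have hsf := csupp_finite (z := fun i => (f i).eval t) ht0
    have hr : Real.log (nn s) - Real.log (nn hB.toFinset) ≤
        ∑ᶠ (v : Pr K) (_ : v ∈ csupp fun i => (f i).eval t), Real.log (Nv v) := by
      have e : (csupp fun i => (f i).eval t) = (hsf.toFinset : Set (Pr K)) :=
        (Set.Finite.coe_toFinset hsf).symm
      rw [e, finsum_mem_coe_finset, ← Pool.Agent.TH876.KR.log_nn, sub_le_iff_le_add,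
        ← Real.log_mul (nn_pos _).ne' (nn_pos _).ne']
      refine Real.log_le_log (nn_pos _) ?_
      have hsub : s ⊆ hsf.toFinset ∪ (hB.toFinset \ hsf.toFinset) := by
        intro v hv
        rw [Finset.union_sdiff_self_eq_union, Finset.mem_union]
        by_cases hvB : v ∈ hB.toFinset
        · exact Or.inr hvB
        · left
          rw [Set.Finite.mem_toFinset]
          exact hgood v hv hvB
      refine (nn_mono hsub).trans ?_
      rw [nn_union disjoint_sdiff]
      exact mul_le_mul_of_nonneg_left (nn_mono sdiff_subset) (nn_pos _).le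
    have h1 := hCf t
    have h2 : (cpt c ⟨t, ho⟩).1 = pt t := rfl
    rw [h2] at hex'
    have h3 := mul_le_mul_of_nonneg_left hr hM0.le
    have h4 : M * (((q : ℝ) - κ) * ht (pt t)) < M * Real.log (nn s) :=
      mul_lt_mul_of_pos_left hex' hM0
    show ht (pt t) ≤ _
    rw [le_div_iff₀ (by linarith), ← hMκ]
    nlinarith

end Pool.Agent.X61.RI
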