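import Pool.Agent.X61.RI.Szp
import Pool.Agent.TH876.KR.Gens

/-! The minimal discriminant of an elliptic curve and the height of its `j`-invariant. -/

set_option autoImplicit false

namespace Pool.Agent.X61.RI

open NumberField IsDedekindDomain Finset MeasureTheory ProbabilityTheory Polynomial
open Pool.Agent.H691R3 Pool.Agent.TH876.Loc Pool.Agent.Y911.RR

variable {K : Type} [Field K] [NumberField K]

/-- the logarithm of the norm of the `v`-part of the minimal discriminant: the least value of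
`-log |Δ|_v` for the `v`-integral equations -/
noncomputable def localDisc (v : HeightOneSpectrum (𝓞 K)) (W : WeierstrassCurve K) : ℝ :=
  sInf {r : ℝ | ∃ C : WeierstrassCurve.VariableChange K,
    IntegralAt v (C • W) ∧ r = -Real.log (FinitePlace.mk v (C • W).Δ)}

/-- the logarithm of the norm of the minimal discriminant -/
noncomputable def logDisc (W : WeierstrassCurve K) : ℝ :=
  ∑ᶠ v : HeightOneSpectrum (𝓞 K), localDisc v W

/-- the logarithm of the product of the norms of the primes of bad reduction -/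
noncomputable def logBad (W : WeierstrassCurve K) : ℝ :=
  ∑ᶠ (v : HeightOneSpectrum (𝓞 K)) (_ : v ∈ {v : HeightOneSpectrum (𝓞 K) | ¬ GoodAt v W}),
    Real.log (Ideal.absNorm v.asIdeal : ℝ)

/-- the logarithm of the product of the norms of the primes of additive reduction -/
noncomputable def logAdditive (W : WeierstrassCurve K) : ℝ :=
  ∑ᶠ (v : HeightOneSpectrum (𝓞 K)) (_ : v ∈ {v : HeightOneSpectrum (𝓞 K) | ¬ SemistableAt v W}),
    Real.log (Ideal.absNorm v.asIdeal : ℝ)

theorem neg_log_nonneg {v : Pr K} {W : WeierstrassCurve K} (h : IntegralAt v W) :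
    0 ≤ -Real.log (fv v W.Δ) := by
  have h1 := (val_le_one v _).1 (integral_inv h).2
  have h2 := Real.log_nonpos ((fv v).nonneg _) h1
  linarith

theorem localDisc_nonneg (v : Pr K) (W : WeierstrassCurve K) : 0 ≤ localDisc v W := by
  refine Real.sInf_nonneg ?_
  rintro r ⟨C, hC, rfl⟩
  exact neg_log_nonneg hC

theorem localDisc_le {v : Pr K} {W : WeierstrassCurve K}
    {C : WeierstrassCurve.VariableChange K} (h : IntegralAt v (C • W)) :
    localDisc v W ≤ -Real.log (fv v (C • W).Δ) := by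
  refine csInf_le ⟨0, ?_⟩ ⟨C, h, rfl⟩
  rintro r ⟨C, hC, rfl⟩
  exact neg_log_nonneg hC

theorem localDisc_good {v : Pr K} {W : WeierstrassCurve K} (h : GoodAt v W) :
    localDisc v W = 0 := by
  obtain ⟨C, h1, h2⟩ := h
  refine le_antisymm ?_ (localDisc_nonneg v W)
  have h3 := localDisc_le h1
  rwa [(val_eq_one v _).1 h2, Real.log_one, neg_zero] at h3

theorem localDisc_semi {v : Pr K} {W : WeierstrassCurve K} [W.IsElliptic]
    (h : SemistableAt v W) : localDisc v W ≤ Real.posLog (fv v W.j) := by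
  obtain ⟨C, h1, h2⟩ := h
  have h3 := localDisc_le h1
  rcases h2 with h2 | h2
  · rw [(val_eq_one v _).1 h2, Real.log_one, neg_zero] at h3
    exact h3.trans (Real.posLog_nonneg)
  · have h4 := j_mul (C • W)
    rw [WeierstrassCurve.variableChange_j] at h4
    have h5 := congrArg (fv v) h4
    rw [map_mul, map_pow, (val_eq_one v _).1 h2, one_pow] at h5
    have h6 : fv v (C • W).Δ = (fv v W.j)⁻¹ := by
      rw [eq_comm, inv_eq_iff_eq_inv, ← one_div]
      have h0 : fv v (C • W).Δ ≠ 0 := by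
        intro h0
        rw [h0, mul_zero] at h5
        exact zero_ne_one h5
      field_simp
      exact h5
    rw [h6, Real.log_inv, neg_neg] at h3
    exact h3.trans (le_max_right _ _)

/-- the constant for the primes above 2 and 3 -/
noncomputable def cst (v : Pr K) : ℝ :=
  -(3 * Real.log (fv v (48 : K))) - 2 * Real.log (fv v (864 : K))

theorem fv_nat_le (v : Pr K) (n : ℕ) [n.AtLeastTwo] : fv v (OfNat.ofNat n : K) ≤ 1 := by
  have := fv_natCast_le v (OfNat.ofNat n)
  rwa [Nat.cast_ofNat] at this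

theorem log48 (v : Pr K) : Real.log (fv v (48 : K)) ≤ 0 :=
  Real.log_nonpos ((fv v).nonneg _) (fv_nat_le v 48)

theorem log864 (v : Pr K) : Real.log (fv v (864 : K)) ≤ 0 :=
  Real.log_nonpos ((fv v).nonneg _) (fv_nat_le v 864)

theorem cst_nonneg (v : Pr K) : 0 ≤ cst v := by
  unfold cst
  linarith [log48 v, log864 v]

theorem core {v : Pr K} {W : WeierstrassCurve K} [W.IsElliptic] (h1 : W.a₁ = 0) (h2 : W.a₂ = 0)
    (h3 : W.a₃ = 0) (h : (Nv v ^ 12)⁻¹ < max (fv v W.a₄ ^ 3) (fv v W.a₆ ^ 2)) :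
    -Real.log (fv v W.Δ) ≤ Real.posLog (fv v W.j) + (12 * Real.log (Nv v) + cst v) := by
  have hN := Nv_pos v
  have hΔ : 0 < fv v W.Δ := (fv v).pos (Δ_ne W)
  have e4 : W.c₄ = -(48 * W.a₄) := by
    unfold WeierstrassCurve.c₄ WeierstrassCurve.b₂ WeierstrassCurve.b₄
    rw [h1, h2, h3]
    ring
  have e6 : W.c₆ = -(864 * W.a₆) := by
    unfold WeierstrassCurve.c₆ WeierstrassCurve.b₂ WeierstrassCurve.b₄ WeierstrassCurve.b₆
    rw [h1, h2, h3]
    ring
  have k1 := congrArg (fv v) (j_mul W)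
  have k2 := congrArg (fv v) (j_sub_mul W)
  rw [e4, map_mul, map_pow, AbsoluteValue.map_neg, map_mul, mul_pow] at k1
  rw [e6, map_mul, map_pow, AbsoluteValue.map_neg, map_mul, mul_pow] at k2
  have hJ : Real.posLog (fv v W.j) = Real.log (max 1 (fv v W.j)) :=
    Real.posLog_eq_log_max_one ((fv v).nonneg _)
  have hJ1 : 0 < max 1 (fv v W.j) := lt_max_of_lt_left one_pos
  have hj1 : fv v W.j ≤ max 1 (fv v W.j) := le_max_right _ _
  have hj2 : fv v (W.j - 1728) ≤ max 1 (fv v W.j) := by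
    have k := fv_na v W.j (-1728)
    rw [← sub_eq_add_neg, AbsoluteValue.map_neg] at k
    refine k.trans (max_le (le_max_right _ _) ((fv_nat_le v 1728).trans (le_max_left _ _)))
  have h48 : 0 < fv v (48 : K) := (fv v).pos (by norm_num)
  have h864 : 0 < fv v (864 : K) := (fv v).pos (by norm_num)
  have hl48 := log48 v
  have hl864 := log864 v
  have hlN : Real.log (Nv v ^ 12)⁻¹ = -(12 * Real.log (Nv v)) := by
    rw [Real.log_inv, Real.log_pow]
    norm_num
  rw [hJ]
  unfold cst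
  rcases lt_max_iff.1 h with h' | h'
  · have h5 : fv v (48 : K) ^ 3 * (Nv v ^ 12)⁻¹ ≤ max 1 (fv v W.j) * fv v W.Δ := by
      calc fv v (48 : K) ^ 3 * (Nv v ^ 12)⁻¹ ≤ fv v (48 : K) ^ 3 * fv v W.a₄ ^ 3 :=
            mul_le_mul_of_nonneg_left h'.le (by positivity)
        _ = fv v W.j * fv v W.Δ := k1.symm
        _ ≤ _ := mul_le_mul_of_nonneg_right hj1 hΔ.le
    have h6 := Real.log_le_log (by positivity) h5
    rw [Real.log_mul (by positivity) (by positivity), Real.log_mul hJ1.ne' hΔ.ne', hlN,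
      Real.log_pow] at h6
    push_cast at h6
    linarith
  · have h5 : fv v (864 : K) ^ 2 * (Nv v ^ 12)⁻¹ ≤ max 1 (fv v W.j) * fv v W.Δ := by
      calc fv v (864 : K) ^ 2 * (Nv v ^ 12)⁻¹ ≤ fv v (864 : K) ^ 2 * fv v W.a₆ ^ 2 :=
            mul_le_mul_of_nonneg_left h'.le (by positivity)
        _ = fv v (W.j - 1728) * fv v W.Δ := k2.symm
        _ ≤ _ := mul_le_mul_of_nonneg_right hj2 hΔ.le
    have h6 := Real.log_le_log (by positivity) h5
    rw [Real.log_mul (by positivity) (by positivity), Real.log_mul hJ1.ne' hΔ.ne', hlN,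
      Real.log_pow] at h6
    push_cast at h6
    linarith

theorem exists_unif (v : Pr K) : ∃ π : K, π ≠ 0 ∧ fv v π = (Nv v)⁻¹ := by
  obtain ⟨π, hπ⟩ := v.valuation_exists_uniformizer K
  have h := Pool.Agent.TH876.KR.gens_fv_exp v (x := π) 1 (by rw [hπ]; rfl)
  rw [pow_one] at h
  refine ⟨π, ?_, h⟩
  rintro rfl
  rw [map_zero, eq_comm, inv_eq_zero] at h
  exact (Nv_pos v).ne' h

theorem localDisc_gen (v : Pr K) (W : WeierstrassCurve K) [W.IsElliptic] :
    localDisc v W ≤ Real.posLog (fv v W.j) + (12 * Real.log (Nv v) + cst v) := by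
  have hN := Nv_pos v
  have hN2 := two_le_Nv v
  have i2 : Invertible (2 : K) := invertibleOfNonzero two_ne_zero
  have i3 : Invertible (3 : K) := invertibleOfNonzero three_ne_zero
  obtain ⟨C₀, hC₀⟩ := W.exists_variableChange_isShortNF
  have a1 : (C₀ • W).a₁ = 0 := (C₀ • W).a₁_of_isShortNF
  have a2 : (C₀ • W).a₂ = 0 := (C₀ • W).a₂_of_isShortNF
  have a3 : (C₀ • W).a₃ = 0 := (C₀ • W).a₃_of_isShortNF
  obtain ⟨A, hA⟩ : ∃ A, A = (C₀ • W).a₄ := ⟨_, rfl⟩
  obtain ⟨B, hB⟩ : ∃ B, B = (C₀ • W).a₆ := ⟨_, rfl⟩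
  have hAB : A ≠ 0 ∨ B ≠ 0 := by
    by_contra hcon
    push Not at hcon
    apply Δ_ne (C₀ • W)
    unfold WeierstrassCurve.Δ WeierstrassCurve.b₂ WeierstrassCurve.b₄ WeierstrassCurve.b₆
      WeierstrassCurve.b₈
    rw [a1, a2, a3, ← hA, ← hB, hcon.1, hcon.2]
    ring
  obtain ⟨m, hm⟩ : ∃ m : ℝ, m = max (fv v A ^ 3) (fv v B ^ 2) := ⟨_, rfl⟩
  have hm0 : 0 < m := by
    rw [hm]
    rcases hAB with h | h
    · exact lt_max_of_lt_left (pow_pos ((fv v).pos h) 3)
    · exact lt_max_of_lt_right (pow_pos ((fv v).pos h) 2)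
  have hy : 1 < Nv v ^ 12 := one_lt_pow₀ (by linarith) (by norm_num)
  obtain ⟨n, hn1, hn2⟩ := exists_mem_Ioc_zpow hm0 hy
  obtain ⟨π, hπ0, hπ⟩ := exists_unif v
  obtain ⟨u, hu⟩ : ∃ u : Kˣ, u = (Units.mk0 π hπ0) ^ (-(n + 1)) := ⟨_, rfl⟩
  obtain ⟨w, hw⟩ : ∃ w : ℝ, w = fv v ((u⁻¹ : Kˣ) : K) := ⟨_, rfl⟩
  have hw' : w = (Nv v)⁻¹ ^ (n + 1) := by
    rw [hw, hu, ← zpow_neg, neg_neg, Units.val_zpow_eq_zpow_val, Units.val_mk0, map_zpow₀, hπ]
  have hw0 : 0 < w := by
    rw [hw']
    positivity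
  have hw12 : w ^ 12 = ((Nv v ^ 12) ^ (n + 1))⁻¹ := by
    rw [hw', inv_zpow, inv_pow, ← zpow_natCast, ← zpow_natCast, ← zpow_mul, ← zpow_mul, mul_comm]
  have hmw : w ^ 12 * m ≤ 1 := by
    rw [hw12, inv_mul_le_iff₀ (by positivity), mul_one]
    exact hn2
  have hmw2 : (Nv v ^ 12)⁻¹ < w ^ 12 * m := by
    rw [hw12, ← div_eq_inv_mul, lt_div_iff₀ (by positivity), zpow_add_one₀ (by positivity),
      mul_comm, mul_assoc, mul_inv_cancel₀ (by positivity), mul_one]
    exact hn1
  obtain ⟨C, hC⟩ : ∃ C, C = (⟨u, 0, 0, 0⟩ : WeierstrassCurve.VariableChange K) * C₀ := ⟨_, rfl⟩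
  have b1 : (C • W).a₁ = 0 := by
    rw [hC, mul_smul, WeierstrassCurve.variableChange_a₁, a1]
    simp
  have b2 : (C • W).a₂ = 0 := by
    rw [hC, mul_smul, WeierstrassCurve.variableChange_a₂, a1, a2]
    simp
  have b3 : (C • W).a₃ = 0 := by
    rw [hC, mul_smul, WeierstrassCurve.variableChange_a₃, a1, a3]
    simp
  have b4 : (C • W).a₄ = ((u⁻¹ : Kˣ) : K) ^ 4 * A := by
    rw [hC, mul_smul, WeierstrassCurve.variableChange_a₄, a1, a2, a3, ← hA]
    simp
  have b6 : (C • W).a₆ = ((u⁻¹ : Kˣ) : K) ^ 6 * B := by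
    rw [hC, mul_smul, WeierstrassCurve.variableChange_a₆, a1, a2, a3, ← hB]
    simp
  have f4 : fv v (C • W).a₄ ^ 3 = w ^ 12 * fv v A ^ 3 := by
    rw [b4, map_mul, map_pow, ← hw]
    ring
  have f6 : fv v (C • W).a₆ ^ 2 = w ^ 12 * fv v B ^ 2 := by
    rw [b6, map_mul, map_pow, ← hw]
    ring
  have hw12' : 0 ≤ w ^ 12 := by positivity
  have g4 : fv v (C • W).a₄ ≤ 1 := by
    have : fv v (C • W).a₄ ^ 3 ≤ 1 := by
      rw [f4]
      refine le_trans (mul_le_mul_of_nonneg_left ?_ hw12') hmw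
      rw [hm]
      exact le_max_left _ _
    exact (pow_le_one_iff_of_nonneg ((fv v).nonneg _) (by norm_num)).1 this
  have g6 : fv v (C • W).a₆ ≤ 1 := by
    have : fv v (C • W).a₆ ^ 2 ≤ 1 := by
      rw [f6]
      refine le_trans (mul_le_mul_of_nonneg_left ?_ hw12') hmw
      rw [hm]
      exact le_max_right _ _
    exact (pow_le_one_iff_of_nonneg ((fv v).nonneg _) (by norm_num)).1 this
  have hint : IntegralAt v (C • W) := by
    refine ⟨?_, ?_, ?_, (val_le_one v _).2 g4, (val_le_one v _).2 g6⟩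
    · rw [b1, map_zero]
      exact zero_le_one
    · rw [b2, map_zero]
      exact zero_le_one
    · rw [b3, map_zero]
      exact zero_le_one
  have h1 := core (v := v) b1 b2 b3 (by
    rw [f4, f6, ← mul_max_of_nonneg _ _ hw12', ← hm]
    exact hmw2)
  rw [WeierstrassCurve.variableChange_j] at h1
  exact (localDisc_le hint).trans h1

theorem bad_finite (W : WeierstrassCurve K) [W.IsElliptic] : {v : Pr K | ¬ GoodAt v W}.Finite := by
  refine ((((((int_finite W.a₁).union (int_finite W.a₂)).union (int_finite W.a₃)).union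
    (int_finite W.a₄)).union (int_finite W.a₆)).union (unit_finite (Δ_ne W))).subset fun v hv => ?_
  by_contra hcon
  simp only [Set.mem_union, not_or] at hcon
  obtain ⟨⟨⟨⟨⟨h1, h2⟩, h3⟩, h4⟩, h6⟩, hΔ⟩ := hcon
  apply hv
  refine ⟨1, ?_, ?_⟩
  · rw [one_smul]
    refine ⟨?_, ?_, ?_, ?_, ?_⟩
    · by_contra h
      exact h1 h
    · by_contra h
      exact h2 h
    · by_contra h
      exact h3 h
    · by_contra h
      exact h4 h
    · by_contra h
      exact h6 h
  · rw [one_smul]
    by_contra h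
    exact hΔ h

theorem posLog_finite (x : K) :
    (Function.support fun v : Pr K => Real.posLog (fv v x)).Finite := by
  refine (int_finite x).subset fun v hv h => hv ?_
  show Real.posLog (fv v x) = 0
  rw [Real.posLog_eq_zero_iff, abs_of_nonneg ((fv v).nonneg _)]
  exact (val_le_one v x).1 h

theorem cst_finite : (Function.support fun v : Pr K => cst v).Finite := by
  have h1 : (48 : K) ≠ 0 := by norm_num
  have h2 : (864 : K) ≠ 0 := by norm_num
  refine ((log_fv_support_finite h1).union (log_fv_support_finite h2)).subset fun v hv => ?_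
  by_contra hcon
  rw [Set.mem_union, not_or, Function.notMem_support, Function.notMem_support] at hcon
  apply hv
  show cst v = 0
  unfold cst
  rw [hcon.1, hcon.2]
  ring

theorem sum_posLog_le (x : K) (B : Finset (Pr K)) :
    ∑ v ∈ B, Real.posLog (fv v x) ≤ Height.logHeight₁ x := by
  classical
  rw [NumberField.logHeight₁_eq]
  have h1 : ∑ᶠ v : FinitePlace K, Real.posLog (v x) = ∑ᶠ v : Pr K, Real.posLog (fv v x) := by
    rw [← finsum_comp_equiv (FinitePlace.equivHeightOneSpectrum (K := K)).symm]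
    rfl
  have h2 : 0 ≤ ∑ w : InfinitePlace K, (w.mult : ℝ) * Real.posLog (w x) :=
    Finset.sum_nonneg fun w _ => mul_nonneg (Nat.cast_nonneg _) Real.posLog_nonneg
  have h3 : ∑ᶠ v : Pr K, Real.posLog (fv v x) =
      ∑ v ∈ B ∪ (posLog_finite x).toFinset, Real.posLog (fv v x) := by
    refine finsum_eq_sum_of_support_subset _ ?_
    rw [Finset.coe_union, Set.Finite.coe_toFinset]
    exact Set.subset_union_right
  rw [h1, h3]
  have h4 : ∑ v ∈ B, Real.posLog (fv v x) ≤
      ∑ v ∈ B ∪ (posLog_finite x).toFinset, Real.posLog (fv v x) :=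
    Finset.sum_le_sum_of_subset_of_nonneg subset_union_left fun _ _ _ => Real.posLog_nonneg
  linarith

/-- **The minimal discriminant is bounded in terms of the height of the `j`-invariant.** -/
theorem logDisc_le (K : Type) [Field K] [NumberField K] : ∃ C₀ : ℝ, ∀ (W : WeierstrassCurve K)
    [W.IsElliptic], logDisc W ≤ Height.logHeight₁ W.j + 12 * logAdditive W + C₀ := by
  classical
  refine ⟨∑ᶠ v : Pr K, cst v, ?_⟩
  intro W _
  have hbad := bad_finite W
  have hadd : {v : Pr K | ¬ SemistableAt v W}.Finite :=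
    hbad.subset fun v hv h => hv h.semistable
  have hc := cst_finite (K := K)
  have e1 : logDisc W = ∑ v ∈ hbad.toFinset, localDisc v W := by
    refine finsum_eq_sum_of_support_subset _ ?_
    rw [Set.Finite.coe_toFinset]
    intro v hv h
    exact hv (localDisc_good h)
  have e2 : logAdditive W = ∑ v ∈ hadd.toFinset, Real.log (Nv v) := by
    unfold logAdditive
    rw [finsum_mem_eq_finite_toFinset_sum _ hadd]
    rfl
  have e3 : ∑ᶠ v : Pr K, cst v = ∑ v ∈ hbad.toFinset ∪ hc.toFinset, cst v := by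
    refine finsum_eq_sum_of_support_subset _ ?_
    rw [Finset.coe_union, Set.Finite.coe_toFinset hc]
    exact Set.subset_union_right
  have h1 : ∀ v : Pr K, localDisc v W ≤ Real.posLog (fv v W.j) +
      (if v ∈ hadd.toFinset then 12 * Real.log (Nv v) else 0) + cst v := by
    intro v
    have hcv := cst_nonneg v
    by_cases h : SemistableAt v W
    · rw [if_neg (by rw [Set.Finite.mem_toFinset]; exact fun h' => h' h)]
      linarith [localDisc_semi h]
    · rw [if_pos (by rw [Set.Finite.mem_toFinset]; exact h)]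
      linarith [localDisc_gen v W]
  have h2 : ∑ v ∈ hbad.toFinset, localDisc v W ≤ ∑ v ∈ hbad.toFinset, Real.posLog (fv v W.j) +
      ∑ v ∈ hbad.toFinset, (if v ∈ hadd.toFinset then 12 * Real.log (Nv v) else 0) +
      ∑ v ∈ hbad.toFinset, cst v := by
    rw [← Finset.sum_add_distrib, ← Finset.sum_add_distrib]
    exact Finset.sum_le_sum fun v _ => h1 v
  have h3 : ∑ v ∈ hbad.toFinset, (if v ∈ hadd.toFinset then 12 * Real.log (Nv v) else 0) ≤
      12 * ∑ v ∈ hadd.toFinset, Real.log (Nv v) := by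
    rw [← Finset.sum_filter, Finset.mul_sum]
    refine Finset.sum_le_sum_of_subset_of_nonneg (fun v hv => (Finset.mem_filter.1 hv).2)
      fun v _ _ => ?_
    have := Real.log_nonneg (one_le_Nv v)
    positivity
  have h4 : ∑ v ∈ hbad.toFinset, cst v ≤ ∑ v ∈ hbad.toFinset ∪ hc.toFinset, cst v :=
    Finset.sum_le_sum_of_subset_of_nonneg subset_union_left fun v _ _ => cst_nonneg v
  have h5 := sum_posLog_le W.j hbad.toFinset
  rw [e1, e2, e3]
  linarith

theorem poles_le (W : WeierstrassCurve K) [W.IsElliptic] :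
    ∑ᶠ (v : Pr K) (_ : v ∈ {v : Pr K | 1 < v.valuation K W.j}), Real.log (Nv v) ≤ logBad W := by
  classical
  have hbad := bad_finite W
  have hp := pole_finite W.j
  have e1 : logBad W = ∑ v ∈ hbad.toFinset, Real.log (Nv v) := by
    unfold logBad
    rw [finsum_mem_eq_finite_toFinset_sum _ hbad]
    rfl
  rw [e1, finsum_mem_eq_finite_toFinset_sum _ hp]
  refine Finset.sum_le_sum_of_subset_of_nonneg ?_ fun v _ _ => Real.log_nonneg (one_le_Nv v)
  intro v hv
  rw [Set.Finite.mem_toFinset] at hv ⊢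
  intro h
  exact absurd (good_j h) (not_le.2 hv)

end Pool.Agent.X61.RI
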