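import Pool.Agent.X61.RI.Three

/-! The arguments at which a rational function with rational poles is integral outside the primes
of a random set. -/

set_option autoImplicit false

namespace Pool.Agent.X61.RI

open NumberField IsDedekindDomain Finset MeasureTheory ProbabilityTheory Polynomial
open Pool.Agent.H691R3 Pool.Agent.TH876.Loc Pool.Agent.Y911.RR

variable {K : Type} [Field K] [NumberField K]

/-- `o` is a pole of the rational function `P / Q` (in lowest terms); `none` stands for `∞` -/
def IsPole {K : Type} [Field K] (P Q : K[X]) : Option K → Prop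
  | some a => Q.eval a = 0
  | none => Q.natDegree < P.natDegree

/-- the point of the projective line -/
def opp : Option K → Projectivization K (Fin 2 → K)
  | some a => pt a
  | none => infty K

theorem opp_inj : Function.Injective (opp (K := K)) := by
  intro a b h
  rcases a with _ | a <;> rcases b with _ | b
  · rfl
  · exact absurd h.symm (pt_ne_infty b)
  · exact absurd h (pt_ne_infty a)
  · rw [pt_inj h]

/-- the coefficients are integral and the leading coefficient is a unit -/
def GoodP (v : Pr K) (P : K[X]) : Prop :=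
  (∀ i, v.valuation K (P.coeff i) ≤ 1) ∧ v.valuation K P.leadingCoeff = 1

theorem unit_finite {x : K} (hx : x ≠ 0) : {v : Pr K | ¬ v.valuation K x = 1}.Finite := by
  refine (fv_support_finite hx).subset fun v hv h => hv ?_
  rw [val_eq_one]
  exact h

theorem int_finite (x : K) : {v : Pr K | ¬ v.valuation K x ≤ 1}.Finite := by
  by_cases hx : x = 0
  · refine Set.finite_empty.subset fun v hv => ?_
    exfalso
    apply hv
    rw [hx, map_zero]
    exact zero_le_one
  · exact (unit_finite hx).subset fun v hv h => hv h.le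

theorem goodP_finite {P : K[X]} (hP : P ≠ 0) : {v : Pr K | ¬ GoodP v P}.Finite := by
  have h1 : (⋃ i ∈ Finset.range (P.natDegree + 1),
      {v : Pr K | ¬ v.valuation K (P.coeff i) ≤ 1}).Finite :=
    Set.Finite.biUnion (Finset.finite_toSet _) fun i _ => int_finite _
  refine (h1.union (unit_finite (leadingCoeff_ne_zero.2 hP))).subset fun v hv => ?_
  by_contra hcon
  rw [Set.mem_union, not_or] at hcon
  apply hv
  refine ⟨fun i => ?_, ?_⟩
  · by_cases hi : i ∈ Finset.range (P.natDegree + 1)
    · by_contra h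
      exact hcon.1 (Set.mem_iUnion₂.2 ⟨i, hi, h⟩)
    · rw [coeff_eq_zero_of_natDegree_lt, map_zero]
      · exact zero_le_one
      · rw [Finset.mem_range] at hi
        omega
  · by_contra h
    exact hcon.2 h

theorem pow_sub_le {v : Pr K} {t a : K} (ht : v.valuation K t ≤ 1) (ha : v.valuation K a ≤ 1)
    (i : ℕ) : v.valuation K (t ^ i - a ^ i) ≤ v.valuation K (t - a) := by
  induction i with
  | zero => rw [pow_zero, pow_zero, sub_self, map_zero]; exact (zero_le)
  | succ i ih =>
    have e : t ^ (i + 1) - a ^ (i + 1) = t * (t ^ i - a ^ i) + a ^ i * (t - a) := by ring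
    rw [e]
    refine Valuation.map_add_le _ ?_ ?_
    · rw [map_mul]
      exact mul_le_of_le_one_of_le ht ih
    · rw [map_mul, map_pow]
      exact mul_le_of_le_one_of_le (pow_le_one₀ (zero_le) ha) le_rfl

theorem sub_eval {v : Pr K} {P : K[X]} (hP : GoodP v P) {t a : K} (ht : v.valuation K t ≤ 1)
    (ha : v.valuation K a ≤ 1) :
    v.valuation K (P.eval t - P.eval a) ≤ v.valuation K (t - a) := by
  rw [eval_eq_sum_range, eval_eq_sum_range, ← Finset.sum_sub_distrib]
  refine Valuation.map_sum_le _ fun i _ => ?_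
  rw [← mul_sub, map_mul]
  exact mul_le_of_le_one_of_le (hP.1 i) (pow_sub_le ht ha i)

theorem eval_large {v : Pr K} {P : K[X]} (hP : GoodP v P) {t : K} (ht : 1 < v.valuation K t) :
    v.valuation K (P.eval t) = v.valuation K t ^ P.natDegree := by
  have h0 : v.valuation K t ≠ 0 := (lt_trans zero_lt_one ht).ne'
  rw [eval_eq_sum_range, Finset.sum_range_succ]
  have h1 : v.valuation K (P.coeff P.natDegree * t ^ P.natDegree) =
      v.valuation K t ^ P.natDegree := by
    rw [map_mul, map_pow]
    have : v.valuation K (P.coeff P.natDegree) = 1 := hP.2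
    rw [this, one_mul]
  rw [← h1]
  refine Valuation.map_add_eq_of_lt_right _ ?_
  rw [h1]
  refine Valuation.map_sum_lt _ (pow_ne_zero _ h0) fun i hi => ?_
  rw [map_mul, map_pow]
  refine lt_of_le_of_lt (mul_le_of_le_one_of_le (hP.1 i) le_rfl) ?_
  exact pow_lt_pow_right₀ ht (Finset.mem_range.1 hi)

theorem root_small {v : Pr K} {Q : K[X]} (hQ : GoodP v Q) (hs : Q.Splits) {t : K}
    (h : v.valuation K (Q.eval t) < 1) : ∃ a, Q.eval a = 0 ∧ v.valuation K (t - a) < 1 := by
  have hQ0 : Q ≠ 0 := by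
    rintro rfl
    have := hQ.2
    rw [leadingCoeff_zero, map_zero] at this
    exact zero_ne_one this
  by_contra hcon
  push Not at hcon
  have h1 : ∀ s : Multiset K, (∀ a ∈ s, Q.eval a = 0) →
      1 ≤ v.valuation K ((s.map fun a => t - a).prod) := by
    intro s
    induction s using Multiset.induction_on with
    | empty => intro _; simp
    | cons a s ih =>
      intro hs
      rw [Multiset.map_cons, Multiset.prod_cons, map_mul]
      exact one_le_mul (hcon a (hs a (Multiset.mem_cons_self a s)))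
        (ih fun b hb => hs b (Multiset.mem_cons_of_mem hb))
  have h2 := h1 Q.roots (fun a ha => (mem_roots hQ0).1 ha)
  have h3 : Q.eval t = Q.leadingCoeff * ((Q.roots.map fun a => t - a).prod) := by
    conv_lhs => rw [hs.eq_prod_roots]
    rw [eval_mul, eval_C, eval_multiset_prod, Multiset.map_map]
    simp
  rw [h3, map_mul, hQ.2, one_mul] at h
  exact absurd h2 (not_le.2 h)

theorem not_meet {v : Pr K} {P Q : K[X]} (hP : GoodP v P) (hQ : GoodP v Q) {o : Option K}
    (ho : IsPole P Q o)
    (hoa : ∀ a, o = some a → v.valuation K a ≤ 1 ∧ v.valuation K (P.eval a) = 1) {t : K}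
    (ht : Q.eval t ≠ 0) (h : v.valuation K (P.eval t / Q.eval t) ≤ 1) :
    ¬ Meet v (pt t) (opp o) := by
  have hQt : 0 < v.valuation K (Q.eval t) := by
    rw [Valuation.pos_iff]
    exact ht
  rw [map_div₀, div_le_one₀ hQt] at h
  intro hm
  rcases o with _ | a
  · have hm' : Meet v (pt t) (infty K) := hm
    rw [meet_pt_infty] at hm'
    have h1 : 1 < v.valuation K t := by
      by_contra hcon
      exact absurd ((val_le_one v t).1 (not_lt.1 hcon)) (not_le.2 hm')
    rw [eval_large hP h1, eval_large hQ h1] at h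
    exact absurd (pow_lt_pow_right₀ h1 ho) (not_lt.2 h)
  · obtain ⟨h1, h2⟩ := hoa a rfl
    have hm' : Meet v (pt t) (pt a) := hm
    rw [meet_pt_pt v t a ((val_le_one v a).1 h1), lt_max_iff] at hm'
    have h3 : fv v (t - a) < 1 := by
      rcases hm' with h3 | h3
      · by_contra hcon
        have h4 : 1 < fv v t := lt_of_le_of_lt (not_lt.1 hcon) h3
        have h5 : fv v t ≤ max (fv v (t - a)) (fv v a) := by
          have := fv_na v (t - a) a
          rwa [sub_add_cancel] at this
        rcases le_max_iff.1 h5 with h6 | h6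
        · exact absurd h3 (not_lt.2 h6)
        · exact absurd (h6.trans ((val_le_one v a).1 h1)) (not_le.2 h4)
      · exact h3
    have h4 : v.valuation K (t - a) < 1 := (val_lt_one v _).2 h3
    have h5 : v.valuation K t ≤ 1 := by
      have e : t = (t - a) + a := by ring
      rw [e]
      exact Valuation.map_add_le _ h4.le h1
    have h6 := lt_of_le_of_lt (sub_eval hP h5 h1) h4
    have h7 := lt_of_le_of_lt (sub_eval hQ h5 h1) h4
    have hQa : Q.eval a = 0 := ho
    rw [hQa, sub_zero] at h7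
    have h8 : v.valuation K (P.eval t) = 1 := by
      have e : P.eval t = (P.eval t - P.eval a) + P.eval a := by ring
      rw [e, Valuation.map_add_eq_of_lt_right _ (by rw [h2]; exact h6), h2]
    rw [h8] at h
    exact absurd h7 (not_lt.2 h)

theorem meet_of {v : Pr K} {P Q : K[X]} (hP : GoodP v P) (hQ : GoodP v Q) (hs : Q.Splits) {t : K}
    (ht : Q.eval t ≠ 0) (h : 1 < v.valuation K (P.eval t / Q.eval t)) :
    ∃ o, IsPole P Q o ∧ Meet v (pt t) (opp o) := by
  have hQt : 0 < v.valuation K (Q.eval t) := by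
    rw [Valuation.pos_iff]
    exact ht
  rw [map_div₀, one_lt_div₀ hQt] at h
  by_cases h1 : 1 < v.valuation K t
  · refine ⟨none, ?_, ?_⟩
    · rw [eval_large hP h1, eval_large hQ h1] at h
      exact (pow_lt_pow_iff_right₀ h1).1 h
    · show Meet v (pt t) (infty K)
      rw [meet_pt_infty]
      by_contra hcon
      exact absurd ((val_le_one v t).2 (not_lt.1 hcon)) (not_le.2 h1)
  · have h1' : v.valuation K t ≤ 1 := not_lt.1 h1
    have h2 : v.valuation K (P.eval t) ≤ 1 := by
      rw [eval_eq_sum_range]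
      refine Valuation.map_sum_le _ fun i _ => ?_
      rw [map_mul, map_pow]
      exact mul_le_of_le_one_of_le (hP.1 i) (pow_le_one₀ (zero_le) h1')
    obtain ⟨a, ha, ha'⟩ := root_small hQ hs (lt_of_lt_of_le h h2)
    refine ⟨some a, ha, ?_⟩
    show Meet v (pt t) (pt a)
    have h3 : v.valuation K a ≤ 1 := by
      have e : a = t - (t - a) := by ring
      rw [e]
      exact (Valuation.map_sub _ _ _).trans (max_le h1' ha'.le)
    rw [meet_pt_pt v t a ((val_le_one v a).1 h3), lt_max_iff]
    exact Or.inr ((val_lt_one v _).1 ha')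

/-- the primes which are good for the function and its poles -/
def GoodF {q : ℕ} (v : Pr K) (P Q : K[X]) (c : Fin q → Option K) : Prop :=
  GoodP v P ∧ GoodP v Q ∧
    ∀ l a, c l = some a → v.valuation K a ≤ 1 ∧ v.valuation K (P.eval a) = 1

theorem goodF_finite {q : ℕ} {P Q : K[X]} (hP : P ≠ 0) (hQ : Q ≠ 0) (hPQ : IsCoprime P Q)
    {c : Fin q → Option K} (hc : ∀ l, IsPole P Q (c l)) :
    {v : Pr K | ¬ GoodF v P Q c}.Finite := by
  have h1 : (⋃ l : Fin q, {v : Pr K | ¬ ∀ a, c l = some a →
      v.valuation K a ≤ 1 ∧ v.valuation K (P.eval a) = 1}).Finite := by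
    refine Set.finite_iUnion fun l => ?_
    rcases hl : c l with _ | b
    · refine Set.finite_empty.subset fun v hv => ?_
      exfalso
      apply hv
      intro a ha
      exact absurd ha (by simp)
    · have hb : Q.eval b = 0 := by
        have := hc l
        rw [hl] at this
        exact this
      have hPb : P.eval b ≠ 0 := by
        intro h
        obtain ⟨u, w, huw⟩ := hPQ
        have := congrArg (Polynomial.eval b) huw
        rw [eval_add, eval_mul, eval_mul, h, hb, mul_zero, mul_zero, add_zero, eval_one] at this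
        exact zero_ne_one this
      refine ((int_finite b).union (unit_finite hPb)).subset fun v hv => ?_
      by_contra hcon
      rw [Set.mem_union, not_or] at hcon
      apply hv
      intro a ha
      rw [Option.some.injEq] at ha
      subst ha
      refine ⟨?_, ?_⟩
      · by_contra h
        exact hcon.1 h
      · by_contra h
        exact hcon.2 h
  refine (((goodP_finite hP).union (goodP_finite hQ)).union h1).subset fun v hv => ?_
  by_contra hcon
  rw [Set.mem_union, Set.mem_union, not_or, not_or] at hcon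
  apply hv
  refine ⟨?_, ?_, fun l => ?_⟩
  · by_contra h
    exact hcon.1.1 h
  · by_contra h
    exact hcon.1.2 h
  · by_contra h
    exact hcon.2 (Set.mem_iUnion.2 ⟨l, h⟩)

variable {q : ℕ} {P Q : K[X]} {c : Fin q → Option K}

/-- the point with the parameter `t` -/
def fpt (hc : ∀ l, IsPole P Q (c l)) (t : {t : K // Q.eval t ≠ 0}) : Off (fun l => opp (c l)) :=
  ⟨pt t.1, fun l => by
    have hl := hc l
    show pt t.1 ≠ opp (c l)
    rcases hcl : c l with _ | a
    · exact pt_ne_infty _
    · intro h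
      have h' : t.1 = a := pt_inj h
      apply t.2
      rw [h']
      rw [hcl] at hl
      exact hl⟩

theorem fpt_injective (hc : ∀ l, IsPole P Q (c l)) : Function.Injective (fpt hc) := fun _ _ h =>
  Subtype.ext (pt_inj (congrArg Subtype.val h))

theorem mem_fpt (hc : ∀ l, IsPole P Q (c l)) (t : {t : K // Q.eval t ≠ 0}) (v : Pr K) :
    v ∈ spA (fun l => opp (c l)) (fpt hc t) ↔ ∃ l, Meet v (pt t.1) (opp (c l)) := mem_spA

theorem opc_inj (hi : Function.Injective c) : Function.Injective fun l => opp (c l) :=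
  fun _ _ h => hi (opp_inj h)

variable {Ω : Type*} [MeasurableSpace Ω] {μ : Measure Ω} {E : Pr K → Set Ω} {τ : ℝ}

theorem fam_finite (hP : P ≠ 0) (hQ : Q ≠ 0) (hPQ : IsCoprime P Q) (hq : 3 ≤ q)
    (hinj : Function.Injective c) (hc : ∀ l, IsPole P Q (c l)) (S₀ : Set (Pr K)) (hS : S₀.Finite)
    (hτ : 2 / (q : ℝ) < τ) (hi : iIndepSet E μ)
    (hE : ∀ v, μ (E v) ≤ ENNReal.ofReal ((Nv v) ^ (-τ))) :
    ∀ᵐ ω ∂μ, {t : K | Q.eval t ≠ 0 ∧
      ∀ v, v ∉ S₀ → ω ∉ E v → v.valuation K (P.eval t / Q.eval t) ≤ 1}.Finite := by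
  have hB := goodF_finite hP hQ hPQ hc
  have h := line_finite hq (fun l => opp (c l)) (opc_inj hinj) (hS.union hB).toFinset hτ hi hE
  filter_upwards [h] with ω hω
  have h2 := hω.preimage (f := fpt hc) (fpt_injective hc).injOn
  refine (h2.image Subtype.val).subset ?_
  rintro t ⟨ht, hu⟩
  refine ⟨⟨t, ht⟩, ?_, rfl⟩
  intro v hv
  rw [mem_fpt] at hv
  obtain ⟨l, hl⟩ := hv
  rw [Set.Finite.mem_toFinset]
  by_contra hcon
  rw [not_or, Set.mem_union, not_or] at hcon
  have hg : GoodF v P Q c := by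
    by_contra h'
    exact hcon.1.2 h'
  exact not_meet hg.1 hg.2.1 (hc l) (fun a ha => hg.2.2 l a ha) ht (hu v hcon.1.1 hcon.2) hl

theorem fam_small (hP : P ≠ 0) (hQ : Q ≠ 0) (hPQ : IsCoprime P Q) (hq : 3 ≤ q)
    (hinj : Function.Injective c) (hc : ∀ l, IsPole P Q (c l)) (hs : Q.Splits)
    (hall : ∀ o, IsPole P Q o → ∃ l, c l = o) (S₀ : Set (Pr K)) (hS : S₀.Finite) {δ : ℝ}
    (hδ : 0 < δ) (hδτ : δ < τ - 2 / (q : ℝ)) : ∃ C : ℝ, 0 < C ∧
    ∀ {Ω : Type} [MeasurableSpace Ω] (μ : Measure Ω) (E : Pr K → Set Ω), iIndepSet E μ →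
      (∀ v, μ (E v) ≤ ENNReal.ofReal ((Nv v) ^ (-τ))) → ∀ R : ℝ, 0 < R →
      μ {ω | ∃ t : K, Q.eval t ≠ 0 ∧
        (∀ v, v ∉ S₀ → ¬ (R ≤ Nv v ∧ ω ∈ E v) → v.valuation K (P.eval t / Q.eval t) ≤ 1) ∧
        ∃ v, v ∉ S₀ ∧ 1 < v.valuation K (P.eval t / Q.eval t)} ≤
          ENNReal.ofReal (C * R ^ (-δ)) := by
  classical
  have hB := goodF_finite hP hQ hPQ hc
  obtain ⟨C, hC, h⟩ := line_small hq (fun l => opp (c l)) (opc_inj hinj)
    (hS.union hB).toFinset hδ hδτ
  obtain ⟨R₀, hR₀⟩ : ∃ R₀ : ℝ, R₀ = 1 + ∑ v ∈ hB.toFinset, Nv v := ⟨_, rfl⟩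
  have hR₀v : ∀ v : Pr K, ¬ GoodF v P Q c → Nv v < R₀ := by
    intro v hv
    have h1 : Nv v ≤ ∑ v ∈ hB.toFinset, Nv v :=
      Finset.single_le_sum (f := fun v => Nv v) (fun w _ => (Nv_pos w).le)
        ((Set.Finite.mem_toFinset hB).2 hv)
    rw [hR₀]
    linarith
  have hR₀0 : 0 < R₀ := by
    have h1 : 0 ≤ ∑ v ∈ hB.toFinset, Nv v := Finset.sum_nonneg fun w _ => (Nv_pos w).le
    rw [hR₀]
    linarith
  refine ⟨max C (R₀ ^ δ), lt_max_of_lt_left hC, ?_⟩
  intro Ω _ μ E hi hE R hR
  by_cases hRR : R ≤ R₀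
  · have h1 : μ Set.univ = 1 := by
      have := hi.meas_biInter ∅
      simpa using this
    refine (measure_mono (Set.subset_univ _)).trans ?_
    rw [h1, ENNReal.one_le_ofReal]
    have h2 : 1 ≤ R₀ ^ δ * R ^ (-δ) := by
      rw [Real.rpow_neg hR.le, ← div_eq_mul_inv, one_le_div (Real.rpow_pos_of_pos hR δ)]
      exact Real.rpow_le_rpow hR.le hRR hδ.le
    exact h2.trans (mul_le_mul_of_nonneg_right (le_max_right _ _) (Real.rpow_nonneg hR.le _))
  · have hRR' : R₀ < R := not_le.1 hRR
    refine ((measure_mono ?_).trans (h μ E hi hE R hR)).trans (ENNReal.ofReal_le_ofReal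
      (mul_le_mul_of_nonneg_right (le_max_left _ _) (Real.rpow_nonneg hR.le _)))
    rintro ω ⟨t, ht, hu, v, hv, hv'⟩
    have hmem : ∀ w : Pr K, w ∉ (hS.union hB).toFinset → w ∉ S₀ ∧ GoodF w P Q c := by
      intro w hw
      rw [Set.Finite.mem_toFinset, Set.mem_union, not_or] at hw
      refine ⟨hw.1, ?_⟩
      by_contra h'
      exact hw.2 h'
    have hRv : R ≤ Nv v ∧ ω ∈ E v := by
      by_contra hcon
      exact absurd (hu v hv hcon) (not_le.2 hv')
    have hgv : GoodF v P Q c := by
      by_contra h'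
      linarith [hR₀v v h', hRv.1]
    refine ⟨fpt hc ⟨t, ht⟩, ?_, v, ?_, ?_⟩
    · intro w hw
      rw [mem_fpt] at hw
      obtain ⟨l, hl⟩ := hw
      by_contra hcon
      rw [not_or] at hcon
      obtain ⟨h1, h2⟩ := hmem w hcon.1
      exact not_meet h2.1 h2.2.1 (hc l) (fun a ha => h2.2.2 l a ha) ht (hu w h1 hcon.2) hl
    · rw [mem_fpt]
      obtain ⟨o, ho, hm⟩ := meet_of hgv.1 hgv.2.1 hs ht hv'
      obtain ⟨l, hl⟩ := hall o ho
      exact ⟨l, by rw [hl]; exact hm⟩
    · rw [Set.Finite.mem_toFinset, Set.mem_union, not_or]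
      exact ⟨hv, fun h' => h' hgv⟩

end Pool.Agent.X61.RI
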