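import Pool.Agent.X61.RI.Part
import Pool.Agent.X61.RI.Curve

/-! Solutions of the Fermat equations of all exponents with a large part of the primes in a random
set. -/

set_option autoImplicit false

namespace Pool.Agent.X61.RI

open NumberField IsDedekindDomain Finset MeasureTheory ProbabilityTheory
open Pool.Agent.H691R3 Pool.Agent.TH876.Loc Pool.Agent.Y911.RR
open Pool.Agent.Y911.US (ht ht_nonneg ht_mk)
open Pool.Agent.TH876.KR (side rr side_sum aw_nonneg rr_sum' df_inr log_Nv_pos' hgt_le_logHeight)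

variable {K : Type} [Field K] [NumberField K]

theorem pow_L {n : ℕ} {x y : K} (hx : x ≠ 0) (hy : y ≠ 0) (h : x ^ n + y ^ n + 1 = 0)
    (i : Fin 3) : ∃ z : K, z ≠ 0 ∧ L i (x ^ n) = z ^ n := by
  fin_cases i
  · exact ⟨x, hx, rfl⟩
  · exact ⟨1, one_ne_zero, (one_pow n).symm⟩
  · refine ⟨y, hy, ?_⟩
    show -(x ^ n) - 1 = y ^ n
    linear_combination -h

theorem pow_Pt {n : ℕ} {x y : K} (hx : x ≠ 0) (hy : y ≠ 0) (h : x ^ n + y ^ n + 1 = 0) :
    Pt (x ^ n) := by
  refine ⟨pow_ne_zero _ hx, fun h' => pow_ne_zero n hy ?_⟩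
  linear_combination h - h'

theorem pow_df {n : ℕ} {x y : K} (hx : x ≠ 0) (hy : y ≠ 0)
    (h : x ^ n + y ^ n + 1 = 0) {v : Pr K} {i : Fin 3} (hi : v ∈ side i (x ^ n)) :
    n * Real.log (Nv v) ≤ df (Sum.inr v : Pl K) i (x ^ n) := by
  have hpos : 0 < df (Sum.inr v : Pl K) i (x ^ n) := by
    unfold side at hi
    exact (mem_filter.1 hi).2
  obtain ⟨j, hj⟩ := M_attained (Sum.inr v : Pl K) (x ^ n)
  have hj' : M (Sum.inr v : Pl K) (x ^ n) = fv v (L j (x ^ n)) := hj
  obtain ⟨z, hz, hzL⟩ := pow_L hx hy h j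
  obtain ⟨w, hw, hwL⟩ := pow_L hx hy h i
  obtain ⟨a, ha⟩ := log_fv v hz
  obtain ⟨b, hb⟩ := log_fv v hw
  have e : df (Sum.inr v : Pl K) i (x ^ n) = n * ((a - b : ℤ) : ℝ) * Real.log (Nv v) := by
    rw [df_inr, hj', hzL, hwL, map_pow, map_pow, Real.log_pow, Real.log_pow, ha, hb]
    push_cast
    ring
  have hl := log_Nv_pos' v
  have hn0 : (0 : ℝ) ≤ n := Nat.cast_nonneg n
  have hab : 1 ≤ a - b := by
    by_contra hcon
    have h1 : a - b ≤ 0 := by omega
    have h2 : ((a - b : ℤ) : ℝ) ≤ 0 := by exact_mod_cast h1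
    rw [e] at hpos
    have h3 : (n : ℝ) * ((a - b : ℤ) : ℝ) ≤ 0 := mul_nonpos_of_nonneg_of_nonpos hn0 h2
    have h4 := mul_nonpos_of_nonpos_of_nonneg h3 hl.le
    linarith
  have hab' : (1 : ℝ) ≤ ((a - b : ℤ) : ℝ) := by exact_mod_cast hab
  rw [e]
  refine mul_le_mul_of_nonneg_right ?_ hl.le
  nlinarith

/-- the conductor of a solution -/
theorem fermat_ineq {n : ℕ} {x y : K} (hx : x ≠ 0) (hy : y ≠ 0)
    (h : x ^ n + y ^ n + 1 = 0) : n * Real.log (nn (sp (x ^ n))) ≤ 3 * hgt (x ^ n) := by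
  have hp := pow_Pt hx hy h
  have key : ∀ i : Fin 3, n * rr i (x ^ n) ≤ hgt (x ^ n) := by
    intro i
    have h1 := side_sum hp i
    have h2 := aw_nonneg hp i
    have h3 : n * rr i (x ^ n) ≤ ∑ v ∈ side i (x ^ n), df (Sum.inr v : Pl K) i (x ^ n) := by
      unfold rr
      rw [mul_sum]
      exact sum_le_sum fun v hv => pow_df hx hy h hv
    linarith
  rw [← rr_sum' hp]
  have h0 := key 0
  have h1 := key 1
  have h2 := key 2
  linarith

/-- the matrix of the triple -/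
def fMat (K : Type) [Field K] : Fin 3 × Fin 2 → K := fun p =>
  (![![-1, 0], ![0, 1], ![1, -1]] : Fin 3 → Fin 2 → K) p.1 p.2

theorem hgt_le_ht : ∃ c : ℝ, 0 ≤ c ∧ ∀ t : K, Pt t → hgt t ≤ c + ht (pt (-t)) := by
  refine ⟨max 0 (Height.totalWeight K * Real.log 2 + Height.logHeight (fMat K)),
    le_max_left _ _, fun t hP => ?_⟩
  refine (hgt_le_logHeight hP).trans ?_
  have h := Height.logHeight_linearMap_apply_le (fMat K) (![-t, 1] : Fin 2 → K)
  have e : (fun i : Fin 3 => L i t) = fun i : Fin 3 =>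
      ∑ j, fMat K (i, j) * (![-t, 1] : Fin 2 → K) j := by
    funext i
    unfold fMat
    fin_cases i
    · show t = _
      simp
    · show (1 : K) = _
      simp
    · show -t - 1 = _
      simp
      ring
  unfold pt
  rw [ht_mk, e]
  refine h.trans (add_le_add_left ?_ _)
  refine le_trans (le_of_eq ?_) (le_max_right _ _)
  rw [Nat.card_eq_fintype_card, Fintype.card_fin]
  push_cast
  rfl

theorem neg_ne {t : K} (h : Pt t) : -t ≠ 0 ∧ -t ≠ 1 := by
  refine ⟨neg_ne_zero.2 h.1, fun h' => h.2 ?_⟩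
  linear_combination -h'

theorem sp3_eq {t : K} (h : Pt t) : sp3 ⟨-t, neg_ne h⟩ = sp t := by
  ext v
  unfold sp3
  rw [mem_opt, mem_sp h, val_eq_one, val_eq_one]
  have e1 : fv v (-t) = fv v t := (fv v).map_neg t
  have e2 : fv v (-t - 1) = fv v (t + 1) := by
    rw [← (fv v).map_neg]
    congr 1
    ring
  rw [e1, e2]

open Classical in
/-- the `n`-th powers of the solutions -/
theorem fermat_ae (K : Type) [Field K] [NumberField K] : ∃ ν : ℝ, 0 < ν ∧
    ∀ (S₀ : Finset (Pr K)) (τ κ : ℝ), 0 ≤ τ →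
    2 / 3 - ν < κ * τ → ∀ {Ω : Type} [MeasurableSpace Ω] (μ : Measure Ω) (E : Pr K → Set Ω),
    iIndepSet E μ → (∀ v, μ (E v) ≤ ENNReal.ofReal ((Nv v) ^ (-τ))) →
    ∀ᵐ ω ∂μ, ∃ U : Set K, U.Finite ∧ ∀ (n : ℕ) (x y : K), 4 ≤ n → x ≠ 0 → y ≠ 0 →
      x ^ n + y ^ n + 1 = 0 →
      (nn (sp (x ^ n))) ^ κ ≤ nn ((sp (x ^ n)).filter fun v => v ∈ S₀ ∨ ω ∈ E v) →
      x ^ n ∈ U := by
  obtain ⟨ν, hν, hexc⟩ := exc_dec (K := K) (q := 3) le_rfl (dv (![0, 1] : Fin 2 → K))
    (dv_inj inj01) (κ := 2) two_pos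
  obtain ⟨c, hc0, hc⟩ := hgt_le_ht (K := K)
  refine ⟨ν, hν, ?_⟩
  intro S₀ τ κ hτ hθ Ω _ μ E hi hE
  obtain ⟨D, hD, hb⟩ := hexc ((2 / 3 - ν + κ * τ) / 2) (by
    push_cast
    linarith)
  have h := part_sum (μ := μ) (E := E)
    (fun t : {P : Off (dv (![0, 1] : Fin 2 → K)) //
      Real.log (nn (spA (dv (![0, 1] : Fin 2 → K)) P)) ≤ (((3 : ℕ) : ℝ) - 2) * ht P.1} =>
        spA (dv (![0, 1] : Fin 2 → K)) t.1)
    S₀ hτ (σ := 0) (κ := κ) hD hb (by linarith) hi hE
  filter_upwards [h] with ω hω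
  obtain ⟨C, hC⟩ := hω
  have hfin : {t : {P : Off (dv (![0, 1] : Fin 2 → K)) //
      Real.log (nn (spA (dv (![0, 1] : Fin 2 → K)) P)) ≤ (((3 : ℕ) : ℝ) - 2) * ht P.1} |
      (nn (spA (dv (![0, 1] : Fin 2 → K)) t.1)) ^ κ ≤
        nn ((spA (dv (![0, 1] : Fin 2 → K)) t.1).filter
          fun v => v ∈ S₀ ∨ ω ∈ E v)}.Finite := by
    refine finite_of_card (C := C) fun F hF => ?_
    have h1 := hC F hF
    simp only [neg_zero, Real.rpow_zero, Finset.sum_const, nsmul_eq_mul, mul_one] at h1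
    exact h1
  have hW1 : {t : K | ∃ hP : Pt t, opt ⟨-t, neg_ne hP⟩ ∈ Subtype.val '' {t :
      {P : Off (dv (![0, 1] : Fin 2 → K)) //
      Real.log (nn (spA (dv (![0, 1] : Fin 2 → K)) P)) ≤ (((3 : ℕ) : ℝ) - 2) * ht P.1} |
      (nn (spA (dv (![0, 1] : Fin 2 → K)) t.1)) ^ κ ≤
        nn ((spA (dv (![0, 1] : Fin 2 → K)) t.1).filter
          fun v => v ∈ S₀ ∨ ω ∈ E v)}}.Finite := by
    refine (((hfin.image Subtype.val).preimage (f := opt (K := K))
      opt_injective.injOn).image fun x => -x.1).subset ?_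
    rintro t ⟨hP, h'⟩
    exact ⟨⟨-t, neg_ne hP⟩, h', neg_neg t⟩
  have hW2 : {t : K | ht (pt (-t)) ≤ 3 * c}.Finite :=
    (ht_finite (K := K) (3 * c)).preimage (f := fun t : K => -t) neg_injective.injOn
  refine ⟨_, hW1.union hW2, ?_⟩
  intro n x y hn hx hy hxy hlarge
  have hP := pow_Pt hx hy hxy
  by_cases hh : ht (pt (-(x ^ n))) ≤ 3 * c
  · exact Or.inr hh
  · left
    have hh' := not_le.1 hh
    have h1 := fermat_ineq hx hy hxy
    have h2 := hc _ hP
    have hn4 : (4 : ℝ) ≤ n := by exact_mod_cast hn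
    have h0 : 0 ≤ Real.log (nn (sp (x ^ n))) := Real.log_nonneg (one_le_nn _)
    have h3 : 4 * Real.log (nn (sp (x ^ n))) ≤ n * Real.log (nn (sp (x ^ n))) :=
      mul_le_mul_of_nonneg_right hn4 h0
    have h4 : spA (dv (![0, 1] : Fin 2 → K)) (opt ⟨-(x ^ n), neg_ne hP⟩) = sp (x ^ n) :=
      sp3_eq hP
    refine ⟨hP, ⟨opt ⟨-(x ^ n), neg_ne hP⟩, ?_⟩, ?_, rfl⟩
    · rw [h4]
      push_cast
      show Real.log (nn (sp (x ^ n))) ≤ (3 - 2) * ht (pt (-(x ^ n)))
      linarith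
    · show (nn (spA (dv (![0, 1] : Fin 2 → K)) (opt ⟨-(x ^ n), neg_ne hP⟩))) ^ κ ≤
        nn ((spA (dv (![0, 1] : Fin 2 → K)) (opt ⟨-(x ^ n), neg_ne hP⟩)).filter
          fun v => v ∈ S₀ ∨ ω ∈ E v)
      rw [h4]
      exact hlarge

/-! ### roots of unity -/

/-- `x` is a root of unity -/
def RootOfUnity {K : Type} [Field K] (x : K) : Prop := ∃ k : ℕ, 0 < k ∧ x ^ k = 1

theorem exists_lower {T : Type*} (s : Finset T) {f : T → ℝ} (h : ∀ t ∈ s, 0 < f t) :
    ∃ c : ℝ, 0 < c ∧ ∀ t ∈ s, c ≤ f t := by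
  classical
  induction s using Finset.induction_on with
  | empty => exact ⟨1, one_pos, fun t ht => absurd ht (Finset.notMem_empty t)⟩
  | insert a s _ ih =>
    obtain ⟨c, hc, hc'⟩ := ih fun t ht => h t (mem_insert_of_mem ht)
    refine ⟨min c (f a), lt_min hc (h a (mem_insert_self a s)), fun t ht => ?_⟩
    rcases mem_insert.1 ht with rfl | ht
    · exact min_le_right _ _
    · exact (min_le_left _ _).trans (hc' t ht)

/-- Kronecker's theorem -/
theorem height_pos {x : K} (hx : x ≠ 0) (h : ¬ RootOfUnity x) : 0 < Height.logHeight₁ x := by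
  refine lt_of_le_of_ne (Height.zero_le_logHeight₁ x) fun h0 => h ?_
  have hfin := NumberField.finite_setOfPred_logHeight₁_le (K := K) 0
  have hmem : ∀ k : ℕ, x ^ k ∈ {x : K | Height.logHeight₁ x ≤ 0} := by
    intro k
    show Height.logHeight₁ (x ^ k) ≤ 0
    rw [Height.logHeight₁_pow, ← h0, mul_zero]
  have hni : ¬ Function.Injective fun k : ℕ => x ^ k := by
    intro hinj
    exact Set.infinite_of_injective_forall_mem hinj hmem hfin
  unfold Function.Injective at hni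
  push Not at hni
  obtain ⟨a, b, hab, hne⟩ := hni
  have hab' : x ^ a = x ^ b := hab
  rcases Nat.lt_or_gt_of_ne hne with hl | hl
  · refine ⟨b - a, by omega, ?_⟩
    have h1 : x ^ a * x ^ (b - a) = x ^ a * 1 := by
      rw [← pow_add, mul_one, hab']
      congr 1
      omega
    exact mul_left_cancel₀ (pow_ne_zero _ hx) h1
  · refine ⟨a - b, by omega, ?_⟩
    have h1 : x ^ b * x ^ (a - b) = x ^ b * 1 := by
      rw [← pow_add, mul_one, ← hab']
      congr 1
      omega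
    exact mul_left_cancel₀ (pow_ne_zero _ hx) h1

variable (K) in
theorem height_gap : ∃ c : ℝ, 0 < c ∧ ∀ x : K, x ≠ 0 → ¬ RootOfUnity x →
    c ≤ Height.logHeight₁ x := by
  classical
  have hfin := NumberField.finite_setOfPred_logHeight₁_le (K := K) 1
  obtain ⟨c, hc, h⟩ := exists_lower (hfin.toFinset.filter fun x => 0 < Height.logHeight₁ x)
    (f := fun x => Height.logHeight₁ x) (fun x hx => (mem_filter.1 hx).2)
  refine ⟨min c 1, lt_min hc one_pos, fun x hx hr => ?_⟩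
  by_cases h1 : Height.logHeight₁ x ≤ 1
  · refine (min_le_left _ _).trans (h x (mem_filter.2 ⟨?_, height_pos hx hr⟩))
    rw [Set.Finite.mem_toFinset]
    exact h1
  · exact (min_le_right _ _).trans (not_le.1 h1).le

theorem bounded_on {U : Set K} (hU : U.Finite) (f : K → ℝ) : ∃ B : ℝ, 0 ≤ B ∧ ∀ u ∈ U, f u ≤ B := by
  refine ⟨∑ u ∈ hU.toFinset, |f u|, sum_nonneg fun u _ => abs_nonneg _, fun u hu => ?_⟩
  exact (le_abs_self _).trans (single_le_sum (f := fun u => |f u|) (fun u _ => abs_nonneg _)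
    ((Set.Finite.mem_toFinset hU).2 hu))

/-- from the powers to the solutions -/
theorem fermat_finite {U : Set K} (hU : U.Finite) :
    {p : ℕ × K × K | 4 ≤ p.1 ∧ (p.2.1 ≠ 0 ∧ p.2.2 ≠ 0) ∧ p.2.1 ^ p.1 + p.2.2 ^ p.1 + 1 = 0 ∧
      ¬ (RootOfUnity p.2.1 ∧ RootOfUnity p.2.2) ∧ p.2.1 ^ p.1 ∈ U}.Finite := by
  obtain ⟨c, hc, hgap⟩ := height_gap K
  obtain ⟨B, hB0, hB⟩ := bounded_on hU Height.logHeight₁
  obtain ⟨B', hB'0, hB'⟩ := bounded_on hU fun u => Height.logHeight₁ (-u - 1)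
  obtain ⟨N, hN⟩ := exists_nat_ge ((B + B') / c)
  have hf1 := NumberField.finite_setOfPred_logHeight₁_le (K := K) B
  have hf2 := NumberField.finite_setOfPred_logHeight₁_le (K := K) B'
  refine ((Set.finite_Iic N).prod (hf1.prod hf2)).subset ?_
  rintro ⟨n, x, y⟩ ⟨hn, ⟨hx, hy⟩, hxy, hnr, hmem⟩
  simp only at hn hx hy hxy hnr hmem
  have e1 : n * Height.logHeight₁ x ≤ B := by
    rw [← Height.logHeight₁_pow]
    exact hB _ hmem
  have e2 : n * Height.logHeight₁ y ≤ B' := by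
    rw [← Height.logHeight₁_pow]
    have : y ^ n = -(x ^ n) - 1 := by linear_combination hxy
    rw [this]
    exact hB' _ hmem
  have hn1 : (1 : ℝ) ≤ n := by exact_mod_cast (by omega : 1 ≤ n)
  have hx0 := Height.zero_le_logHeight₁ x
  have hy0 := Height.zero_le_logHeight₁ y
  have e3 : Height.logHeight₁ x ≤ n * Height.logHeight₁ x := by nlinarith
  have e4 : Height.logHeight₁ y ≤ n * Height.logHeight₁ y := by nlinarith
  have e5 : (n : ℝ) * c ≤ B + B' := by
    by_cases hr : RootOfUnity x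
    · have h1 := hgap y hy fun hr' => hnr ⟨hr, hr'⟩
      have h2 := mul_le_mul_of_nonneg_left h1 (by linarith : (0 : ℝ) ≤ n)
      linarith
    · have h1 := hgap x hx hr
      have h2 := mul_le_mul_of_nonneg_left h1 (by linarith : (0 : ℝ) ≤ n)
      linarith
  refine ⟨?_, e3.trans e1, e4.trans e2⟩
  show n ≤ N
  have h1 : (n : ℝ) ≤ (B + B') / c := by rwa [le_div_iff₀ hc]
  exact_mod_cast h1.trans hN

/-- two roots of unity of sum `-1` are primitive cube roots of unity -/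
theorem cube_root {z w : K} (hz : RootOfUnity z) (hw : RootOfUnity w) (h : z + w + 1 = 0) :
    z ^ 2 + z + 1 = 0 := by
  obtain ⟨φ⟩ : Nonempty (K →+* ℂ) := inferInstance
  have key : ∀ {z : K}, RootOfUnity z → Complex.normSq (φ z) = 1 := by
    intro z hz
    obtain ⟨k, hk, hz⟩ := hz
    have h1 : (Complex.normSq (φ z)) ^ k = 1 := by
      rw [← map_pow, ← map_pow, hz, map_one, map_one]
    exact (pow_eq_one_iff_of_nonneg (Complex.normSq_nonneg _) hk.ne').1 h1
  have h1 := key hz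
  have h2 := key hw
  have h3 : φ w = -φ z - 1 := by
    have := congrArg φ h
    rw [map_add, map_add, map_one, map_zero] at this
    linear_combination this
  rw [h3, Complex.normSq_apply] at h2
  rw [Complex.normSq_apply] at h1
  simp only [Complex.sub_re, Complex.neg_re, Complex.one_re, Complex.sub_im, Complex.neg_im,
    Complex.one_im, sub_zero] at h2
  have h4 : (φ z).re = -(1 / 2) := by nlinarith
  have h5 : (φ z).im * (φ z).im = 3 / 4 := by
    rw [h4] at h1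
    linarith
  have h6 : (φ z) ^ 2 + φ z + 1 = 0 := by
    apply Complex.ext
    · simp only [pow_two, Complex.add_re, Complex.mul_re, Complex.one_re, Complex.zero_re]
      rw [h4, h5]
      norm_num
    · simp only [pow_two, Complex.add_im, Complex.mul_im, Complex.one_im, Complex.zero_im]
      rw [h4]
      ring
  apply φ.injective
  rw [map_add, map_add, map_pow, map_one, map_zero]
  exact h6

end Pool.Agent.X61.RI
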