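import Pool.Agent.X61.RI.Fermat

/-! The solutions of the Fermat equations `x ^ n + y ^ n = 1` of all exponents composed of large
primes of a random set: none, with probability close to one. -/

set_option autoImplicit false

namespace Pool.Agent.X61.RI

open NumberField IsDedekindDomain Finset MeasureTheory ProbabilityTheory
open Pool.Agent.H691R3 Pool.Agent.TH876.Loc Pool.Agent.Y911.RR
open Pool.Agent.Y911.US (ht ht_nonneg ht_mk two_pow_sum)
open Pool.Agent.TH876.KR (side rr side_sum aw_nonneg rr_sum' df_inr log_Nv_pos' hgt_le_logHeight)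

variable {K : Type} [Field K] [NumberField K]

open Classical in
theorem part_small {T : Type} [Countable T] (sp : T → Finset (Pr K)) {κ δ τ D : ℝ} (hκ : 0 < κ)
    (hτ : 0 ≤ τ) (hδ : 0 ≤ δ)
    (hD : ∀ F : Finset T, ∑ t ∈ F, 2 ^ (sp t).card * (nn (sp t)) ^ (-(κ * τ - δ)) ≤ D)
    {Ω : Type} [MeasurableSpace Ω] (μ : Measure Ω) (E : Pr K → Set Ω) (hi : iIndepSet E μ)
    (hE : ∀ v, μ (E v) ≤ ENNReal.ofReal ((Nv v) ^ (-τ))) {R : ℝ} (hR : 0 < R) :
    μ {ω | ∃ t, (sp t).Nonempty ∧ (nn (sp t)) ^ κ ≤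
      nn ((sp t).filter fun v => R ≤ Nv v ∧ ω ∈ E v)} ≤ ENNReal.ofReal (R ^ (-δ) * D) := by
  refine exists_le (μ := μ)
    (B := fun t : T => {ω | (sp t).Nonempty ∧ (nn (sp t)) ^ κ ≤
      nn ((sp t).filter fun v => R ≤ Nv v ∧ ω ∈ E v)})
    (f := fun t => R ^ (-δ) * (2 ^ (sp t).card * (nn (sp t)) ^ (-(κ * τ - δ))))
    (fun t => by
      have := nn_pos (sp t)
      positivity)
    (fun t => ?_) (fun F => ?_)
  · have h0 := nn_pos (sp t)
    by_cases h : R ≤ nn (sp t)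
    · refine (measure_mono ?_).trans ((part_le (fun v => Nv_pos v) hi hτ hE (sp t)
        (Z := (nn (sp t)) ^ κ) (by positivity)).trans (ENNReal.ofReal_le_ofReal ?_))
      · rintro ω ⟨_, hω⟩
        refine le_trans hω (nn_mono fun v hv => ?_)
        rw [mem_filter] at hv ⊢
        exact ⟨hv.1, hv.2.2⟩
      · have e : ((nn (sp t)) ^ κ) ^ (-τ) = (nn (sp t)) ^ (-δ) * (nn (sp t)) ^ (-(κ * τ - δ)) := by
          rw [← Real.rpow_mul h0.le, ← Real.rpow_add h0]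
          congr 1
          ring
        rw [e]
        calc 2 ^ (sp t).card * ((nn (sp t)) ^ (-δ) * (nn (sp t)) ^ (-(κ * τ - δ)))
            = (nn (sp t)) ^ (-δ) * (2 ^ (sp t).card * (nn (sp t)) ^ (-(κ * τ - δ))) := by ring
          _ ≤ R ^ (-δ) * (2 ^ (sp t).card * (nn (sp t)) ^ (-(κ * τ - δ))) :=
              mul_le_mul_of_nonneg_right (Real.rpow_le_rpow_of_nonpos hR h (by linarith))
                (by positivity)
    · have e : {ω | (sp t).Nonempty ∧ (nn (sp t)) ^ κ ≤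
          nn ((sp t).filter fun v => R ≤ Nv v ∧ ω ∈ E v)} = ∅ := by
        refine Set.eq_empty_of_forall_notMem ?_
        rintro ω ⟨hne, hω⟩
        obtain ⟨w, hw⟩ := hne
        have h1 : 1 < nn (sp t) := lt_of_lt_of_le (by linarith [two_le_Nv w]) (Nv_le_nn hw)
        have h2 : 1 < (nn (sp t)) ^ κ := Real.one_lt_rpow h1 hκ
        have h3 : ((sp t).filter fun v => R ≤ Nv v ∧ ω ∈ E v).Nonempty := by
          by_contra hcon
          rw [Finset.not_nonempty_iff_eq_empty] at hcon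
          rw [hcon] at hω
          have h4 : nn (∅ : Finset (Pr K)) = 1 := Finset.prod_empty
          rw [h4] at hω
          linarith
        obtain ⟨v, hv⟩ := h3
        rw [mem_filter] at hv
        exact h (hv.2.1.trans (Nv_le_nn hv.1))
      rw [e, measure_empty]
      exact zero_le
  · rw [← mul_sum]
    exact mul_le_mul_of_nonneg_left (hD F) (by positivity)

/-! ### the equation `x ^ n + y ^ n = 1` -/

theorem qow_L {n : ℕ} {x y : K} (hx : x ≠ 0) (hy : y ≠ 0) (h : x ^ n + y ^ n = 1) (v : Pr K)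
    (i : Fin 3) : ∃ z : K, z ≠ 0 ∧ fv v (L i (-(x ^ n))) = fv v z ^ n := by
  fin_cases i
  · refine ⟨x, hx, ?_⟩
    show fv v (-(x ^ n)) = _
    rw [AbsoluteValue.map_neg, map_pow]
  · refine ⟨1, one_ne_zero, ?_⟩
    show fv v 1 = _
    rw [map_one, one_pow]
  · refine ⟨y, hy, ?_⟩
    show fv v (-(-(x ^ n)) - 1) = _
    have e : -(-(x ^ n)) - 1 = -(y ^ n) := by linear_combination h
    rw [e, AbsoluteValue.map_neg, map_pow]

omit [NumberField K] in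
theorem qow_Pt {n : ℕ} {x y : K} (hx : x ≠ 0) (hy : y ≠ 0) (h : x ^ n + y ^ n = 1) :
    Pt (-(x ^ n)) := by
  refine ⟨neg_ne_zero.2 (pow_ne_zero _ hx), fun h' => pow_ne_zero n hy ?_⟩
  linear_combination h + h'

theorem qow_df {n : ℕ} {x y : K} (hx : x ≠ 0) (hy : y ≠ 0)
    (h : x ^ n + y ^ n = 1) {v : Pr K} {i : Fin 3} (hi : v ∈ side i (-(x ^ n))) :
    n * Real.log (Nv v) ≤ df (Sum.inr v : Pl K) i (-(x ^ n)) := by
  have hpos : 0 < df (Sum.inr v : Pl K) i (-(x ^ n)) := by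
    unfold side at hi
    exact (mem_filter.1 hi).2
  obtain ⟨j, hj⟩ := M_attained (Sum.inr v : Pl K) (-(x ^ n))
  have hj' : M (Sum.inr v : Pl K) (-(x ^ n)) = fv v (L j (-(x ^ n))) := hj
  obtain ⟨z, hz, hzL⟩ := qow_L hx hy h v j
  obtain ⟨w, hw, hwL⟩ := qow_L hx hy h v i
  obtain ⟨a, ha⟩ := log_fv v hz
  obtain ⟨b, hb⟩ := log_fv v hw
  have e : df (Sum.inr v : Pl K) i (-(x ^ n)) = n * ((a - b : ℤ) : ℝ) * Real.log (Nv v) := by
    rw [df_inr, hj', hzL, hwL, Real.log_pow, Real.log_pow, ha, hb]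
    push_cast
    ring
  have hl := log_Nv_pos' v
  have hn0 : (0 : ℝ) ≤ n := Nat.cast_nonneg n
  have hab : 1 ≤ a - b := by
    by_contra hcon
    have h1 : a - b ≤ 0 := by omega
    have h2 : ((a - b : ℤ) : ℝ) ≤ 0 := by exact_mod_cast h1
    rw [e] at hpos
    have h3 : (n : ℝ) * ((a - b : ℤ) : ℝ) ≤ 0 := mul_nonpos_of_nonneg_of_nonpos hn0 h2
    have h4 := mul_nonpos_of_nonpos_of_nonneg h3 hl.le
    linarith
  have hab' : (1 : ℝ) ≤ ((a - b : ℤ) : ℝ) := by exact_mod_cast hab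
  rw [e]
  refine mul_le_mul_of_nonneg_right ?_ hl.le
  nlinarith

theorem fermat_ineq' {n : ℕ} {x y : K} (hx : x ≠ 0) (hy : y ≠ 0)
    (h : x ^ n + y ^ n = 1) : n * Real.log (nn (sp (-(x ^ n)))) ≤ 3 * hgt (-(x ^ n)) := by
  have hp := qow_Pt hx hy h
  have key : ∀ i : Fin 3, n * rr i (-(x ^ n)) ≤ hgt (-(x ^ n)) := by
    intro i
    have h1 := side_sum hp i
    have h2 := aw_nonneg hp i
    have h3 : n * rr i (-(x ^ n)) ≤
        ∑ v ∈ side i (-(x ^ n)), df (Sum.inr v : Pl K) i (-(x ^ n)) := by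
      unfold rr
      rw [mul_sum]
      exact sum_le_sum fun v hv => qow_df hx hy h hv
    linarith
  rw [← rr_sum' hp]
  have h0 := key 0
  have h1 := key 1
  have h2 := key 2
  linarith

theorem height_L (z : K) : Height.logHeight (fun i : Fin 3 => L i (-z)) =
    Height.logHeight (tr z) := by
  have e : (fun i : Fin 3 => L i (-z)) = -(tr z ∘ (Equiv.swap (1 : Fin 3) 2)) := by
    funext i
    fin_cases i
    · show -z = -(tr z ((Equiv.swap (1 : Fin 3) 2) 0))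
      rw [Equiv.swap_apply_of_ne_of_ne (by decide) (by decide)]
      rfl
    · show (1 : K) = -(tr z ((Equiv.swap (1 : Fin 3) 2) 1))
      rw [Equiv.swap_apply_left]
      show (1 : K) = - -1
      rw [neg_neg]
    · show - -z - 1 = -(tr z ((Equiv.swap (1 : Fin 3) 2) 2))
      rw [Equiv.swap_apply_right]
      show - -z - 1 = -(1 - z)
      ring
  rw [e, Height.logHeight_neg, Height.logHeight_comp_equiv]

omit [NumberField K] in
theorem qow_ne {n : ℕ} {x y : K} (hx : x ≠ 0) (hy : y ≠ 0) (h : x ^ n + y ^ n = 1) :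
    x ^ n ≠ 0 ∧ x ^ n ≠ 1 := by
  refine ⟨pow_ne_zero _ hx, fun h' => pow_ne_zero n hy ?_⟩
  linear_combination h - h'

theorem sp3_neg {z : K} (h : z ≠ 0 ∧ z ≠ 1) (hp : Pt (-z)) : sp3 ⟨z, h⟩ = sp (-z) := by
  have h1 := sp3_eq hp
  have e : (⟨-(-z), neg_ne hp⟩ : {x : K // x ≠ 0 ∧ x ≠ 1}) = ⟨z, h⟩ := Subtype.ext (neg_neg z)
  rw [← h1, e]

theorem qow_exc {n : ℕ} (hn : 4 ≤ n) {x y : K} (hx : x ≠ 0) (hy : y ≠ 0) (h : x ^ n + y ^ n = 1)
    (hne : (sp3 ⟨x ^ n, qow_ne hx hy h⟩).Nonempty) :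
    1 * Real.log (nn (sp3 ⟨x ^ n, qow_ne hx hy h⟩)) < Height.logHeight (tr (x ^ n)) := by
  have h1 := fermat_ineq' hx hy h
  have h2 := hgt_le_logHeight (qow_Pt hx hy h)
  rw [height_L] at h2
  rw [sp3_neg (qow_ne hx hy h) (qow_Pt hx hy h)] at hne ⊢
  have hn4 : (4 : ℝ) ≤ n := by exact_mod_cast hn
  obtain ⟨w, hw⟩ := hne
  have h3 : 1 < nn (sp (-(x ^ n))) := lt_of_lt_of_le (by linarith [two_le_Nv w]) (Nv_le_nn hw)
  have h4 := Real.log_pos h3
  have h5 : 4 * Real.log (nn (sp (-(x ^ n)))) ≤ n * Real.log (nn (sp (-(x ^ n)))) :=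
    mul_le_mul_of_nonneg_right hn4 h4.le
  linarith

open Classical in
/-- **No solution with a large part composed of large primes of the random set.** -/
theorem fermat_small (K : Type) [Field K] [NumberField K] : ∃ ν : ℝ, 0 < ν ∧
    ∀ τ κ δ : ℝ, 0 ≤ τ → 0 < κ → 0 ≤ δ → 2 / 3 - ν < κ * τ - δ → ∃ C : ℝ, 0 < C ∧
    ∀ {Ω : Type} [MeasurableSpace Ω] (μ : Measure Ω) (E : Pr K → Set Ω),
    iIndepSet E μ → (∀ v, μ (E v) ≤ ENNReal.ofReal ((Nv v) ^ (-τ))) → ∀ R : ℝ, 0 < R →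
    μ {ω | ∃ (n : ℕ) (x y : K) (hx : x ≠ 0) (hy : y ≠ 0) (h : x ^ n + y ^ n = 1), 4 ≤ n ∧
      (sp3 ⟨x ^ n, qow_ne hx hy h⟩).Nonempty ∧
      (nn (sp3 ⟨x ^ n, qow_ne hx hy h⟩)) ^ κ ≤
        nn ((sp3 ⟨x ^ n, qow_ne hx hy h⟩).filter fun v => R ≤ Nv v ∧ ω ∈ E v)} ≤
      ENNReal.ofReal (C * R ^ (-δ)) := by
  obtain ⟨ν, hν, -, hexc⟩ := exc3 (K := K) (M := 1) (by norm_num)
  refine ⟨ν, hν, ?_⟩
  intro τ κ δ hτ hκ hδ hθ
  obtain ⟨D, hD, hb⟩ := hexc ((2 / 3 - ν + (κ * τ - δ)) / 2) (by linarith)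
  obtain ⟨D', hD', hb'⟩ := two_pow_sum K
    (fun t : {x : {x : K // x ≠ 0 ∧ x ≠ 1} //
      1 * Real.log (nn (sp3 x)) < Height.logHeight (tr x.1)} => sp3 t.1)
    (θ := κ * τ - δ) (by linarith) hD hb
  refine ⟨D', hD', ?_⟩
  intro Ω _ μ E hi hE R hR
  have h := part_small (K := K)
    (fun t : {x : {x : K // x ≠ 0 ∧ x ≠ 1} //
      1 * Real.log (nn (sp3 x)) < Height.logHeight (tr x.1)} => sp3 t.1)
    hκ hτ hδ hb' μ E hi hE hR
  refine (measure_mono ?_).trans (h.trans (le_of_eq (by rw [mul_comm])))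
  rintro ω ⟨n, x, y, hx, hy, hxy, hn, hne, hlarge⟩
  exact ⟨⟨⟨x ^ n, qow_ne hx hy hxy⟩, qow_exc hn hx hy hxy hne⟩, hne, hlarge⟩

end Pool.Agent.X61.RI
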