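import Pool.Agent.X61.RI.Leg
import Pool.Agent.X61.RI.Fam

/-! Elliptic curves with a given `j`-invariant which are semistable outside a finite set. -/

set_option autoImplicit false

namespace Pool.Agent.X61.RI

open NumberField IsDedekindDomain

variable {K : Type} [Field K] [NumberField K]

omit [NumberField K] in
theorem j_mul (W : WeierstrassCurve K) [W.IsElliptic] : W.j * W.Δ = W.c₄ ^ 3 := by
  have h := W.Δ'.ne_zero
  rw [WeierstrassCurve.coe_Δ'] at h
  unfold WeierstrassCurve.j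
  rw [Units.val_inv_eq_inv_val, WeierstrassCurve.coe_Δ']
  field_simp

omit [NumberField K] in
theorem Δ_ne (W : WeierstrassCurve K) [W.IsElliptic] : W.Δ ≠ 0 := by
  have h := W.Δ'.ne_zero
  rwa [WeierstrassCurve.coe_Δ'] at h

omit [NumberField K] in
theorem j_sub_mul (W : WeierstrassCurve K) [W.IsElliptic] : (W.j - 1728) * W.Δ = W.c₆ ^ 2 := by
  have h1 := j_mul W
  have h2 := W.c_relation
  linear_combination h1 - h2

/-- the curve with the invariant `j` and the quotient `d` of `c₆` and `c₄` -/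
noncomputable def std (j d : K) : WeierstrassCurve K :=
  ⟨0, 0, 0, -(d ^ 2 * (j / (j - 1728))) / 48, -(d ^ 3 * (j / (j - 1728))) / 864⟩

theorem iso_std (W : WeierstrassCurve K) [W.IsElliptic] (h0 : W.j ≠ 0) (h1 : W.j ≠ 1728)
    {d s : K} (hs : s ≠ 0) (h : W.c₆ = d * s ^ 2 * W.c₄) :
    ∃ C : WeierstrassCurve.VariableChange K, C • W = std W.j d := by
  have hΔ := Δ_ne W
  have hc4 : W.c₄ ≠ 0 := by
    intro hc
    have := j_mul W
    rw [hc, zero_pow (by norm_num), mul_eq_zero] at this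
    exact this.elim h0 hΔ
  have hj : W.j - 1728 ≠ 0 := sub_ne_zero.2 h1
  have e4 : W.c₄ = s ^ 4 * (d ^ 2 * (W.j / (W.j - 1728))) := by
    have k1 := j_mul W
    have k2 := j_sub_mul W
    rw [h] at k2
    have k3 : (W.j - 1728) * W.c₄ ^ 3 = W.j * (d * s ^ 2 * W.c₄) ^ 2 := by
      rw [← k1, ← k2]
      ring
    have k4 : (W.j - 1728) * W.c₄ = W.j * d ^ 2 * s ^ 4 := by
      have : W.c₄ ^ 2 * ((W.j - 1728) * W.c₄ - W.j * d ^ 2 * s ^ 4) = 0 := by
        linear_combination k3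
      have h2 := (mul_eq_zero.1 this).resolve_left (pow_ne_zero _ hc4)
      exact sub_eq_zero.1 h2
    field_simp
    linear_combination k4
  have e6 : W.c₆ = s ^ 6 * (d ^ 3 * (W.j / (W.j - 1728))) := by
    rw [h, e4]
    ring
  have i2 : Invertible (2 : K) := invertibleOfNonzero two_ne_zero
  have i3 : Invertible (3 : K) := invertibleOfNonzero three_ne_zero
  obtain ⟨C₀, hC₀⟩ := W.exists_variableChange_isShortNF
  have a1 : (C₀ • W).a₁ = 0 := (C₀ • W).a₁_of_isShortNF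
  have a2 : (C₀ • W).a₂ = 0 := (C₀ • W).a₂_of_isShortNF
  have a3 : (C₀ • W).a₃ = 0 := (C₀ • W).a₃_of_isShortNF
  have a4 : (C₀ • W).c₄ = -48 * (C₀ • W).a₄ := (C₀ • W).c₄_of_isShortNF
  have a6 : (C₀ • W).c₆ = -864 * (C₀ • W).a₆ := (C₀ • W).c₆_of_isShortNF
  rw [WeierstrassCurve.variableChange_c₄] at a4
  rw [WeierstrassCurve.variableChange_c₆] at a6
  set u : Kˣ := C₀.u with hu
  obtain ⟨w, hw⟩ : ∃ w : Kˣ, w = Units.mk0 s hs * u⁻¹ := ⟨_, rfl⟩
  have hwu : ((w⁻¹ : Kˣ) : K) * ((u⁻¹ : Kˣ) : K) = s⁻¹ := by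
    rw [hw, mul_inv, inv_inv, Units.val_mul, Units.val_inv_eq_inv_val, Units.val_mk0, mul_assoc,
      ← Units.val_mul, mul_inv_cancel, Units.val_one, mul_one]
  refine ⟨(⟨w, 0, 0, 0⟩ : WeierstrassCurve.VariableChange K) * C₀, ?_⟩
  rw [mul_smul]
  have b4 : (C₀ • W).a₄ = -(((u⁻¹ : Kˣ) : K) ^ 4 * W.c₄) / 48 := by
    rw [a4]
    ring
  have b6 : (C₀ • W).a₆ = -(((u⁻¹ : Kˣ) : K) ^ 6 * W.c₆) / 864 := by
    rw [a6]
    ring
  unfold std
  refine WeierstrassCurve.ext ?_ ?_ ?_ ?_ ?_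
  · rw [WeierstrassCurve.variableChange_a₁, a1]
    simp
  · rw [WeierstrassCurve.variableChange_a₂, a1, a2]
    simp
  · rw [WeierstrassCurve.variableChange_a₃, a1, a3]
    simp
  · rw [WeierstrassCurve.variableChange_a₄, a1, a2, a3, b4]
    have e : ((w⁻¹ : Kˣ) : K) ^ 4 * (-(((u⁻¹ : Kˣ) : K) ^ 4 * W.c₄) / 48) =
        -((((w⁻¹ : Kˣ) : K) * ((u⁻¹ : Kˣ) : K)) ^ 4 * W.c₄) / 48 := by ring
    simp only [mul_zero, sub_zero, add_zero, ne_eq, OfNat.ofNat_ne_zero,
      not_false_eq_true, zero_pow]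
    rw [e, hwu, e4]
    field_simp
  · rw [WeierstrassCurve.variableChange_a₆, a1, a2, a3, b6]
    have e : ((w⁻¹ : Kˣ) : K) ^ 6 * (-(((u⁻¹ : Kˣ) : K) ^ 6 * W.c₆) / 864) =
        -((((w⁻¹ : Kˣ) : K) * ((u⁻¹ : Kˣ) : K)) ^ 6 * W.c₆) / 864 := by ring
    simp only [mul_zero, sub_zero, add_zero, zero_mul, ne_eq, OfNat.ofNat_ne_zero,
      not_false_eq_true, zero_pow]
    rw [e, hwu, e6]
    field_simp

theorem good_j {v : HeightOneSpectrum (𝓞 K)} {W : WeierstrassCurve K} [W.IsElliptic]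
    (h : GoodAt v W) : v.valuation K W.j ≤ 1 := by
  obtain ⟨C, h1, h2⟩ := h
  have h3 := j_mul (C • W)
  rw [WeierstrassCurve.variableChange_j] at h3
  have h4 := congrArg (v.valuation K) h3
  rw [map_mul, h2, mul_one, map_pow] at h4
  rw [h4]
  exact pow_le_one₀ zero_le (integral_inv h1).1

theorem good_of_j {v : HeightOneSpectrum (𝓞 K)} {W : WeierstrassCurve K} [W.IsElliptic]
    (h : SemistableAt v W) (hj : v.valuation K W.j ≤ 1) : GoodAt v W := by
  obtain ⟨C, h1, h2⟩ := h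
  rcases h2 with h2 | h2
  · exact ⟨C, h1, h2⟩
  · refine ⟨C, h1, ?_⟩
    have h3 := j_mul (C • W)
    rw [WeierstrassCurve.variableChange_j] at h3
    have h4 := congrArg (v.valuation K) h3
    rw [map_mul, map_pow, h2, one_pow] at h4
    refine le_antisymm (integral_inv h1).2 ?_
    calc (1 : WithZero (Multiplicative ℤ)) = v.valuation K W.j * v.valuation K (C • W).Δ := h4.symm
      _ ≤ 1 * v.valuation K (C • W).Δ := mul_le_mul_left hj _
      _ = _ := one_mul _

theorem one_of_pow {x : WithZero (Multiplicative ℤ)} {n : ℕ} (hn : n ≠ 0) (h : x ^ n = 1) :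
    x = 1 := by
  rcases lt_trichotomy x 1 with h1 | h1 | h1
  · exact absurd h (pow_lt_one₀ zero_le h1 hn).ne
  · exact h1
  · exact absurd h (one_lt_pow₀ h1 hn).ne'

theorem ratio_even {v : HeightOneSpectrum (𝓞 K)} {W : WeierstrassCurve K} [W.IsElliptic]
    (h : SemistableAt v W) (hj : v.valuation K W.j = 1) (hj' : v.valuation K (W.j - 1728) = 1) :
    ∃ u : Kˣ, v.valuation K W.c₆ = v.valuation K (u : K) ^ 2 * v.valuation K W.c₄ := by
  obtain ⟨C, h1, h2⟩ := h
  have h3 := congrArg (v.valuation K) (j_mul (C • W))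
  have h4 := congrArg (v.valuation K) (j_sub_mul (C • W))
  rw [WeierstrassCurve.variableChange_j, map_mul, hj, one_mul, map_pow] at h3
  rw [WeierstrassCurve.variableChange_j, map_mul, hj', one_mul, map_pow] at h4
  have h5 : v.valuation K (C • W).c₄ = 1 ∧ v.valuation K (C • W).c₆ = 1 := by
    rcases h2 with h2 | h2
    · rw [h2] at h3 h4
      exact ⟨one_of_pow (by norm_num) h3.symm,
        one_of_pow (by norm_num) h4.symm⟩
    · rw [h2, one_pow] at h3
      rw [h3] at h4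
      exact ⟨h2, one_of_pow (by norm_num) h4.symm⟩
  obtain ⟨h6, h7⟩ := h5
  rw [WeierstrassCurve.variableChange_c₄, map_mul, map_pow] at h6
  rw [WeierstrassCurve.variableChange_c₆, map_mul, map_pow] at h7
  refine ⟨C.u, ?_⟩
  have h8 : v.valuation K ((C.u⁻¹ : Kˣ) : K) * v.valuation K (C.u : K) = 1 := by
    rw [← map_mul, ← Units.val_mul, inv_mul_cancel, Units.val_one, map_one]
  have h9 : v.valuation K W.c₄ = v.valuation K (C.u : K) ^ 4 := by
    calc v.valuation K W.c₄ =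
        (v.valuation K ((C.u⁻¹ : Kˣ) : K) * v.valuation K (C.u : K)) ^ 4 * v.valuation K W.c₄ := by
          rw [h8, one_pow, one_mul]
      _ = v.valuation K (C.u : K) ^ 4 *
          (v.valuation K ((C.u⁻¹ : Kˣ) : K) ^ 4 * v.valuation K W.c₄) := by
          rw [mul_pow, mul_comm (v.valuation K ((C.u⁻¹ : Kˣ) : K) ^ 4), mul_assoc]
      _ = _ := by rw [h6, mul_one]
  have h10 : v.valuation K W.c₆ = v.valuation K (C.u : K) ^ 6 := by
    calc v.valuation K W.c₆ =
        (v.valuation K ((C.u⁻¹ : Kˣ) : K) * v.valuation K (C.u : K)) ^ 6 * v.valuation K W.c₆ := by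
          rw [h8, one_pow, one_mul]
      _ = v.valuation K (C.u : K) ^ 6 *
          (v.valuation K ((C.u⁻¹ : Kˣ) : K) ^ 6 * v.valuation K W.c₆) := by
          rw [mul_pow, mul_comm (v.valuation K ((C.u⁻¹ : Kˣ) : K) ^ 6), mul_assoc]
      _ = _ := by rw [h7, mul_one]
  rw [h9, h10, ← pow_add]

theorem even_of_sq {v : HeightOneSpectrum (𝓞 K)} {a u : Kˣ}
    (h : v.valuation K (a : K) = v.valuation K (u : K) ^ 2) :
    Even (Multiplicative.toAdd (v.valuationOfNeZero a)) := by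
  have h1 : v.valuationOfNeZero a = v.valuationOfNeZero u ^ 2 := by
    have h2 : ((v.valuationOfNeZero a : Multiplicative ℤ) : WithZero (Multiplicative ℤ)) =
        ((v.valuationOfNeZero u ^ 2 : Multiplicative ℤ) : WithZero (Multiplicative ℤ)) := by
      rw [WithZero.coe_pow, HeightOneSpectrum.valuationOfNeZero_eq,
        HeightOneSpectrum.valuationOfNeZero_eq]
      exact h
    exact WithZero.coe_injective h2
  rw [h1, toAdd_pow, nsmul_eq_mul]
  exact even_two.mul_right _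

/-- **Finitely many curves.** -/
theorem twists_finite {L : Set K} (hL : L.Finite) {S₀ : Set (HeightOneSpectrum (𝓞 K))}
    (hS₀ : S₀.Finite) :
    ∃ F : Set (WeierstrassCurve K), F.Finite ∧ ∀ (W : WeierstrassCurve K) [W.IsElliptic],
      W.j ∈ L → W.j ≠ 0 → W.j ≠ 1728 → (∀ v, v ∉ S₀ → SemistableAt v W) →
      ∃ W' ∈ F, ∃ C : WeierstrassCurve.VariableChange K, C • W = W' := by
  have hB : (⋃ x ∈ L, {v : HeightOneSpectrum (𝓞 K) | x ≠ 0 ∧ x ≠ 1728 ∧
      ¬ (v.valuation K x = 1 ∧ v.valuation K (x - 1728) = 1)}).Finite := by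
    refine hL.biUnion fun x _ => ?_
    by_cases hx : x ≠ 0 ∧ x ≠ 1728
    · refine ((unit_finite hx.1).union (unit_finite (sub_ne_zero.2 hx.2))).subset fun v hv => ?_
      by_contra hcon
      rw [Set.mem_union, not_or] at hcon
      apply hv.2.2
      refine ⟨?_, ?_⟩
      · by_contra h
        exact hcon.1 h
      · by_contra h
        exact hcon.2 h
    · refine Set.finite_empty.subset fun v hv => ?_
      exact absurd ⟨hv.1, hv.2.1⟩ hx
  obtain ⟨T, hT0, hT⟩ := Pool.Agent.H437R2.Man.MW.sel_finite _ (hS₀.union hB)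
  refine ⟨Set.image2 std L (T : Set K), Set.Finite.image2 _ hL T.finite_toSet, ?_⟩
  intro W _ hWL h0 h1 hss
  have hΔ := Δ_ne W
  have hc4 : W.c₄ ≠ 0 := by
    intro hc
    have := j_mul W
    rw [hc, zero_pow (by norm_num), mul_eq_zero] at this
    exact this.elim h0 hΔ
  have hc6 : W.c₆ ≠ 0 := by
    intro hc
    have := j_sub_mul W
    rw [hc, zero_pow (by norm_num), mul_eq_zero, sub_eq_zero] at this
    exact this.elim h1 hΔ
  obtain ⟨t, ht, b, hb, hab⟩ := hT (Units.mk0 (W.c₆ / W.c₄) (div_ne_zero hc6 hc4)) (by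
    intro v hv
    rw [Set.mem_union, not_or] at hv
    have hu : v.valuation K W.j = 1 ∧ v.valuation K (W.j - 1728) = 1 := by
      by_contra hcon
      exact hv.2 (Set.mem_iUnion₂.2 ⟨_, hWL, h0, h1, hcon⟩)
    obtain ⟨u, hu'⟩ := ratio_even (hss v hv.1) hu.1 hu.2
    refine even_of_sq (u := u) ?_
    have hv4 : v.valuation K W.c₄ ≠ 0 := (Valuation.ne_zero_iff _).2 hc4
    rw [Units.val_mk0, map_div₀, hu', mul_div_assoc, div_self hv4, mul_one])
  rw [Units.val_mk0] at hab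
  have h6 : W.c₆ = t * b ^ 2 * W.c₄ := by
    rw [← hab]
    field_simp
  obtain ⟨C, hC⟩ := iso_std W h0 h1 hb h6
  exact ⟨std W.j t, Set.mem_image2_of_mem hWL ht, C, hC⟩

end Pool.Agent.X61.RI
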