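import Pool.Agent.X61.RI.Tup
import Pool.Agent.X61.RI.Twist

/-! Hyperelliptic curves with rational branch points: twists, good and semistable reduction. -/

set_option autoImplicit false

namespace Pool.Agent.X61.RI.Tup

open NumberField IsDedekindDomain
open Pool.Agent.X61.RI (UnitAt int_finite unit_finite even_of_sq)

variable {K : Type} [Field K] [NumberField K]

/-- finitely many normal forms -/
theorem finite_forms {L : Set K} (hL : L.Finite) :
    ∃ F : Set (Σ n : ℕ, Fin n → Fin 2 → K), F.Finite ∧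
      ∀ (n : ℕ) (P : Fin n → Fin 2 → K), 3 ≤ n → Distinct P →
        (∀ i j k l : Fin n, i ≠ j → i ≠ k → i ≠ l → j ≠ k → j ≠ l → k ≠ l →
          cr (P i) (P j) (P k) (P l) ∈ L) →
        ∃ Q, (⟨n, Q⟩ : Σ n : ℕ, Fin n → Fin 2 → K) ∈ F ∧ Isomorphic P Q := by
  classical
  set V : Set (Fin 2 → K) := insert ![1, 0] ((fun x : K => ![x, 1]) '' (L ∪ {0, 1})) with hV
  have hVf : V.Finite := ((hL.union (Set.toFinite _)).image _).insert _
  refine ⟨⋃ n ∈ Set.Iic V.ncard, (fun Q => (⟨n, Q⟩ : Σ n : ℕ, Fin n → Fin 2 → K)) ''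
    {Q : Fin n → Fin 2 → K | ∀ i, Q i ∈ V}, ?_, ?_⟩
  · refine Set.Finite.biUnion (Set.finite_Iic _) fun n _ => Set.Finite.image _ ?_
    exact Set.Finite.pi' fun _ => hVf
  · intro n P hn hP hcr
    obtain ⟨i₀, i₁, i₂, h01, h02, h12⟩ : ∃ i₀ i₁ i₂ : Fin n, i₀ ≠ i₁ ∧ i₀ ≠ i₂ ∧ i₁ ≠ i₂ := by
      refine ⟨⟨0, by omega⟩, ⟨1, by omega⟩, ⟨2, by omega⟩, ?_, ?_, ?_⟩ <;>
      · rw [Ne, Fin.mk.injEq]
        omega
    have hiso := iso_nf hP h01 h02 h12
    have hmem : ∀ i, nf P i₀ i₁ i₂ i ∈ V := by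
      intro i
      unfold nf
      by_cases h0 : i = i₀
      · rw [if_pos h0]
        exact Set.mem_insert _ _
      · rw [if_neg h0]
        refine Set.mem_insert_of_mem _ ⟨_, ?_, rfl⟩
        by_cases h1 : i = i₁
        · rw [h1, cr_zero]
          simp
        · by_cases h2 : i = i₂
          · rw [h2, cr_one (hP _ _ h02.symm) (hP _ _ h12.symm)]
            simp
          · exact Or.inl (hcr i₀ i₁ i₂ i h01 h02 (Ne.symm h0) h12 (Ne.symm h1) (Ne.symm h2))
    refine ⟨nf P i₀ i₁ i₂, ?_, hiso⟩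
    rw [Set.mem_iUnion₂]
    refine ⟨n, ?_, nf P i₀ i₁ i₂, hmem, rfl⟩
    rw [Set.mem_Iic]
    have hd := distinct_iso hP hiso
    have hinj : Function.Injective (nf P i₀ i₁ i₂) := by
      intro i j hij
      by_contra hne
      have := hd i j hne
      rw [hij, det_self] at this
      exact this rfl
    have h1 : (Set.range (nf P i₀ i₁ i₂)).ncard ≤ V.ncard :=
      Set.ncard_le_ncard (by rintro _ ⟨i, rfl⟩; exact hmem i) hVf
    have h2 : (Set.range (nf P i₀ i₁ i₂)).ncard = n := by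
      rw [← Set.image_univ, Set.ncard_image_of_injective _ hinj, Set.ncard_univ, Nat.card_eq_fintype_card,
        Fintype.card_fin]
    omega


/-! ### curves -/

/-- The hyperelliptic curves `y ^ 2 = D ∏ det (P_i, (x, z))` and `y ^ 2 = D' ∏ det (Q_i, (x, z))`,
`n` even, are isomorphic by a map which sends the branch point `P_i` to `Q_i`. -/
def IsoCurve {n : ℕ} (D : K) (P : Fin n → Fin 2 → K) (D' : K) (Q : Fin n → Fin 2 → K) : Prop :=
  ∃ (a b c d e : K) (u : Fin n → K), a * d - b * c ≠ 0 ∧ e ≠ 0 ∧ (∀ i, u i ≠ 0) ∧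
    (∀ i, Q i 0 = u i * (a * P i 0 + b * P i 1) ∧ Q i 1 = u i * (c * P i 0 + d * P i 1)) ∧
    D' * ∏ i, u i = e ^ 2 * D

/-- good reduction at `v` (not above 2): an isomorphic equation which is `v`-integral and has unit
discriminant -/
def GoodCurve {n : ℕ} (v : HeightOneSpectrum (𝓞 K)) (D : K) (P : Fin n → Fin 2 → K) : Prop :=
  ∃ D' Q, IsoCurve D P D' Q ∧ v.valuation K D' = 1 ∧ (∀ i j, v.valuation K (Q i j) ≤ 1) ∧
    ∀ i j, i ≠ j → v.valuation K (det (Q i) (Q j)) = 1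

/-- an isomorphic equation which is `v`-integral and not zero modulo `v`, and such that the right
side has at least three different zeros modulo `v` -/
def SemistableCurve {n : ℕ} (v : HeightOneSpectrum (𝓞 K)) (D : K) (P : Fin n → Fin 2 → K) :
    Prop :=
  ∃ D' Q, IsoCurve D P D' Q ∧ v.valuation K D' = 1 ∧ (∀ i j, v.valuation K (Q i j) ≤ 1) ∧
    (∀ i, ∃ j, v.valuation K (Q i j) = 1) ∧
    ∃ i j k, v.valuation K (det (Q i) (Q j)) = 1 ∧ v.valuation K (det (Q i) (Q k)) = 1 ∧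
      v.valuation K (det (Q j) (Q k)) = 1

omit [NumberField K] in
theorem IsoCurve.trans {n : ℕ} {D D' D'' : K} {P Q R : Fin n → Fin 2 → K}
    (h : IsoCurve D P D' Q) (h' : IsoCurve D' Q D'' R) : IsoCurve D P D'' R := by
  obtain ⟨a, b, c, d, e, u, h1, h2, h3, h4, h5⟩ := h
  obtain ⟨a', b', c', d', e', u', h1', h2', h3', h4', h5'⟩ := h'
  refine ⟨a' * a + b' * c, a' * b + b' * d, c' * a + d' * c, c' * b + d' * d, e' * e,
    fun i => u' i * u i, ?_, mul_ne_zero h2' h2, fun i => mul_ne_zero (h3' i) (h3 i), ?_, ?_⟩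
  · have k : (a' * a + b' * c) * (c' * b + d' * d) - (a' * b + b' * d) * (c' * a + d' * c) =
        (a' * d' - b' * c') * (a * d - b * c) := by ring
    rw [k]
    exact mul_ne_zero h1' h1
  · intro i
    rw [(h4' i).1, (h4' i).2, (h4 i).1, (h4 i).2]
    constructor <;> ring
  · rw [Finset.prod_mul_distrib]
    linear_combination (∏ i, u i) * h5' + e' ^ 2 * h5

omit [NumberField K] in
theorem IsoCurve.symm {n : ℕ} (hn : Even n) {D D' : K} {P Q : Fin n → Fin 2 → K}
    (h : IsoCurve D P D' Q) : IsoCurve D' Q D P := by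
  obtain ⟨a, b, c, d, e, u, h1, h2, h3, h4, h5⟩ := h
  obtain ⟨m, hm⟩ := hn
  have hp : ∏ i, u i ≠ 0 := Finset.prod_ne_zero_iff.2 fun i _ => h3 i
  refine ⟨d, -b, -c, a, (e * (a * d - b * c) ^ m)⁻¹, fun i => (u i * (a * d - b * c))⁻¹, ?_, ?_, ?_,
    ?_, ?_⟩
  · have k : d * a - -b * -c = a * d - b * c := by ring
    rw [k]
    exact h1
  · exact inv_ne_zero (mul_ne_zero h2 (pow_ne_zero _ h1))
  · intro i
    exact inv_ne_zero (mul_ne_zero (h3 i) h1)
  · intro i
    rw [(h4 i).1, (h4 i).2]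
    have k := mul_ne_zero (h3 i) h1
    constructor
    · have e1 : d * (u i * (a * P i 0 + b * P i 1)) + -b * (u i * (c * P i 0 + d * P i 1)) =
          (u i * (a * d - b * c)) * P i 0 := by ring
      rw [e1, inv_mul_cancel_left₀ k]
    · have e1 : -c * (u i * (a * P i 0 + b * P i 1)) + a * (u i * (c * P i 0 + d * P i 1)) =
          (u i * (a * d - b * c)) * P i 1 := by ring
      rw [e1, inv_mul_cancel_left₀ k]
  · have e1 : ∏ i : Fin n, (u i * (a * d - b * c))⁻¹ =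
        ((∏ i, u i) * (a * d - b * c) ^ n)⁻¹ := by
      rw [Finset.prod_inv_distrib, Finset.prod_mul_distrib, Finset.prod_const,
        Finset.card_univ, Fintype.card_fin]
    have h6 : D = D' * (∏ i, u i) / e ^ 2 := by
      rw [h5]
      field_simp
    have hd := pow_ne_zero m h1
    have hpw : (a * d - b * c) ^ n = (a * d - b * c) ^ m * (a * d - b * c) ^ m := by
      rw [← pow_add, ← hm]
    rw [e1, h6, hpw]
    field_simp

omit [NumberField K] in
theorem pluecker (x y z : Fin 2 → K) (j : Fin 2) :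
    det x y * z j = -(det y z) * x j - det z x * y j := by
  unfold det
  fin_cases j
  · show (x 0 * y 1 - x 1 * y 0) * z 0 = -(y 0 * z 1 - y 1 * z 0) * x 0 -
      (z 0 * x 1 - z 1 * x 0) * y 0
    ring
  · show (x 0 * y 1 - x 1 * y 0) * z 1 = -(y 0 * z 1 - y 1 * z 0) * x 1 -
      (z 0 * x 1 - z 1 * x 0) * y 1
    ring

section Mon0

variable {M : Type*} [CommGroupWithZero M]

theorem mon_a {x y z : M} (hx : x ≠ 0) (hz : z ≠ 0) (h1 : x * y * z = 1) {y' : M}
    (h2 : x * y' * z = 1) : y' = y := by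
  have h3 : x * y' * z = x * y * z := by rw [h1, h2]
  exact mul_left_cancel₀ hx (mul_right_cancel₀ hz h3)

end Mon0

/-- **Twists.** -/
theorem even_curve {n : ℕ} (hn : Even n) {v : HeightOneSpectrum (𝓞 K)} {D D' : K}
    {P Q : Fin n → Fin 2 → K} (h : IsoCurve D P D' Q) (hD' : v.valuation K D' = 1)
    (hP : ∀ i j, i ≠ j → v.valuation K (det (P i) (P j)) = 1)
    (hQ : ∀ i j, v.valuation K (Q i j) ≤ 1) (hQ1 : ∀ i, ∃ j, v.valuation K (Q i j) = 1)
    {i j k : Fin n} (hij : v.valuation K (det (Q i) (Q j)) = 1)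
    (hik : v.valuation K (det (Q i) (Q k)) = 1)
    (hjk : v.valuation K (det (Q j) (Q k)) = 1) :
    ∃ w : Kˣ, v.valuation K D = v.valuation K (w : K) ^ 2 := by
  obtain ⟨a, b, c, d, e, u, h1, h2, h3, h4, h5⟩ := h
  set Δ := a * d - b * c with hΔ
  have hΔ0 : v.valuation K Δ ≠ 0 := (Valuation.ne_zero_iff _).2 h1
  have hu0 : ∀ l, v.valuation K (u l) ≠ 0 := fun l => (Valuation.ne_zero_iff _).2 (h3 l)
  have hdet : ∀ r s, det (Q r) (Q s) = u r * u s * Δ * det (P r) (P s) := fun r s => by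
    rw [hΔ]
    exact det_iso h4 r s
  have hne : ∀ {r s : Fin n}, v.valuation K (det (Q r) (Q s)) = 1 → r ≠ s := by
    intro r s h hrs
    rw [hrs, det_self, map_zero] at h
    exact zero_ne_one h
  have hval : ∀ {r s : Fin n}, v.valuation K (det (Q r) (Q s)) = 1 →
      v.valuation K (u r) * v.valuation K (u s) * v.valuation K Δ = 1 := by
    intro r s h
    have hrs := hne h
    rw [hdet, map_mul, map_mul, map_mul, hP r s hrs, mul_one] at h
    exact h
  have ejk : v.valuation K (u k) = v.valuation K (u j) := mon_a (hu0 i) hΔ0 (hval hij) (hval hik)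
  have hji : v.valuation K (det (Q j) (Q i)) = 1 := by
    rw [det_comm, Valuation.map_neg]
    exact hij
  have eik : v.valuation K (u k) = v.valuation K (u i) := mon_a (hu0 j) hΔ0 (hval hji) (hval hjk)
  have eij : v.valuation K (u j) = v.valuation K (u i) := ejk.symm.trans eik
  have hall : ∀ l, v.valuation K (u l) = v.valuation K (u i) := by
    intro l
    -- one of the two determinants is a unit
    have hor : v.valuation K (det (Q i) (Q l)) = 1 ∨ v.valuation K (det (Q j) (Q l)) = 1 := by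
      by_contra hcon
      rw [not_or] at hcon
      have l1 : v.valuation K (det (Q i) (Q l)) < 1 := lt_of_le_of_ne (det_int (hQ i) (hQ l)) hcon.1
      have l2 : v.valuation K (det (Q j) (Q l)) < 1 := lt_of_le_of_ne (det_int (hQ j) (hQ l)) hcon.2
      obtain ⟨s, hs⟩ := hQ1 l
      have k1 := congrArg (v.valuation K) (pluecker (Q i) (Q j) (Q l) s)
      rw [map_mul, hij, one_mul, hs] at k1
      have l3 : v.valuation K (-(det (Q j) (Q l)) * Q i s - det (Q l) (Q i) * Q j s) < 1 := by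
        refine Valuation.map_sub_lt _ ?_ ?_
        · rw [map_mul, Valuation.map_neg]
          exact lt_of_le_of_lt (mul_le_of_le_one_right' (hQ i s)) l2
        · rw [map_mul, det_comm (Q l) (Q i), Valuation.map_neg]
          exact lt_of_le_of_lt (mul_le_of_le_one_right' (hQ j s)) l1
      rw [← k1] at l3
      exact lt_irrefl _ l3
    rcases hor with h | h
    · exact (mon_a (hu0 i) hΔ0 (hval hij) (hval h)).trans eij
    · exact mon_a (hu0 j) hΔ0 (hval hji) (hval h)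
  obtain ⟨m, hm⟩ := hn
  have h6 := congrArg (v.valuation K) h5
  rw [map_mul, hD', one_mul, map_prod, Finset.prod_congr rfl fun l _ => hall l, Finset.prod_const,
    Finset.card_univ, Fintype.card_fin, map_mul, map_pow] at h6
  have he0 : v.valuation K e ≠ 0 := (Valuation.ne_zero_iff _).2 h2
  refine ⟨Units.mk0 (u i ^ m / e) (div_ne_zero (pow_ne_zero _ (h3 i)) h2), ?_⟩
  rw [Units.val_mk0, map_div₀, map_pow, div_pow, ← pow_mul, eq_div_iff (pow_ne_zero _ he0), mul_comm,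
    ← h6, hm]
  congr 1
  ring

omit [NumberField K] in
theorem iso_refl_scale {n : ℕ} {D : K} {P : Fin n → Fin 2 → K} {b : K} (hb : b ≠ 0) {t : K}
    (h : D = t * b ^ 2) : IsoCurve D P t P := by
  refine ⟨1, 0, 0, 1, b⁻¹, fun _ => 1, ?_, inv_ne_zero hb, fun _ => one_ne_zero, ?_, ?_⟩
  · norm_num
  · intro i
    constructor <;> ring
  · rw [Finset.prod_const_one, mul_one, h]
    field_simp

omit [NumberField K] in
theorem iso_of_tuple {n : ℕ} {D : K} {P Q : Fin n → Fin 2 → K} (h : Isomorphic P Q)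
    (hD : D ≠ 0) : ∃ D' : K, D' ≠ 0 ∧ IsoCurve D P D' Q := by
  obtain ⟨a, b, c, d, u, h1, h3, h4⟩ := h
  have hp : ∏ i, u i ≠ 0 := Finset.prod_ne_zero_iff.2 fun i _ => h3 i
  refine ⟨D / ∏ i, u i, div_ne_zero hD hp, a, b, c, d, 1, u, h1, one_ne_zero, h3, h4, ?_⟩
  rw [one_pow, one_mul, div_mul_cancel₀ _ hp]

omit [NumberField K] in
theorem IsoCurve.tuple {n : ℕ} {D D' : K} {P Q : Fin n → Fin 2 → K} (h : IsoCurve D P D' Q) :
    Isomorphic P Q := by
  obtain ⟨a, b, c, d, e, u, h1, h2, h3, h4, h5⟩ := h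
  exact ⟨a, b, c, d, u, h1, h3, h4⟩

theorem GoodCurve.tuple {n : ℕ} {v : HeightOneSpectrum (𝓞 K)} {D : K} {P : Fin n → Fin 2 → K}
    (h : GoodCurve v D P) : GoodAt v P := by
  obtain ⟨D', Q, h1, h2, h3, h4⟩ := h
  exact ⟨Q, h1.tuple, h3, h4⟩

theorem SemistableCurve.of_iso {n : ℕ} (hn : Even n) {v : HeightOneSpectrum (𝓞 K)} {D D₁ : K}
    {P P₁ : Fin n → Fin 2 → K} (h : SemistableCurve v D P) (hi : IsoCurve D P D₁ P₁) :
    SemistableCurve v D₁ P₁ := by
  obtain ⟨D', Q, h1, h2⟩ := h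
  exact ⟨D', Q, (hi.symm hn).trans h1, h2⟩

/-- a semistable twist of a curve with branch points of good reduction has good reduction -/
theorem good_of_semistable {n : ℕ} (hn : Even n) {v : HeightOneSpectrum (𝓞 K)} {D : K}
    {P : Fin n → Fin 2 → K} (hD : D ≠ 0) (h : SemistableCurve v D P) (hg : GoodAt v P) :
    GoodCurve v D P := by
  obtain ⟨Q, hPQ, hQ, hQ1⟩ := hg
  obtain ⟨D₁, hD₁, hi⟩ := iso_of_tuple hPQ hD
  obtain ⟨D', R, k1, k2, k3, k4, i, j, k, k5, k6, k7⟩ := h.of_iso hn hi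
  obtain ⟨w, hw⟩ := even_curve hn k1 k2 hQ1 k3 k4 k5 k6 k7
  have hw0 : (w : K) ≠ 0 := w.ne_zero
  have hvw : v.valuation K (w : K) ≠ 0 := (Valuation.ne_zero_iff _).2 hw0
  refine ⟨D₁ / (w : K) ^ 2, Q, hi.trans (iso_refl_scale hw0 ?_), ?_, hQ, hQ1⟩
  · field_simp
  · rw [map_div₀, map_pow, hw, div_self (pow_ne_zero _ hvw)]

/-- the bad primes of a tuple of coordinates -/
theorem bad_coord_finite {n : ℕ} {Q : Fin n → Fin 2 → K} (hQ : Distinct Q) :
    {v : HeightOneSpectrum (𝓞 K) | ¬ ∀ i j, i ≠ j → v.valuation K (det (Q i) (Q j)) = 1}.Finite := by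
  have h : (⋃ i : Fin n, ⋃ j : Fin n, {v : HeightOneSpectrum (𝓞 K) |
      ¬ (i ≠ j → v.valuation K (det (Q i) (Q j)) = 1)}).Finite := by
    refine Set.finite_iUnion fun i => Set.finite_iUnion fun j => ?_
    by_cases hij : i = j
    · refine Set.finite_empty.subset fun v hv => ?_
      exact hv fun h => absurd hij h
    · exact (unit_finite (hQ i j hij)).subset fun v hv h => hv fun _ => h
  refine h.subset fun v hv => ?_
  by_contra hcon
  simp only [Set.mem_iUnion, not_exists] at hcon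
  apply hv
  intro i j hij
  by_contra h
  exact hcon i j fun h' => h (h' hij)

/-- **Finitely many curves.** -/
theorem curves_finite {F : Set (Σ n : ℕ, Fin n → Fin 2 → K)} (hF : F.Finite)
    {S₀ : Set (HeightOneSpectrum (𝓞 K))} (hS₀ : S₀.Finite) :
    ∃ G : Set (Σ n : ℕ, K × (Fin n → Fin 2 → K)), G.Finite ∧
      ∀ (n : ℕ) (D : K) (P : Fin n → Fin 2 → K), Even n → D ≠ 0 → Distinct P →
        (∃ Q, (⟨n, Q⟩ : Σ n : ℕ, Fin n → Fin 2 → K) ∈ F ∧ Isomorphic P Q) →
        (∀ v, v ∉ S₀ → SemistableCurve v D P) →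
        ∃ D' Q, (⟨n, (D', Q)⟩ : Σ n : ℕ, K × (Fin n → Fin 2 → K)) ∈ G ∧ IsoCurve D P D' Q := by
  classical
  have hB : (⋃ x ∈ F, {v : HeightOneSpectrum (𝓞 K) | Distinct x.2 ∧
      ¬ ∀ i j, i ≠ j → v.valuation K (det (x.2 i) (x.2 j)) = 1}).Finite := by
    refine hF.biUnion fun x _ => ?_
    by_cases hx : Distinct x.2
    · exact (bad_coord_finite hx).subset fun v hv => hv.2
    · exact Set.finite_empty.subset fun v hv => absurd hv.1 hx
  obtain ⟨T, hT0, hT⟩ := Pool.Agent.H437R2.Man.MW.sel_finite _ (hS₀.union hB)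
  refine ⟨Set.image2 (fun (x : Σ n : ℕ, Fin n → Fin 2 → K) (t : K) =>
    (⟨x.1, (t, x.2)⟩ : Σ n : ℕ, K × (Fin n → Fin 2 → K))) F (T : Set K),
    Set.Finite.image2 _ hF T.finite_toSet, ?_⟩
  rintro n D P hn hD hP ⟨Q, hQF, hPQ⟩ hss
  obtain ⟨D₁, hD₁, hi⟩ := iso_of_tuple hPQ hD
  have hQd := distinct_iso hP hPQ
  obtain ⟨t, ht, b, hb, hab⟩ := hT (Units.mk0 D₁ hD₁) (by
    intro v hv
    rw [Set.mem_union, not_or] at hv
    have hQ1 : ∀ i j, i ≠ j → v.valuation K (det (Q i) (Q j)) = 1 := by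
      by_contra hcon
      exact hv.2 (Set.mem_iUnion₂.2 ⟨_, hQF, hQd, hcon⟩)
    obtain ⟨D', R, k1, k2, k3, k4, i, j, k, k5, k6, k7⟩ := (hss v hv.1).of_iso hn hi
    obtain ⟨w, hw⟩ := even_curve hn k1 k2 hQ1 k3 k4 k5 k6 k7
    refine even_of_sq (u := w) ?_
    rw [Units.val_mk0]
    exact hw)
  rw [Units.val_mk0] at hab
  exact ⟨t, Q, ⟨⟨n, Q⟩, hQF, t, ht, rfl⟩, hi.trans (iso_refl_scale hb hab)⟩

end Pool.Agent.X61.RI.Tup
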