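import Pool.Agent.X61.RI.Three
import Pool.Agent.H437R2.Man.MWSel

/-! Elliptic curves with full 2-torsion: good and semistable reduction away from 2. -/

set_option autoImplicit false

namespace Pool.Agent.X61.RI

open NumberField IsDedekindDomain

variable {K : Type} [Field K] [NumberField K]

/-- the three points of order 2 of the curve `W` are defined over `K` -/
def FullTwoTorsion (W : WeierstrassCurve K) : Prop :=
  ∃ a b c : K, ∀ x : K, 4 * x ^ 3 + W.b₂ * x ^ 2 + 2 * W.b₄ * x + W.b₆ =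
    4 * (x - a) * (x - b) * (x - c)

/-- the coefficients are `v`-integral -/
def IntegralAt (v : HeightOneSpectrum (𝓞 K)) (W : WeierstrassCurve K) : Prop :=
  v.valuation K W.a₁ ≤ 1 ∧ v.valuation K W.a₂ ≤ 1 ∧ v.valuation K W.a₃ ≤ 1 ∧
    v.valuation K W.a₄ ≤ 1 ∧ v.valuation K W.a₆ ≤ 1

/-- good reduction at `v`: an integral equation with unit discriminant -/
def GoodAt (v : HeightOneSpectrum (𝓞 K)) (W : WeierstrassCurve K) : Prop :=
  ∃ C : WeierstrassCurve.VariableChange K, IntegralAt v (C • W) ∧ v.valuation K (C • W).Δ = 1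

/-- semistable reduction at `v`: an integral equation such that the discriminant or `c₄` is
a unit -/
def SemistableAt (v : HeightOneSpectrum (𝓞 K)) (W : WeierstrassCurve K) : Prop :=
  ∃ C : WeierstrassCurve.VariableChange K, IntegralAt v (C • W) ∧
    (v.valuation K (C • W).Δ = 1 ∨ v.valuation K (C • W).c₄ = 1)

theorem GoodAt.semistable {v : HeightOneSpectrum (𝓞 K)} {W : WeierstrassCurve K}
    (h : GoodAt v W) : SemistableAt v W := by
  obtain ⟨C, h1, h2⟩ := h
  exact ⟨C, h1, Or.inl h2⟩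

theorem SemistableAt.smul {v : HeightOneSpectrum (𝓞 K)} {W : WeierstrassCurve K}
    (h : SemistableAt v W) (D : WeierstrassCurve.VariableChange K) : SemistableAt v (D • W) := by
  obtain ⟨C, h1, h2⟩ := h
  refine ⟨C * D⁻¹, ?_⟩
  rw [mul_smul, inv_smul_smul]
  exact ⟨h1, h2⟩

/-- the curve `y ^ 2 = x (x - A) (x - B)` -/
def leg (A B : K) : WeierstrassCurve K := ⟨0, -(A + B), 0, A * B, 0⟩

omit [NumberField K] in
theorem leg_Δ (A B : K) : (leg A B).Δ = 16 * (A * B * (A - B)) ^ 2 := by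
  unfold leg WeierstrassCurve.Δ WeierstrassCurve.b₂ WeierstrassCurve.b₄ WeierstrassCurve.b₆
    WeierstrassCurve.b₈
  ring

omit [NumberField K] in
theorem leg_c₄ (A B : K) : (leg A B).c₄ = 16 * (A ^ 2 - A * B + B ^ 2) := by
  unfold leg WeierstrassCurve.c₄ WeierstrassCurve.b₂ WeierstrassCurve.b₄
  ring

theorem coeffs {W : WeierstrassCurve K} {a b c : K}
    (h : ∀ x : K, 4 * x ^ 3 + W.b₂ * x ^ 2 + 2 * W.b₄ * x + W.b₆ =
      4 * (x - a) * (x - b) * (x - c)) :
    W.b₂ = -4 * (a + b + c) ∧ W.b₄ = 2 * (a * b + a * c + b * c) ∧ W.b₆ = -4 * a * b * c := by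
  have k0 := h 0
  have k1 := h 1
  have k2 := h (-1)
  refine ⟨?_, ?_, ?_⟩
  · linear_combination (1 / 2 : K) * k1 + (1 / 2 : K) * k2 - k0
  · linear_combination (1 / 4 : K) * k1 - (1 / 4 : K) * k2
  · linear_combination k0

/-- the curve is isomorphic to `leg (b - a) (c - a)` -/
theorem iso_leg {W : WeierstrassCurve K} {a b c : K}
    (h : ∀ x : K, 4 * x ^ 3 + W.b₂ * x ^ 2 + 2 * W.b₄ * x + W.b₆ =
      4 * (x - a) * (x - b) * (x - c)) :
    ∃ C : WeierstrassCurve.VariableChange K, C • W = leg (b - a) (c - a) := by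
  obtain ⟨h2, h4, h6⟩ := coeffs h
  unfold WeierstrassCurve.b₂ at h2
  unfold WeierstrassCurve.b₄ at h4
  unfold WeierstrassCurve.b₆ at h6
  refine ⟨⟨1, a, -W.a₁ / 2, -(W.a₃ + a * W.a₁) / 2⟩, ?_⟩
  unfold leg
  ext
  · rw [WeierstrassCurve.variableChange_a₁]
    simp only [inv_one, Units.val_one, one_mul]
    ring
  · rw [WeierstrassCurve.variableChange_a₂]
    simp only [inv_one, Units.val_one, one_mul, one_pow]
    linear_combination (1 / 4 : K) * h2
  · rw [WeierstrassCurve.variableChange_a₃]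
    simp only [inv_one, Units.val_one, one_mul, one_pow]
    ring
  · rw [WeierstrassCurve.variableChange_a₄]
    simp only [inv_one, Units.val_one, one_mul, one_pow]
    linear_combination (1 / 2 : K) * h4 + (a / 2 : K) * h2
  · rw [WeierstrassCurve.variableChange_a₆]
    simp only [inv_one, Units.val_one, one_mul, one_pow]
    linear_combination (1 / 4 : K) * h6 + (a / 2 : K) * h4 + (a ^ 2 / 4 : K) * h2

omit [NumberField K] in
/-- twisting by a square -/
theorem leg_sq (A B : K) {w : K} (hw : w ≠ 0) :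
    ∃ C : WeierstrassCurve.VariableChange K, C • leg (w ^ 2 * A) (w ^ 2 * B) = leg A B := by
  refine ⟨⟨Units.mk0 w hw, 0, 0, 0⟩, ?_⟩
  unfold leg
  ext
  · rw [WeierstrassCurve.variableChange_a₁]
    simp
  · rw [WeierstrassCurve.variableChange_a₂]
    simp only [Units.val_inv_eq_inv_val, Units.val_mk0]
    field_simp
    ring
  · rw [WeierstrassCurve.variableChange_a₃]
    simp
  · rw [WeierstrassCurve.variableChange_a₄]
    simp only [Units.val_inv_eq_inv_val, Units.val_mk0]
    field_simp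
    ring
  · rw [WeierstrassCurve.variableChange_a₆]
    simp

/-- `c₄` and the discriminant of an integral equation are integral -/
theorem integral_inv {v : HeightOneSpectrum (𝓞 K)} {W : WeierstrassCurve K}
    (h : IntegralAt v W) : v.valuation K W.c₄ ≤ 1 ∧ v.valuation K W.Δ ≤ 1 := by
  obtain ⟨h1, h2, h3, h4, h6⟩ := h
  set R : Subring K := (v.valuation K).integer with hR
  have m1 : W.a₁ ∈ R := h1
  have m2 : W.a₂ ∈ R := h2
  have m3 : W.a₃ ∈ R := h3
  have m4 : W.a₄ ∈ R := h4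
  have m6 : W.a₆ ∈ R := h6
  have hn : ∀ n : ℕ, (n : K) ∈ R := fun n => natCast_mem R n
  have b2 : W.b₂ ∈ R := by
    unfold WeierstrassCurve.b₂
    exact R.add_mem (R.pow_mem m1 2) (R.mul_mem (by exact_mod_cast hn 4) m2)
  have b4 : W.b₄ ∈ R := by
    unfold WeierstrassCurve.b₄
    exact R.add_mem (R.mul_mem (by exact_mod_cast hn 2) m4) (R.mul_mem m1 m3)
  have b6 : W.b₆ ∈ R := by
    unfold WeierstrassCurve.b₆
    exact R.add_mem (R.pow_mem m3 2) (R.mul_mem (by exact_mod_cast hn 4) m6)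
  have b8 : W.b₈ ∈ R := by
    unfold WeierstrassCurve.b₈
    refine R.sub_mem (R.add_mem (R.sub_mem (R.add_mem (R.mul_mem (R.pow_mem m1 2) m6) ?_) ?_) ?_)
      (R.pow_mem m4 2)
    · exact R.mul_mem (R.mul_mem (by exact_mod_cast hn 4) m2) m6
    · exact R.mul_mem (R.mul_mem m1 m3) m4
    · exact R.mul_mem m2 (R.pow_mem m3 2)
  refine ⟨?_, ?_⟩
  · have : W.c₄ ∈ R := by
      unfold WeierstrassCurve.c₄
      exact R.sub_mem (R.pow_mem b2 2) (R.mul_mem (by exact_mod_cast hn 24) b4)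
    exact this
  · have : W.Δ ∈ R := by
      unfold WeierstrassCurve.Δ
      refine R.add_mem (R.sub_mem (R.sub_mem (R.mul_mem (R.neg_mem (R.pow_mem b2 2)) b8) ?_) ?_) ?_
      · exact R.mul_mem (by exact_mod_cast hn 8) (R.pow_mem b4 3)
      · exact R.mul_mem (by exact_mod_cast hn 27) (R.pow_mem b6 2)
      · exact R.mul_mem (R.mul_mem (R.mul_mem (by exact_mod_cast hn 9) b2) b4) b6
    exact this

/-- the `j`-invariant of the curve with the parameter `x` of Legendre -/
noncomputable def jL (x : K) : K := 256 * (x ^ 2 - x + 1) ^ 3 / (x ^ 2 * (x - 1) ^ 2)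

theorem unitAt_of_j {v : HeightOneSpectrum (𝓞 K)} (h2 : v.valuation K 2 = 1) {x : K}
    (hx : x ≠ 0 ∧ x ≠ 1) (h : v.valuation K (jL x) ≤ 1) : UnitAt v x := by
  have hx0 : v.valuation K x ≠ 0 := (Valuation.ne_zero_iff _).2 hx.1
  have hx1 : v.valuation K (x - 1) ≠ 0 := (Valuation.ne_zero_iff _).2 (sub_ne_zero.2 hx.2)
  have h256 : v.valuation K 256 = 1 := by
    have : (256 : K) = 2 ^ 8 := by norm_num
    rw [this, map_pow, h2, one_pow]
  have hj : v.valuation K (jL x) = v.valuation K (x ^ 2 - x + 1) ^ 3 /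
      (v.valuation K x ^ 2 * v.valuation K (x - 1) ^ 2) := by
    unfold jL
    rw [map_div₀, map_mul, map_mul, map_pow, map_pow, map_pow, h256, one_mul]
  rw [hj] at h
  have hpos : 0 < v.valuation K x ^ 2 * v.valuation K (x - 1) ^ 2 :=
    zero_lt_iff.2 (mul_ne_zero (pow_ne_zero _ hx0) (pow_ne_zero _ hx1))
  rw [div_le_one₀ hpos] at h
  have e3 : x ^ 2 - x + 1 = x * (x - 1) + 1 := by ring
  have e4 : x - 1 = x + -1 := sub_eq_add_neg x 1
  have em : v.valuation K (-1) = 1 := by rw [Valuation.map_neg, map_one]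
  have hle : v.valuation K x ≤ 1 := by
    by_contra hcon
    rw [not_le] at hcon
    have e1 : v.valuation K (x - 1) = v.valuation K x := by
      rw [e4]
      exact Valuation.map_add_eq_of_lt_left _ (by rw [em]; exact hcon)
    have e2 : v.valuation K (x ^ 2 - x + 1) = v.valuation K x ^ 2 := by
      have e5 : v.valuation K (x * (x - 1)) = v.valuation K x ^ 2 := by rw [map_mul, e1, sq]
      rw [e3, ← e5]
      refine Valuation.map_add_eq_of_lt_left _ ?_
      rw [e5, map_one]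
      exact one_lt_pow₀ hcon two_ne_zero
    rw [e1, e2, ← pow_mul, ← pow_add] at h
    exact absurd h (not_le.2 (pow_lt_pow_right₀ hcon (by norm_num)))
  have hle1 : v.valuation K (x - 1) ≤ 1 := by
    rw [e4]
    exact (Valuation.map_add _ _ _).trans (max_le hle em.le)
  have key : v.valuation K (x * (x - 1)) < 1 → v.valuation K (x ^ 2 - x + 1) = 1 := by
    intro hlt
    rw [e3, ← map_one (v.valuation K)]
    exact Valuation.map_add_eq_of_lt_right _ (by rw [map_one]; exact hlt)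
  have hx1' : v.valuation K x = 1 := by
    refine le_antisymm hle (not_lt.1 fun hlt => ?_)
    have e1 : v.valuation K (x - 1) = 1 := by
      rw [e4, ← em]
      exact Valuation.map_add_eq_of_lt_right _ (by rw [em]; exact hlt)
    rw [e1, key (by rw [map_mul, e1, mul_one]; exact hlt), one_pow, one_pow, mul_one] at h
    exact absurd h (not_le.2 (pow_lt_one₀ zero_le hlt (by norm_num)))
  refine ⟨hx1', le_antisymm hle1 (not_lt.1 fun hlt => ?_)⟩
  rw [hx1', key (by rw [map_mul, hx1', one_mul]; exact hlt), one_pow, one_pow, one_mul] at h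
  exact absurd h (not_le.2 (pow_lt_one₀ zero_le hlt (by norm_num)))

section Mon

variable {M : Type*} [CommMonoid M]

theorem mon1 (a : M) : (a * a * a) ^ 2 = a ^ 6 := by
  rw [← sq, ← pow_succ, ← pow_mul]

theorem mon2 (t a : M) : t ^ 12 * a ^ 6 = (t ^ 2 * a) ^ 6 := by
  rw [mul_pow, ← pow_mul]

theorem mon3 (t a : M) : t ^ 4 * a ^ 2 = (t ^ 2 * a) ^ 2 := by
  rw [mul_pow, ← pow_mul]

theorem mon4 (t s a : M) : (t * s) ^ 2 * a = t ^ 2 * a * s ^ 2 := by
  rw [mul_pow, mul_assoc, mul_comm (s ^ 2), ← mul_assoc]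

theorem mon5 (t a : M) : t ^ 4 * (a * a) = (t ^ 2 * a) ^ 2 := by
  rw [mul_pow, ← pow_mul, ← sq]

theorem mon6 (t c : M) : t ^ 12 * c ^ 3 = (t ^ 4 * c) ^ 3 := by
  rw [mul_pow, ← pow_mul]

end Mon

section Val

variable {v : HeightOneSpectrum (𝓞 K)} {A B : K}

theorem val16 (h2 : v.valuation K 2 = 1) : v.valuation K 16 = 1 := by
  have : (16 : K) = 2 ^ 4 := by norm_num
  rw [this, map_pow, h2, one_pow]

theorem val_B (hA : A ≠ 0) (hu : UnitAt v (B / A)) : v.valuation K B = v.valuation K A := by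
  have h1 := hu.1
  rw [map_div₀, div_eq_one_iff_eq ((Valuation.ne_zero_iff _).2 hA)] at h1
  exact h1

theorem val_sub (hA : A ≠ 0) (hu : UnitAt v (B / A)) :
    v.valuation K (A - B) = v.valuation K A := by
  have h1 := hu.2
  have e : A - B = -(A * (B / A - 1)) := by
    field_simp
    ring
  rw [e, Valuation.map_neg, map_mul, h1, mul_one]

theorem val_Δ (h2 : v.valuation K 2 = 1) (hA : A ≠ 0) (hu : UnitAt v (B / A)) :
    v.valuation K (leg A B).Δ = v.valuation K A ^ 6 := by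
  rw [leg_Δ, map_mul, val16 h2, one_mul, map_pow, map_mul, map_mul, val_B hA hu, val_sub hA hu]
  exact mon1 _

theorem val_c₄ (h2 : v.valuation K 2 = 1) (hA : A ≠ 0) (hu : UnitAt v (B / A)) :
    v.valuation K (leg A B).c₄ ≤ v.valuation K A ^ 2 := by
  rw [leg_c₄, map_mul, val16 h2, one_mul]
  have hB := val_B hA hu
  refine Valuation.map_add_le _ (Valuation.map_sub_le _ ?_ ?_) ?_
  · rw [map_pow]
  · rw [map_mul, hB, sq]
  · rw [map_pow, hB]

/-- semistable reduction away from 2, if the parameter is a unit and not `1` modulo `v` -/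
theorem even_of_semistable (h2 : v.valuation K 2 = 1) (hA : A ≠ 0) (hu : UnitAt v (B / A))
    (hs : SemistableAt v (leg A B)) : ∃ u : Kˣ, v.valuation K A = v.valuation K (u : K) ^ 2 := by
  obtain ⟨C, hint, hor⟩ := hs
  obtain ⟨hc, hΔ⟩ := integral_inv hint
  rw [WeierstrassCurve.variableChange_Δ, map_mul, map_pow, val_Δ h2 hA hu] at hΔ hor
  rw [WeierstrassCurve.variableChange_c₄, map_mul, map_pow] at hc hor
  set t := v.valuation K ((C.u⁻¹ : Kˣ) : K) with ht
  set z := t ^ 2 * v.valuation K A with hz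
  have e1 : t ^ 12 * v.valuation K A ^ 6 = z ^ 6 := mon2 _ _
  rw [e1] at hΔ hor
  have hz1 : z ≤ 1 := by
    by_contra hcon
    exact absurd hΔ (not_le.2 (one_lt_pow₀ (not_le.1 hcon) (by norm_num)))
  have hz2 : 1 ≤ z := by
    by_contra hcon
    rw [not_le] at hcon
    rcases hor with h1 | h1
    · exact absurd h1 (pow_lt_one₀ zero_le hcon (by norm_num)).ne
    · have h3 : t ^ 4 * v.valuation K (leg A B).c₄ ≤ z ^ 2 := by
        calc t ^ 4 * v.valuation K (leg A B).c₄ ≤ t ^ 4 * v.valuation K A ^ 2 :=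
              mul_le_mul_right (val_c₄ h2 hA hu) _
          _ = z ^ 2 := mon3 _ _
      rw [h1] at h3
      exact absurd h3 (not_le.2 (pow_lt_one₀ zero_le hcon (by norm_num)))
  have hz3 : z = 1 := le_antisymm hz1 hz2
  refine ⟨C.u, ?_⟩
  have ht2 : t * v.valuation K (C.u : K) = 1 := by
    rw [ht, ← map_mul, Units.inv_mul, map_one]
  calc v.valuation K A = (t * v.valuation K (C.u : K)) ^ 2 * v.valuation K A := by
        rw [ht2, one_pow, one_mul]
    _ = z * v.valuation K (C.u : K) ^ 2 := mon4 _ _ _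
    _ = v.valuation K (C.u : K) ^ 2 := by rw [hz3, one_mul]

/-- conversely -/
theorem good_of_even (h2 : v.valuation K 2 = 1) (hA : A ≠ 0) (hu : UnitAt v (B / A)) (u : Kˣ)
    (h : v.valuation K A = v.valuation K (u : K) ^ 2) : GoodAt v (leg A B) := by
  have ht2 : v.valuation K ((u⁻¹ : Kˣ) : K) * v.valuation K (u : K) = 1 := by
    rw [← map_mul, Units.inv_mul, map_one]
  set t := v.valuation K ((u⁻¹ : Kˣ) : K) with ht
  have hz : t ^ 2 * v.valuation K A = 1 := by
    rw [h, ← mul_pow, ht2, one_pow]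
  have hB := val_B hA hu
  refine ⟨⟨u, 0, 0, 0⟩, ⟨?_, ?_, ?_, ?_, ?_⟩, ?_⟩
  · rw [WeierstrassCurve.variableChange_a₁]
    simp [leg]
  · rw [WeierstrassCurve.variableChange_a₂]
    have e : (leg A B).a₂ - 0 * (leg A B).a₁ + 3 * 0 - 0 ^ 2 = -(A + B) := by
      unfold leg
      ring
    show v.valuation K (((u⁻¹ : Kˣ) : K) ^ 2 *
      ((leg A B).a₂ - 0 * (leg A B).a₁ + 3 * 0 - 0 ^ 2)) ≤ 1
    rw [e, map_mul, map_pow, Valuation.map_neg, ← ht]
    calc t ^ 2 * v.valuation K (A + B) ≤ t ^ 2 * v.valuation K A :=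
          mul_le_mul_right (Valuation.map_add_le _ le_rfl hB.le) _
      _ = 1 := hz
      _ ≤ 1 := le_rfl
  · rw [WeierstrassCurve.variableChange_a₃]
    simp [leg]
  · rw [WeierstrassCurve.variableChange_a₄]
    have e : (leg A B).a₄ - 0 * (leg A B).a₃ + 2 * 0 * (leg A B).a₂ -
        (0 + 0 * 0) * (leg A B).a₁ + 3 * 0 ^ 2 - 2 * 0 * 0 = A * B := by
      unfold leg
      ring
    show v.valuation K (((u⁻¹ : Kˣ) : K) ^ 4 * ((leg A B).a₄ - 0 * (leg A B).a₃ +
      2 * 0 * (leg A B).a₂ - (0 + 0 * 0) * (leg A B).a₁ + 3 * 0 ^ 2 - 2 * 0 * 0)) ≤ 1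
    rw [e, map_mul, map_pow, map_mul, hB, ← ht]
    have : t ^ 4 * (v.valuation K A * v.valuation K A) = (t ^ 2 * v.valuation K A) ^ 2 := mon5 _ _
    rw [this, hz, one_pow]
  · rw [WeierstrassCurve.variableChange_a₆]
    simp [leg]
  · rw [WeierstrassCurve.variableChange_Δ, map_mul, map_pow, val_Δ h2 hA hu]
    show t ^ 12 * v.valuation K A ^ 6 = 1
    have : t ^ 12 * v.valuation K A ^ 6 = (t ^ 2 * v.valuation K A) ^ 6 := mon2 _ _
    rw [this, hz, one_pow]

/-- good reduction away from 2: the parameter is a unit and not `1` modulo `v` -/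
theorem unit_of_good (h2 : v.valuation K 2 = 1) (hA : A ≠ 0) (hB : B ≠ 0) (hAB : A ≠ B)
    (hg : GoodAt v (leg A B)) : UnitAt v (B / A) := by
  obtain ⟨C, hint, h1⟩ := hg
  have hc := (integral_inv hint).1
  rw [WeierstrassCurve.variableChange_Δ, map_mul, map_pow] at h1
  rw [WeierstrassCurve.variableChange_c₄, map_mul, map_pow] at hc
  set t := v.valuation K ((C.u⁻¹ : Kˣ) : K) with ht
  have ht0 : t ≠ 0 := (Valuation.ne_zero_iff _).2 (Units.ne_zero _)
  refine unitAt_of_j h2 ⟨div_ne_zero hB hA, fun h => hAB ?_⟩ ?_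
  · rw [div_eq_one_iff_eq hA] at h
    exact h.symm
  · have hne : A - B ≠ 0 := sub_ne_zero.2 hAB
    have hΔ0 : (leg A B).Δ ≠ 0 := by
      rw [leg_Δ]
      exact mul_ne_zero (by norm_num) (pow_ne_zero _ (mul_ne_zero (mul_ne_zero hA hB) hne))
    have e : jL (B / A) = (leg A B).c₄ ^ 3 / (leg A B).Δ := by
      have e1 : B / A - 1 = -(A - B) / A := by
        field_simp
        ring
      unfold jL
      rw [leg_Δ, leg_c₄, e1]
      field_simp
      ring
    have hv0 : 0 < v.valuation K (leg A B).Δ := zero_lt_iff.2 ((Valuation.ne_zero_iff _).2 hΔ0)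
    rw [e, map_div₀, map_pow, div_le_one₀ hv0]
    have h3 : t ^ 12 * v.valuation K (leg A B).c₄ ^ 3 ≤
        t ^ 12 * v.valuation K (leg A B).Δ := by
      rw [h1]
      calc t ^ 12 * v.valuation K (leg A B).c₄ ^ 3 =
            (t ^ 4 * v.valuation K (leg A B).c₄) ^ 3 := mon6 _ _
        _ ≤ 1 := pow_le_one₀ zero_le hc
    exact le_of_mul_le_mul_left h3 (zero_lt_iff.2 (pow_ne_zero _ ht0))

end Val

end Pool.Agent.X61.RI
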