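import Pool.Agent.X61.RI.BC
import Pool.Agent.Y911.US.Exc

/-! Points of the projective line over a number field, off `q` points, whose support is composed
of the primes of a random set. -/

set_option autoImplicit false

namespace Pool.Agent.X61.RI

open NumberField IsDedekindDomain Finset MeasureTheory ProbabilityTheory
open Pool.Agent.H691R3 Pool.Agent.TH876.Loc Pool.Agent.Y911.RR
open Pool.Agent.Y911.US (ht ht_nonneg exc_count two_pow_sum)

variable {K : Type} [Field K] [NumberField K]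

theorem countable_field (K : Type) [Field K] [NumberField K] : Countable K :=
  (Module.finBasis ℚ K).equivFun.injective.countable

instance countable_off {q : ℕ} (A : Fin q → Projectivization K (Fin 2 → K)) :
    Countable (Off A) := by
  have := countable_field K
  have : Countable (Projectivization K (Fin 2 → K)) :=
    Function.Injective.countable (f := fun P : Projectivization K (Fin 2 → K) => P.rep)
      fun P Q h => by
        have h' : P.rep = Q.rep := h
        rw [← P.mk_rep, ← Q.mk_rep, Projectivization.mk_eq_mk_iff']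
        exact ⟨1, by rw [one_smul, h']⟩
  exact Subtype.countable

/-- the norms of the complement of a finite set in the support -/
theorem sdiff_bound [DecidableEq (Pr K)] (S₀ s : Finset (Pr K)) {τ : ℝ} (hτ : 0 ≤ τ) :
    (nn (s \ S₀)) ^ (-τ) ≤ (nn S₀) ^ τ * (nn s) ^ (-τ) := by
  have h0 := nn_pos S₀
  have h1 := nn_pos s
  have h2 := nn_pos (s \ S₀)
  have h3 : nn s ≤ nn S₀ * nn (s \ S₀) := by
    rw [← nn_union disjoint_sdiff]
    exact nn_mono (by
      rw [union_sdiff_self_eq_union]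
      exact subset_union_right)
  rw [Real.rpow_neg h2.le, Real.rpow_neg h1.le, ← div_eq_mul_inv, inv_eq_one_div,
    div_le_div_iff₀ (by positivity) (by positivity), one_mul, ← Real.mul_rpow h0.le h2.le]
  exact Real.rpow_le_rpow h1.le h3 hτ

variable {Ω : Type*} [MeasurableSpace Ω] {μ : Measure Ω} {E : Pr K → Set Ω} {τ : ℝ} {q : ℕ}

theorem inter_nn (hi : iIndepSet E μ)
    (hE : ∀ v, μ (E v) ≤ ENNReal.ofReal ((Nv v) ^ (-τ))) (J : Finset (Pr K)) :
    μ (⋂ v ∈ J, E v) ≤ ENNReal.ofReal ((nn J) ^ (-τ)) :=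
  inter_le (fun v => Nv_pos v) hi hE J

/-- **Finiteness.** -/
theorem line_finite (hq : 3 ≤ q) (A : Fin q → Projectivization K (Fin 2 → K))
    (hA : Function.Injective A) (S₀ : Finset (Pr K)) (hτ : 2 / (q : ℝ) < τ)
    (hi : iIndepSet E μ) (hE : ∀ v, μ (E v) ≤ ENNReal.ofReal ((Nv v) ^ (-τ))) :
    ∀ᵐ ω ∂μ, {P : Off A | ∀ v ∈ spA A P, v ∈ S₀ ∨ ω ∈ E v}.Finite := by
  classical
  have hτ0 : 0 < τ := lt_of_le_of_lt (by positivity) hτ
  obtain ⟨D, hD, hb⟩ := off_dec hq A hA τ hτ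
  have h := ae_finite (μ := μ) (B := fun P : Off A => ⋂ v ∈ spA A P \ S₀, E v)
    (f := fun P => (nn S₀) ^ τ * (nn (spA A P)) ^ (-τ)) (D := (nn S₀) ^ τ * D)
    (fun P => by
      have := nn_pos S₀
      have := nn_pos (spA A P)
      positivity)
    (fun P => (inter_nn hi hE _).trans (ENNReal.ofReal_le_ofReal (sdiff_bound _ _ hτ0.le)))
    (fun F => by
      rw [← mul_sum]
      exact mul_le_mul_of_nonneg_left (hb F) (Real.rpow_nonneg (nn_pos _).le _))
  filter_upwards [h] with ω hω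
  refine hω.subset fun P hP => ?_
  show ω ∈ ⋂ v ∈ spA A P \ S₀, E v
  rw [Set.mem_iInter₂]
  intro v hv
  rw [mem_sdiff] at hv
  exact (hP v hv.1).resolve_left hv.2

/-- **The large primes of the random set do not matter, with probability close to one.** -/
theorem line_small (hq : 3 ≤ q) (A : Fin q → Projectivization K (Fin 2 → K))
    (hA : Function.Injective A) (S₀ : Finset (Pr K)) {δ : ℝ} (hδ : 0 < δ)
    (hδτ : δ < τ - 2 / (q : ℝ)) : ∃ C : ℝ, 0 < C ∧
    ∀ {Ω : Type} [MeasurableSpace Ω] (μ : Measure Ω) (E : Pr K → Set Ω), iIndepSet E μ →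
      (∀ v, μ (E v) ≤ ENNReal.ofReal ((Nv v) ^ (-τ))) → ∀ R : ℝ, 0 < R →
      μ {ω | ∃ P : Off A, (∀ v ∈ spA A P, v ∈ S₀ ∨ (R ≤ Nv v ∧ ω ∈ E v)) ∧
        ∃ v ∈ spA A P, v ∉ S₀} ≤ ENNReal.ofReal (C * R ^ (-δ)) := by
  classical
  obtain ⟨D, hD, hb⟩ := off_dec hq A hA (τ - δ) (by linarith)
  have hτδ : 0 < τ - δ := by
    have : 0 ≤ 2 / (q : ℝ) := by positivity
    linarith
  refine ⟨(nn S₀) ^ (τ - δ) * D, mul_pos (Real.rpow_pos_of_pos (nn_pos _) _) hD, ?_⟩
  intro Ω _ μ E hi hE R hR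
  have h := exists_le (μ := μ)
    (B := fun P : Off A => if (∀ v ∈ spA A P \ S₀, R ≤ Nv v) ∧ (spA A P \ S₀).Nonempty then
      ⋂ v ∈ spA A P \ S₀, E v else ∅)
    (f := fun P => R ^ (-δ) * ((nn S₀) ^ (τ - δ) * (nn (spA A P)) ^ (-(τ - δ))))
    (D := R ^ (-δ) * ((nn S₀) ^ (τ - δ) * D))
    (fun P => by
      have := nn_pos S₀
      have := nn_pos (spA A P)
      positivity)
    (fun P => by
      split_ifs with h
      · refine (inter_nn hi hE _).trans (ENNReal.ofReal_le_ofReal ?_)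
        obtain ⟨v, hv⟩ := h.2
        have h1 : R ≤ nn (spA A P \ S₀) := (h.1 v hv).trans (Nv_le_nn hv)
        have h2 := nn_pos (spA A P \ S₀)
        calc (nn (spA A P \ S₀)) ^ (-τ)
            = (nn (spA A P \ S₀)) ^ (-δ) * (nn (spA A P \ S₀)) ^ (-(τ - δ)) := by
              rw [← Real.rpow_add h2]
              ring_nf
          _ ≤ R ^ (-δ) * ((nn S₀) ^ (τ - δ) * (nn (spA A P)) ^ (-(τ - δ))) :=
              mul_le_mul (Real.rpow_le_rpow_of_nonpos hR h1 (by linarith))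
                (sdiff_bound _ _ hτδ.le) (by positivity) (by positivity)
      · rw [measure_empty]
        exact zero_le)
    (fun F => by
      rw [← mul_sum, ← mul_sum]
      refine mul_le_mul_of_nonneg_left ?_ (by positivity)
      exact mul_le_mul_of_nonneg_left (hb F) (Real.rpow_nonneg (nn_pos _).le _))
  refine (measure_mono ?_).trans (h.trans (le_of_eq (by ring_nf)))
  rintro ω ⟨P, hP, v, hv, hv'⟩
  refine ⟨P, ?_⟩
  have hc : (∀ v ∈ spA A P \ S₀, R ≤ Nv v) ∧ (spA A P \ S₀).Nonempty := by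
    refine ⟨fun w hw => ?_, ⟨v, mem_sdiff.2 ⟨hv, hv'⟩⟩⟩
    rw [mem_sdiff] at hw
    exact ((hP w hw.1).resolve_left hw.2).1
  rw [if_pos hc, Set.mem_iInter₂]
  intro w hw
  rw [mem_sdiff] at hw
  exact ((hP w hw.1).resolve_left hw.2).2

open Classical in
/-- **The part of the support composed of the random primes.** -/
theorem line_part (hq : 3 ≤ q) (A : Fin q → Projectivization K (Fin 2 → K))
    (hA : Function.Injective A) {κ : ℝ} (hτ : 0 < τ) (hκ : 2 / (q : ℝ) < κ * τ)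
    (hi : iIndepSet E μ) (hE : ∀ v, μ (E v) ≤ ENNReal.ofReal ((Nv v) ^ (-τ))) :
    ∀ᵐ ω ∂μ, {P : Off A | (nn (spA A P)) ^ κ ≤
      nn ((spA A P).filter (fun v => ω ∈ E v))}.Finite := by
  obtain ⟨D, hD, hb⟩ := off_dec hq A hA ((2 / q + κ * τ) / 2) (by linarith)
  obtain ⟨D', hD', hb'⟩ := two_pow_sum K (spA A) (θ := κ * τ) (by linarith) hD hb
  exact ae_finite (μ := μ)
    (B := fun P : Off A => {ω | (nn (spA A P)) ^ κ ≤ nn ((spA A P).filter (fun v => ω ∈ E v))})
    (f := fun P => 2 ^ (spA A P).card * (nn (spA A P)) ^ (-(κ * τ))) (D := D')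
    (fun P => by
      have := nn_pos (spA A P)
      positivity)
    (fun P => by
      have h0 := nn_pos (spA A P)
      refine (part_le (fun v => Nv_pos v) hi hτ.le hE (spA A P)
        (Z := (nn (spA A P)) ^ κ) (by positivity)).trans (le_of_eq ?_)
      rw [← Real.rpow_mul h0.le]
      ring_nf)
    hb'

/-- **The points for which the inequality fails.** -/
theorem line_exc (hq : 3 ≤ q) (A : Fin q → Projectivization K (Fin 2 → K))
    (hA : Function.Injective A) (S₀ : Finset (Pr K)) {κ : ℝ} (hκ : 0 < κ) :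
    ∃ ν : ℝ, 0 < ν ∧ ∀ {Ω : Type} [MeasurableSpace Ω] (μ : Measure Ω) (E : Pr K → Set Ω) (τ : ℝ),
      2 / (q : ℝ) - ν < τ → iIndepSet E μ →
      (∀ v, μ (E v) ≤ ENNReal.ofReal ((Nv v) ^ (-τ))) →
      ∀ᵐ ω ∂μ, {P : Off A | (∀ v ∈ spA A P, v ∈ S₀ ∨ ω ∈ E v) ∧
        Real.log (nn (spA A P)) ≤ ((q : ℝ) - κ) * ht P.1}.Finite := by
  classical
  have hq3 : (3 : ℝ) ≤ q := by exact_mod_cast hq
  obtain ⟨e, he⟩ : ∃ e : ℝ, e = min κ 1 := ⟨_, rfl⟩
  have he0 : 0 < e := by rw [he]; exact lt_min hκ one_pos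
  have he1 : e ≤ κ := by rw [he]; exact min_le_left _ _
  have he2 : e ≤ 1 := by rw [he]; exact min_le_right _ _
  have hqe : 0 < (q : ℝ) - e := by linarith
  obtain ⟨M, hMdef⟩ : ∃ M : ℝ, M = 1 / ((q : ℝ) - e) := ⟨_, rfl⟩
  have hM : 1 / (q : ℝ) < M := by
    rw [hMdef]
    exact one_div_lt_one_div_of_lt hqe (by linarith)
  obtain ⟨ν₀, C₀, hν₀, hν₀q, hC₀, hcount⟩ := exc_count hq A hA hM
  have h21 : 2 / (q : ℝ) = 2 * (1 / q) := by ring
  have h1q : 0 < 1 / (q : ℝ) := by positivity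
  refine ⟨ν₀ / 2, by positivity, ?_⟩
  intro Ω _ μ E τ hτ hi hE
  have hτ0 : 0 < τ := by linarith
  obtain ⟨D₁, hD₁, hb₁⟩ := dyadic_sum
    (T := {P : Off A // M * Real.log (nn (spA A P)) ≤ ht P.1}) (fun t => nn (spA A t.1))
    (fun t => one_le_nn _) (α := 2 / (q : ℝ) - ν₀) (θ := τ) (C := C₀)
    (by linarith) (by linarith) hC₀ (fun X hX F hF => by
      have h1 := hcount X hX (F.image fun t => t.1)
        (fun P hP => by
          obtain ⟨t, _, rfl⟩ := mem_image.1 hP
          exact t.2)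
        (fun P hP => by
          obtain ⟨t, ht', rfl⟩ := mem_image.1 hP
          exact hF t ht')
      rw [card_image_of_injective F Subtype.val_injective] at h1
      exact h1)
  have h := ae_finite (μ := μ)
    (B := fun t : {P : Off A // M * Real.log (nn (spA A P)) ≤ ht P.1} =>
      ⋂ v ∈ spA A t.1 \ S₀, E v)
    (f := fun t => (nn S₀) ^ τ * (nn (spA A t.1)) ^ (-τ)) (D := (nn S₀) ^ τ * D₁)
    (fun P => by
      have := nn_pos S₀
      have := nn_pos (spA A P.1)
      positivity)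
    (fun P => (inter_nn hi hE _).trans (ENNReal.ofReal_le_ofReal (sdiff_bound _ _ hτ0.le)))
    (fun F => by
      rw [← mul_sum]
      exact mul_le_mul_of_nonneg_left (hb₁ F) (Real.rpow_nonneg (nn_pos _).le _))
  filter_upwards [h] with ω hω
  refine (hω.image Subtype.val).subset ?_
  rintro P ⟨hP, hP2⟩
  have hexc : M * Real.log (nn (spA A P)) ≤ ht P.1 := by
    rw [hMdef, one_div, inv_mul_le_iff₀ hqe]
    refine hP2.trans ?_
    exact mul_le_mul_of_nonneg_right (by linarith) (ht_nonneg _)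
  refine ⟨⟨P, hexc⟩, ?_, rfl⟩
  show ω ∈ ⋂ v ∈ spA A P \ S₀, E v
  rw [Set.mem_iInter₂]
  intro v hv
  rw [mem_sdiff] at hv
  exact (hP v hv.1).resolve_left hv.2

end Pool.Agent.X61.RI
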