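import Pool.Agent.X61.RI.Sum

/-! The points ordered by the part of their support outside a random set of primes. -/

set_option autoImplicit false

namespace Pool.Agent.X61.RI

open NumberField IsDedekindDomain Finset MeasureTheory ProbabilityTheory
open Pool.Agent.H691R3 Pool.Agent.TH876.Loc Pool.Agent.Y911.RR
open Pool.Agent.Y911.US (two_pow_sum)

variable {K : Type} [Field K] [NumberField K]
variable {Ω : Type*} [MeasurableSpace Ω] {μ : Measure Ω} {E : Pr K → Set Ω} {τ : ℝ} {q : ℕ}

open Classical in
/-- the part of a set of primes outside `S₀` and the random set -/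
noncomputable def outP (S₀ : Finset (Pr K)) (E : Pr K → Set Ω) (ω : Ω) (s : Finset (Pr K)) :
    Finset (Pr K) := s.filter (fun v => v ∉ S₀ ∧ ω ∉ E v)

open Classical in
/-- **The series over all points of the norm of the outer part of the support.** -/
theorem outer_sum (hq : 3 ≤ q) (A : Fin q → Projectivization K (Fin 2 → K))
    (hA : Function.Injective A) (S₀ : Finset (Pr K)) {θ : ℝ} (hθ : 2 / (q : ℝ) < θ)
    (hθτ : θ ≤ τ) (hi : iIndepSet E μ) (hm : ∀ v, MeasurableSet (E v))
    (hE : ∀ v, μ (E v) ≤ ENNReal.ofReal ((Nv v) ^ (-τ))) :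
    ∀ᵐ ω ∂μ, ∃ C : ℝ, ∀ F : Finset (Off A),
      ∑ P ∈ F, (nn (outP S₀ E ω (spA A P))) ^ (-θ) ≤ C := by
  have hθ0 : 0 < θ := lt_of_le_of_lt (by positivity) hθ
  obtain ⟨D, hD, hb⟩ := off_dec hq A hA ((2 / q + θ) / 2) (by linarith)
  obtain ⟨D', hD', hb'⟩ := two_pow_sum K (spA A) (θ := θ) (by linarith) hD hb
  have hcv : Countable (Pr K) := by
    have := countable_field K
    have h1 : Countable (Ideal (𝓞 K)) := by
      have : Countable (𝓞 K) := Subtype.countable
      exact Function.Injective.countable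
        (f := fun I : Ideal (𝓞 K) => (IsNoetherian.noetherian I).choose)
        (fun I J h => by
          have hI := (IsNoetherian.noetherian I).choose_spec
          have hJ := (IsNoetherian.noetherian J).choose_spec
          have h' : (IsNoetherian.noetherian I).choose = (IsNoetherian.noetherian J).choose := h
          rw [← hI, ← hJ, h'])
    exact Function.Injective.countable (f := fun v : Pr K => v.asIdeal)
      fun v w h => HeightOneSpectrum.ext h
  have hS₀ := nn_pos S₀
  have h := ae_bounded (μ := μ) (T := Off A × Finset (Pr K))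
    (B := fun t => if t.2 ⊆ spA A t.1 \ S₀ then ⋂ v ∈ t.2, E v else ∅)
    (w := fun t => (nn ((spA A t.1 \ S₀) \ t.2)) ^ (-θ))
    (f := fun t => if t.2 ⊆ spA A t.1 \ S₀ then (nn t.2) ^ (-τ) else 0)
    (D := (nn S₀) ^ θ * D')
    (fun t => by
      split_ifs
      · exact Finset.measurableSet_biInter _ fun v _ => hm v
      · exact MeasurableSet.empty)
    (fun t => Real.rpow_nonneg (nn_pos _).le _)
    (fun t => by
      split_ifs
      · exact Real.rpow_nonneg (nn_pos _).le _
      · exact le_rfl)
    (fun t => by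
      split_ifs
      · exact inter_nn hi hE _
      · rw [measure_empty]
        exact zero_le)
    (fun F => by
      -- the sum over the pairs
      have h1 : ∀ t ∈ F, (nn ((spA A t.1 \ S₀) \ t.2)) ^ (-θ) *
          (if t.2 ⊆ spA A t.1 \ S₀ then (nn t.2) ^ (-τ) else 0) ≤
          if t.2 ⊆ spA A t.1 \ S₀ then (nn (spA A t.1 \ S₀)) ^ (-θ) else 0 := by
        intro t _
        split_ifs with h2
        · have h3 : nn (spA A t.1 \ S₀) = nn t.2 * nn ((spA A t.1 \ S₀) \ t.2) := by
            rw [← nn_union disjoint_sdiff, union_sdiff_of_subset h2]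
          rw [h3, Real.mul_rpow (nn_pos _).le (nn_pos _).le, mul_comm]
          refine mul_le_mul_of_nonneg_right ?_ (Real.rpow_nonneg (nn_pos _).le _)
          exact Real.rpow_le_rpow_of_exponent_le (one_le_nn _) (by linarith)
        · rw [mul_zero]
      refine (sum_le_sum h1).trans ?_
      set G : Finset (Off A) := F.image Prod.fst with hG
      rw [← sum_filter, ← sum_fiberwise_of_maps_to (t := G) (g := Prod.fst) (fun t ht => by
        rw [hG]
        exact mem_image_of_mem _ (mem_filter.1 ht).1)]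
      have h2 : ∀ P ∈ G, ∑ t ∈ (F.filter (fun t => t.2 ⊆ spA A t.1 \ S₀)).filter
          (fun t => t.1 = P), (nn (spA A t.1 \ S₀)) ^ (-θ) ≤
          (nn S₀) ^ θ * (2 ^ (spA A P).card * (nn (spA A P)) ^ (-θ)) := by
        intro P _
        have e1 : ∑ t ∈ (F.filter (fun t => t.2 ⊆ spA A t.1 \ S₀)).filter
            (fun t => t.1 = P), (nn (spA A t.1 \ S₀)) ^ (-θ) =
            (((F.filter (fun t => t.2 ⊆ spA A t.1 \ S₀)).filter (fun t => t.1 = P)).card : ℝ) *
              (nn (spA A P \ S₀)) ^ (-θ) := by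
          rw [← nsmul_eq_mul, ← sum_const]
          refine sum_congr rfl fun t ht => ?_
          rw [(mem_filter.1 ht).2]
        have e2 : ((F.filter (fun t => t.2 ⊆ spA A t.1 \ S₀)).filter
            (fun t => t.1 = P)).card ≤ 2 ^ (spA A P).card := by
          rw [← card_powerset]
          refine card_le_card_of_injOn Prod.snd ?_ ?_
          · intro t ht
            rw [mem_coe, mem_filter, mem_filter] at ht
            rw [mem_coe, mem_powerset]
            rw [← ht.2]
            exact ht.1.2.trans sdiff_subset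
          · intro t ht u hu htu
            rw [mem_coe, mem_filter] at ht hu
            exact Prod.ext (ht.2.trans hu.2.symm) htu
        rw [e1]
        calc _ ≤ (2 : ℝ) ^ (spA A P).card * ((nn S₀) ^ θ * (nn (spA A P)) ^ (-θ)) :=
              mul_le_mul (by exact_mod_cast e2) (sdiff_bound _ _ hθ0.le)
                (Real.rpow_nonneg (nn_pos _).le _) (by positivity)
          _ = _ := by ring
      refine (sum_le_sum h2).trans ?_
      rw [← mul_sum]
      exact mul_le_mul_of_nonneg_left (hb' G) (Real.rpow_nonneg (nn_pos _).le _))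
  filter_upwards [h] with ω hω
  obtain ⟨C, hC⟩ := hω
  refine ⟨C, fun F => ?_⟩
  have h1 := hC (F.map ⟨fun P => (P, (spA A P \ S₀).filter fun v => ω ∈ E v),
    fun P Q h => congrArg Prod.fst h⟩) (by
      intro t ht
      rw [mem_map] at ht
      obtain ⟨P, _, rfl⟩ := ht
      show ω ∈ if (spA A P \ S₀).filter (fun v => ω ∈ E v) ⊆ spA A P \ S₀ then _ else _
      rw [if_pos (filter_subset _ _), Set.mem_iInter₂]
      intro v hv
      exact (mem_filter.1 hv).2)
  rw [sum_map] at h1
  refine le_trans (le_of_eq (sum_congr rfl fun P _ => ?_)) h1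
  congr 2
  unfold outP
  ext v
  simp only [mem_filter, mem_sdiff, Function.Embedding.coeFn_mk]
  tauto

/-- **The number of all points with bounded outer part of the support.** -/
theorem outer_count (hq : 3 ≤ q) (A : Fin q → Projectivization K (Fin 2 → K))
    (hA : Function.Injective A) (S₀ : Finset (Pr K)) {θ : ℝ} (hθ : 2 / (q : ℝ) < θ)
    (hθτ : θ ≤ τ) (hi : iIndepSet E μ) (hm : ∀ v, MeasurableSet (E v))
    (hE : ∀ v, μ (E v) ≤ ENNReal.ofReal ((Nv v) ^ (-τ))) :
    ∀ᵐ ω ∂μ, ∃ C : ℝ, 0 < C ∧ ∀ Z : ℝ, 1 ≤ Z →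
      {P : Off A | nn (outP S₀ E ω (spA A P)) ≤ Z}.Finite ∧
      ({P : Off A | nn (outP S₀ E ω (spA A P)) ≤ Z}.ncard : ℝ) ≤ C * Z ^ θ := by
  have hθ0 : 0 < θ := lt_of_le_of_lt (by positivity) hθ
  filter_upwards [outer_sum hq A hA S₀ hθ hθτ hi hm hE] with ω hω
  obtain ⟨C, hC⟩ := hω
  refine ⟨max C 1, by positivity, fun Z hZ => ?_⟩
  have h := count_of_sum (f := fun P : Off A => nn (outP S₀ E ω (spA A P)))
    (fun P => one_le_nn _) hθ0.le (p := fun _ => True) (fun F _ => hC F) hZ
  simp only [true_and] at h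
  exact ⟨h.1, h.2.trans (mul_le_mul_of_nonneg_right (le_max_left _ _) (by positivity))⟩

end Pool.Agent.X61.RI
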