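import Pool.Agent.X61.RI.Twist
import Pool.Agent.X61.RI.Fam
import Pool.Agent.W214.RK2.Desc4
import Pool.Agent.Y700.VC

/-! The ranks of the twists of an elliptic curve over `ℚ` with full 2-torsion. -/

set_option autoImplicit false

namespace Pool.Agent.X61.RI

open NumberField IsDedekindDomain Polynomial
open Pool.Agent.W262.RK (EAB)

theorem NL_one (L : ℕ → Bool → Bool → Bool → Bool → Prop) : Pool.Agent.W262.RK.NL 1 L ≤ 1 := by
  classical
  unfold Pool.Agent.W262.RK.NL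
  refine (Finset.card_filter_le _ _).trans ?_
  rw [Nat.divisors_one]
  simp

/-- the bound of the 2-descent -/
theorem rank_bound {A B : ℤ} (hA : A ≠ 0) (hB : B ≠ 0) (hAB : A ≠ B) :
    Module.finrank ℤ (EAB A B).toAffine.Point ≤
      2 * ((2 * A * B * (A - B)).natAbs.primeFactors.card + 2) := by
  have h := Pool.Agent.W214.RK2.desc4 1 (fun _ _ _ _ _ => True) A B hA hB hAB odd_one
    squarefree_one (fun p hp h => absurd (Nat.dvd_one.1 h) hp.ne_one)
    (fun p hp h => absurd (Nat.dvd_one.1 h) hp.out.ne_one)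
  have h2 : 2 ^ Module.finrank ℤ (EAB A B).toAffine.Point ≤
      2 ^ (2 * ((2 * A * B * (A - B)).natAbs.primeFactors.card + 2)) := by
    refine h.trans ?_
    rw [pow_mul]
    calc _ ≤ 4 ^ (((2 * A * B * (A - B)).natAbs.primeFactors.filter (fun q => ¬ q ∣ 1)).card + 2) *
          1 := Nat.mul_le_mul_left _ (NL_one _)
      _ ≤ (2 ^ 2) ^ ((2 * A * B * (A - B)).natAbs.primeFactors.card + 2) := by
        rw [mul_one]
        exact Nat.pow_le_pow_right (by norm_num)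
          (Nat.add_le_add_right (Finset.card_filter_le _ _) 2)
  exact (Nat.pow_le_pow_iff_right (by norm_num)).1 h2

/-- isomorphic curves have isomorphic groups -/
theorem finrank_smul {W : WeierstrassCurve ℚ} (C : WeierstrassCurve.VariableChange ℚ)
    (hD : (C • W).Δ ≠ 0) :
    Module.finrank ℤ (C • W).toAffine.Point = Module.finrank ℤ W.toAffine.Point := by
  have hu : (C.u : ℚ) ≠ 0 := C.u.ne_zero
  have h : Pool.Agent.Y700.VR W (C • W) (C.u : ℚ) C.r C.s C.t := by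
    refine ⟨hu, ?_, ?_, ?_, ?_, ?_⟩
    · rw [WeierstrassCurve.variableChange_a₁, Units.val_inv_eq_inv_val]
      field_simp
    · rw [WeierstrassCurve.variableChange_a₂, Units.val_inv_eq_inv_val]
      field_simp
    · rw [WeierstrassCurve.variableChange_a₃, Units.val_inv_eq_inv_val]
      field_simp
    · rw [WeierstrassCurve.variableChange_a₄, Units.val_inv_eq_inv_val]
      field_simp
    · rw [WeierstrassCurve.variableChange_a₆, Units.val_inv_eq_inv_val]
      field_simp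
  exact (h.equiv hD).toIntLinearEquiv.finrank_eq

/-! ### the primes of `ℚ` -/

/-- the prime `p` -/
noncomputable def vp (p : Nat.Primes) : HeightOneSpectrum (𝓞 ℚ) :=
  Rat.HeightOneSpectrum.primesEquiv.symm p

theorem vp_inj : Function.Injective vp := Rat.HeightOneSpectrum.primesEquiv.symm.injective

theorem vp_equiv (p : Nat.Primes) : haveI : Fact p.1.Prime := ⟨p.2⟩
    ((vp p).valuation ℚ).IsEquiv (Rat.padicValuation p.1) := by
  have h := Rat.HeightOneSpectrum.valuation_equiv_padicValuation (vp p)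
  unfold vp at h ⊢
  simpa using h

theorem vp_unit {p : Nat.Primes} {n : ℤ} (hn : ¬ (p.1 : ℤ) ∣ n) :
    (vp p).valuation ℚ (n : ℚ) = 1 := by
  have : Fact p.1.Prime := ⟨p.2⟩
  rw [(vp_equiv p).eq_one_iff_eq_one]
  have h0 : n ≠ 0 := fun h => hn (h ▸ dvd_zero _)
  have h0' : (n : ℚ) ≠ 0 := by exact_mod_cast h0
  show (if (n : ℚ) = 0 then 0 else WithZero.exp (-padicValRat p.1 n)) = 1
  rw [if_neg h0', padicValRat.of_int, padicValInt.eq_zero_of_not_dvd hn]
  simp

theorem vp_odd {p : Nat.Primes} {D : ℤ} (hD : Squarefree D) (hp : (p.1 : ℤ) ∣ D) (u : ℚˣ) :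
    (vp p).valuation ℚ (D : ℚ) ≠ (vp p).valuation ℚ (u : ℚ) ^ 2 := by
  have : Fact p.1.Prime := ⟨p.2⟩
  intro h
  rw [← map_pow, (vp_equiv p).eq_iff] at h
  have h0 : D ≠ 0 := hD.ne_zero
  have h0' : (D : ℚ) ≠ 0 := by exact_mod_cast h0
  have hu : ((u : ℚ)) ^ 2 ≠ 0 := pow_ne_zero 2 u.ne_zero
  have h1 : (if (D : ℚ) = 0 then 0 else WithZero.exp (-padicValRat p.1 D)) =
    (if ((u : ℚ)) ^ 2 = 0 then 0 else WithZero.exp (-padicValRat p.1 ((u : ℚ) ^ 2))) := h
  rw [if_neg h0', if_neg hu, WithZero.exp_inj, neg_inj, padicValRat.pow,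
    padicValRat.of_int] at h1
  have h2 : padicValInt p.1 D = 1 := by
    have h3 : 1 ≤ padicValInt p.1 D := by
      have := padicValInt_dvd_iff 1 D (p := p.1)
      rw [pow_one] at this
      rcases this.1 hp with h4 | h4
      · exact absurd h4 h0
      · exact h4
    have h5 : ¬ 2 ≤ padicValInt p.1 D := by
      intro h6
      have h7 := (padicValInt_dvd_iff 2 D (p := p.1)).2 (Or.inr h6)
      rw [sq] at h7
      have h8 := hD _ h7
      rw [Int.isUnit_iff_natAbs_eq, Int.natAbs_natCast] at h8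
      exact p.2.ne_one h8
    omega
  rw [h2] at h1
  push_cast at h1
  omega

theorem rat_sq (r : ℚ) (hr : r ≠ 0) : ∃ (D : ℤ) (w : ℚ), Squarefree D ∧ w ≠ 0 ∧ r = w ^ 2 * D := by
  have hn : r.num ≠ 0 := Rat.num_ne_zero.2 hr
  have hd : (r.den : ℤ) ≠ 0 := by exact_mod_cast r.den_ne_zero
  obtain ⟨a, b, h1, h2⟩ := Nat.sq_mul_squarefree (r.num * r.den).natAbs
  have h0 : (r.num * r.den).natAbs ≠ 0 := Int.natAbs_ne_zero.2 (mul_ne_zero hn hd)
  have hb : b ≠ 0 := by
    rintro rfl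
    apply h0
    rw [← h1]
    simp
  have hd' : (r.den : ℚ) ≠ 0 := by exact_mod_cast r.den_ne_zero
  have hb' : (b : ℚ) ≠ 0 := by exact_mod_cast hb
  have hr2 : r * (r.den : ℚ) ^ 2 = ((r.num * r.den : ℤ) : ℚ) := by
    push_cast
    nth_rewrite 1 [← Rat.num_div_den r]
    field_simp
  have h3 : ((r.num * r.den : ℤ)) = Int.sign (r.num * r.den) * ((b : ℤ) ^ 2 * a) := by
    have h4 := Int.sign_mul_natAbs (r.num * r.den)
    rw [← h1] at h4
    push_cast at h4
    exact h4.symm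
  refine ⟨Int.sign (r.num * r.den) * a, b / r.den, ?_, div_ne_zero hb' hd', ?_⟩
  · have hs : IsUnit (Int.sign (r.num * r.den)) := by
      rw [Int.isUnit_iff]
      rcases lt_or_gt_of_ne (mul_ne_zero hn hd) with h | h
      · exact Or.inr (Int.sign_eq_neg_one_of_neg h)
      · exact Or.inl (Int.sign_eq_one_of_pos h)
    have ha : Squarefree (a : ℤ) := Int.squarefree_natCast.2 h2
    obtain ⟨s, hs'⟩ := hs
    rw [← hs']
    intro x hx
    exact ha x (by
      have := (Units.dvd_mul_left (u := s)).1 hx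
      exact this)
  · have h5 : ((r.num * r.den : ℤ) : ℚ) =
        ((Int.sign (r.num * r.den) : ℤ) : ℚ) * ((b : ℚ) ^ 2 * a) := by
      conv_lhs => rw [h3]
      push_cast
      ring
    rw [h5] at hr2
    push_cast
    field_simp
    linear_combination hr2

theorem leg_Δ_ne {A B : ℚ} (hA : A ≠ 0) (hB : B ≠ 0) (hAB : A ≠ B) : (leg A B).Δ ≠ 0 := by
  rw [leg_Δ]
  exact mul_ne_zero (by norm_num) (pow_ne_zero 2 (mul_ne_zero (mul_ne_zero hA hB)
    (sub_ne_zero.2 hAB)))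

theorem bad_finite {A B : ℚ} (hA : A ≠ 0) (hB : B ≠ 0) (hAB : A ≠ B) :
    {v : HeightOneSpectrum (𝓞 ℚ) | ¬ SemistableAt v (leg A B)}.Finite := by
  have hΔ := leg_Δ_ne hA hB hAB
  refine (((int_finite (-(A + B))).union (int_finite (A * B))).union (unit_finite hΔ)).subset ?_
  intro v hv
  by_contra hcon
  simp only [Set.mem_union, Set.mem_setOf_eq, not_or, not_not] at hcon
  apply hv
  refine ⟨1, ?_, Or.inl ?_⟩
  · rw [one_smul]
    exact ⟨by simp [leg], hcon.1.1, by simp [leg], hcon.1.2, by simp [leg]⟩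
  · rw [one_smul]
    exact hcon.2

/-- the twisting primes are not semistable -/
theorem odd_bad {p : Nat.Primes} {a b D : ℤ} (ha : a ≠ 0) (hD : Squarefree D)
    (hp : (p.1 : ℤ) ∣ D) (hn : ¬ (p.1 : ℤ) ∣ 2 * a * b * (a - b)) :
    ¬ SemistableAt (vp p) (leg ((a * D : ℤ) : ℚ) ((b * D : ℤ) : ℚ)) := by
  intro hs
  have n2 : ¬ (p.1 : ℤ) ∣ 2 := fun h => hn (by
    rw [mul_assoc, mul_assoc]
    exact h.mul_right _)
  have na : ¬ (p.1 : ℤ) ∣ a := fun h => hn (by
    rw [mul_assoc]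
    exact (h.mul_left 2).mul_right _)
  have nb : ¬ (p.1 : ℤ) ∣ b := fun h => hn ((h.mul_left (2 * a)).mul_right _)
  have nab : ¬ (p.1 : ℤ) ∣ b - a := fun h => hn (by
    refine Dvd.dvd.mul_left ?_ _
    rw [← neg_sub, dvd_neg]
    exact h)
  have hD0 : (D : ℚ) ≠ 0 := by exact_mod_cast hD.ne_zero
  have ha0 : (a : ℚ) ≠ 0 := by exact_mod_cast ha
  have h2 : (vp p).valuation ℚ (2 : ℚ) = 1 := by exact_mod_cast vp_unit n2
  have e1 : ((b * D : ℤ) : ℚ) / ((a * D : ℤ) : ℚ) = (b : ℚ) / a := by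
    push_cast
    field_simp
  have e2 : (b : ℚ) / a - 1 = ((b - a : ℤ) : ℚ) / a := by
    push_cast
    field_simp
  have hu : UnitAt (vp p) (((b * D : ℤ) : ℚ) / ((a * D : ℤ) : ℚ)) := by
    rw [e1]
    refine ⟨?_, ?_⟩
    · rw [map_div₀, vp_unit na, vp_unit nb, div_one]
    · rw [e2, map_div₀, vp_unit na, vp_unit nab, div_one]
  have hA : ((a * D : ℤ) : ℚ) ≠ 0 := by
    push_cast
    exact mul_ne_zero ha0 hD0
  obtain ⟨u, hu2⟩ := even_of_semistable h2 hA hu hs
  refine vp_odd hD hp u ?_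
  rw [← hu2]
  push_cast
  rw [map_mul, vp_unit na, one_mul]

/-- **The ranks of the twists.** -/
theorem rank_twists {x : ℚ} (hx0 : x ≠ 0) (hx1 : x ≠ 1) {S₀ : Set (HeightOneSpectrum (𝓞 ℚ))}
    (hS₀ : S₀.Finite) : ∃ C : ℕ, ∀ A : ℚ, A ≠ 0 →
      Module.finrank ℤ (leg A (x * A)).toAffine.Point ≤
        2 * {v | v ∉ S₀ ∧ ¬ SemistableAt v (leg A (x * A))}.ncard + C := by
  classical
  obtain ⟨a, ha⟩ : ∃ a : ℤ, a = (x.den : ℤ) := ⟨_, rfl⟩
  obtain ⟨b, hb⟩ : ∃ b : ℤ, b = x.num := ⟨_, rfl⟩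
  have ha0 : a ≠ 0 := by
    rw [ha]
    exact_mod_cast x.den_ne_zero
  have hb0 : b ≠ 0 := by
    rw [hb]
    exact Rat.num_ne_zero.2 hx0
  have ha0' : (a : ℚ) ≠ 0 := by exact_mod_cast ha0
  have hxab : x = (b : ℚ) / a := by
    rw [ha, hb]
    push_cast
    exact (Rat.num_div_den x).symm
  have hab : a ≠ b := by
    intro h
    apply hx1
    rw [hxab, ← h, div_self ha0']
  refine ⟨2 * ((2 * a * b * (a - b)).natAbs.primeFactors.card + S₀.ncard + 2), fun A hA => ?_⟩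
  obtain ⟨D, w, hD, hw, hAD⟩ := rat_sq (A / a) (div_ne_zero hA ha0')
  have hD0 : D ≠ 0 := hD.ne_zero
  have hD0' : (D : ℚ) ≠ 0 := by exact_mod_cast hD0
  have e1 : A = w ^ 2 * ((a * D : ℤ) : ℚ) := by
    rw [div_eq_iff ha0'] at hAD
    rw [hAD]
    push_cast
    ring
  have e2 : x * A = w ^ 2 * ((b * D : ℤ) : ℚ) := by
    rw [e1, hxab]
    push_cast
    field_simp
  obtain ⟨V, hV⟩ := leg_sq ((a * D : ℤ) : ℚ) ((b * D : ℤ) : ℚ) hw
  rw [← e1, ← e2] at hV
  have k1 : a * D ≠ 0 := mul_ne_zero ha0 hD0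
  have k2 : b * D ≠ 0 := mul_ne_zero hb0 hD0
  have k3 : a * D ≠ b * D := fun h => hab (mul_right_cancel₀ hD0 h)
  have k1' : ((a * D : ℤ) : ℚ) ≠ 0 := by exact_mod_cast k1
  have k2' : ((b * D : ℤ) : ℚ) ≠ 0 := by exact_mod_cast k2
  have k3' : ((a * D : ℤ) : ℚ) ≠ ((b * D : ℤ) : ℚ) := by exact_mod_cast k3
  have hxA : A ≠ x * A := by
    intro h
    apply hx1
    have : x * A = 1 * A := by rw [← h, one_mul]
    exact mul_right_cancel₀ hA this
  have hbad := bad_finite hA (mul_ne_zero hx0 hA) hxA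
  have h1 : Module.finrank ℤ (leg A (x * A)).toAffine.Point ≤
      2 * ((2 * (a * D) * (b * D) * (a * D - b * D)).natAbs.primeFactors.card + 2) := by
    have h2 := finrank_smul (W := leg A (x * A)) V (by
      rw [hV]
      exact leg_Δ_ne k1' k2' k3')
    rw [← h2, hV]
    exact rank_bound k1 k2 k3
  set N : ℤ := 2 * (a * D) * (b * D) * (a * D - b * D) with hN
  have hN2 : N = 2 * a * b * (a - b) * D ^ 3 := by
    rw [hN]
    ring
  set R : Finset ℕ := N.natAbs.primeFactors.filter fun p => ¬ (p : ℤ) ∣ 2 * a * b * (a - b)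
    with hR
  have h0 : (2 * a * b * (a - b)).natAbs ≠ 0 := Int.natAbs_ne_zero.2
    (mul_ne_zero (mul_ne_zero (mul_ne_zero two_ne_zero ha0) hb0) (sub_ne_zero.2 hab))
  have h2 : N.natAbs.primeFactors ⊆ (2 * a * b * (a - b)).natAbs.primeFactors ∪ R := by
    intro p hp
    rw [Finset.mem_union]
    by_cases hd : (p : ℤ) ∣ 2 * a * b * (a - b)
    · left
      rw [Nat.mem_primeFactors]
      exact ⟨(Nat.mem_primeFactors.1 hp).1, Int.natCast_dvd.1 hd, h0⟩
    · right
      rw [hR, Finset.mem_filter]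
      exact ⟨hp, hd⟩
  have h3 : N.natAbs.primeFactors.card ≤ (2 * a * b * (a - b)).natAbs.primeFactors.card + R.card :=
    (Finset.card_le_card h2).trans (Finset.card_union_le _ _)
  have hRp : ∀ p : R, (p : ℕ).Prime := fun p =>
    (Nat.mem_primeFactors.1 (Finset.mem_filter.1 p.2).1).1
  have hRD : ∀ p : R, ((p : ℕ) : ℤ) ∣ D := fun p => by
    have h4 := (Finset.mem_filter.1 p.2)
    have h5 := (Nat.mem_primeFactors.1 h4.1).2.1
    have h6 : ((p : ℕ) : ℤ) ∣ N := Int.natCast_dvd.2 h5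
    rw [hN2] at h6
    have hp : Prime ((p : ℕ) : ℤ) := Nat.prime_iff_prime_int.1 (hRp p)
    rcases hp.dvd_or_dvd h6 with h7 | h7
    · exact absurd h7 h4.2
    · exact hp.dvd_of_dvd_pow h7
  have h4 : R.card ≤ {v | ¬ SemistableAt v (leg A (x * A))}.ncard := by
    let g : R → HeightOneSpectrum (𝓞 ℚ) := fun p => vp ⟨p, hRp p⟩
    have hg : Function.Injective g := by
      intro p p' h
      have := vp_inj h
      exact Subtype.ext (congrArg (fun q : Nat.Primes => (q : ℕ)) this)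
    have h5 : (Set.range g).ncard = R.card := by
      rw [← Set.image_univ, Set.ncard_image_of_injective _ hg, Set.ncard_univ,
        Nat.card_eq_fintype_card, Fintype.card_coe]
    rw [← h5]
    refine Set.ncard_le_ncard ?_ hbad
    rintro _ ⟨p, rfl⟩
    intro hs
    have h6 := hs.smul V
    rw [hV] at h6
    exact odd_bad (p := ⟨p, hRp p⟩) ha0 hD (hRD p) (Finset.mem_filter.1 p.2).2 h6
  have h5 : {v | ¬ SemistableAt v (leg A (x * A))}.ncard ≤
      {v | v ∉ S₀ ∧ ¬ SemistableAt v (leg A (x * A))}.ncard + S₀.ncard := by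
    refine (Set.ncard_le_ncard_diff_add_ncard _ S₀ hS₀).trans (Nat.add_le_add_right ?_ _)
    refine le_of_eq (congrArg Set.ncard ?_)
    ext v
    simp only [Set.mem_diff, Set.mem_setOf_eq]
    tauto
  omega

/-- the curves with full 2-torsion are the twists of the curves of Legendre -/
theorem full_leg (W : WeierstrassCurve ℚ) [W.IsElliptic] (h : FullTwoTorsion W) :
    ∃ (V : WeierstrassCurve.VariableChange ℚ) (x A : ℚ), x ≠ 0 ∧ x ≠ 1 ∧ A ≠ 0 ∧
      V • W = leg A (x * A) ∧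
      W.j * (16 * (x * (1 - x)) ^ 2) = (16 * (1 - x + x ^ 2)) ^ 3 := by
  obtain ⟨a, b, c, h⟩ := h
  obtain ⟨V, hV⟩ := iso_leg h
  have hj := j_mul (V • W)
  have hΔ := Δ_ne (V • W)
  rw [WeierstrassCurve.variableChange_j] at hj
  rw [hV] at hj hΔ
  rw [leg_Δ] at hj hΔ
  rw [leg_c₄] at hj
  set A := b - a
  set B := c - a
  have hA : A ≠ 0 := by
    intro h0
    apply hΔ
    rw [h0]
    ring
  have hB : B ≠ 0 := by
    intro h0
    apply hΔ
    rw [h0]
    ring
  have hAB : A - B ≠ 0 := by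
    intro h0
    apply hΔ
    rw [h0]
    ring
  refine ⟨V, B / A, A, div_ne_zero hB hA, ?_, hA, ?_, ?_⟩
  · intro h1
    rw [div_eq_one_iff_eq hA] at h1
    exact hAB (by rw [h1, sub_self])
  · rw [div_mul_cancel₀ _ hA]
    exact hV
  · have hA6 : A ^ 6 ≠ 0 := pow_ne_zero 6 hA
    apply mul_right_cancel₀ hA6
    have e1 : W.j * (16 * (B / A * (1 - B / A)) ^ 2) * A ^ 6 =
        W.j * (16 * (A * B * (A - B)) ^ 2) := by
      field_simp
    have e2 : (16 * (1 - B / A + (B / A) ^ 2)) ^ 3 * A ^ 6 =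
        (16 * (A ^ 2 - A * B + B ^ 2)) ^ 3 := by
      field_simp
    rw [e1, e2, hj]

theorem legendre_finite (j : ℚ) :
    {x : ℚ | j * (16 * (x * (1 - x)) ^ 2) = (16 * (1 - x + x ^ 2)) ^ 3}.Finite := by
  set f : ℚ[X] := C j * (16 * (X * (1 - X)) ^ 2) - (16 * (1 - X + X ^ 2)) ^ 3 with hf
  have hf0 : f ≠ 0 := by
    intro h
    have h1 := congrArg (Polynomial.eval 0) h
    rw [hf] at h1
    simp at h1
  refine (Polynomial.finite_setOf_isRoot hf0).subset ?_
  intro x hx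
  rw [Set.mem_setOf_eq] at hx ⊢
  rw [IsRoot.def, hf]
  simp only [eval_sub, eval_mul, eval_C, eval_pow, eval_add, eval_X, eval_one, eval_ofNat]
  rw [hx, sub_self]

/-- **Bounded ranks for finitely many `j`-invariants.** -/
theorem rank_finite {L : Set ℚ} (hL : L.Finite) {S₀ : Set (HeightOneSpectrum (𝓞 ℚ))}
    (hS₀ : S₀.Finite) : ∃ C : ℕ, ∀ (W : WeierstrassCurve ℚ) [W.IsElliptic], FullTwoTorsion W →
      W.j ∈ L → {v | ¬ SemistableAt v W}.Finite ∧
      Module.finrank ℤ W.toAffine.Point ≤ 2 * {v | v ∉ S₀ ∧ ¬ SemistableAt v W}.ncard + C := by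
  classical
  have hX : (⋃ j ∈ L, {x : ℚ | j * (16 * (x * (1 - x)) ^ 2) =
      (16 * (1 - x + x ^ 2)) ^ 3}).Finite := hL.biUnion fun j _ => legendre_finite j
  set X' := hX.toFinset with hX'
  have hex : ∀ x : ℚ, ∃ C : ℕ, x ≠ 0 → x ≠ 1 → ∀ A : ℚ, A ≠ 0 →
      Module.finrank ℤ (leg A (x * A)).toAffine.Point ≤
        2 * {v | v ∉ S₀ ∧ ¬ SemistableAt v (leg A (x * A))}.ncard + C := by
    intro x
    by_cases h : x ≠ 0 ∧ x ≠ 1
    · obtain ⟨C, hC⟩ := rank_twists h.1 h.2 hS₀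
      exact ⟨C, fun _ _ => hC⟩
    · exact ⟨0, fun h1 h2 => absurd ⟨h1, h2⟩ h⟩
  choose C hC using hex
  refine ⟨X'.sup C, fun W _ hW hj => ?_⟩
  obtain ⟨V, x, A, hx0, hx1, hA, hV, hjx⟩ := full_leg W hW
  have hxX : x ∈ X' := by
    rw [hX', Set.Finite.mem_toFinset, Set.mem_iUnion₂]
    exact ⟨W.j, hj, hjx⟩
  have hxA : A ≠ x * A := by
    intro h
    apply hx1
    have : x * A = 1 * A := by rw [← h, one_mul]
    exact mul_right_cancel₀ hA this
  have hss : ∀ v, SemistableAt v W ↔ SemistableAt v (leg A (x * A)) := by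
    intro v
    refine ⟨fun h => ?_, fun h => ?_⟩
    · rw [← hV]
      exact h.smul V
    · rw [← hV] at h
      have := h.smul V⁻¹
      rwa [inv_smul_smul] at this
  have h1 := hC x hx0 hx1 A hA
  have h2 := finrank_smul (W := W) V (by
    rw [hV]
    exact leg_Δ_ne hA (mul_ne_zero hx0 hA) hxA)
  rw [← h2, hV]
  simp only [hss]
  refine ⟨bad_finite hA (mul_ne_zero hx0 hA) hxA, h1.trans ?_⟩
  have := Finset.le_sup (f := C) hxX
  omega

end Pool.Agent.X61.RI
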