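import Pool.Agent.X61.RI.Line

/-! The number of the points of bounded support composed of the primes of a random set. -/

set_option autoImplicit false

namespace Pool.Agent.X61.RI

open NumberField IsDedekindDomain Finset MeasureTheory ProbabilityTheory
open Pool.Agent.H691R3 Pool.Agent.TH876.Loc Pool.Agent.Y911.RR
open Pool.Agent.Y911.US (ht ht_nonneg exc_count two_pow_sum)

/-- a series with a finite expectation is almost surely finite -/
theorem ae_bounded {Ω : Type*} [MeasurableSpace Ω] {μ : Measure Ω} {T : Type*} [Countable T]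
    {B : T → Set Ω} (hm : ∀ t, MeasurableSet (B t)) {w f : T → ℝ} {D : ℝ} (hw : ∀ t, 0 ≤ w t)
    (hf : ∀ t, 0 ≤ f t) (hB : ∀ t, μ (B t) ≤ ENNReal.ofReal (f t))
    (hD : ∀ F : Finset T, ∑ t ∈ F, w t * f t ≤ D) :
    ∀ᵐ ω ∂μ, ∃ C : ℝ, ∀ F : Finset T, (∀ t ∈ F, ω ∈ B t) → ∑ t ∈ F, w t ≤ C := by
  classical
  set g : Ω → ENNReal := fun ω => ∑' t, (B t).indicator (fun _ => ENNReal.ofReal (w t)) ω with hg
  have hmeas : ∀ t, Measurable ((B t).indicator (fun _ => ENNReal.ofReal (w t))) := fun t =>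
    measurable_const.indicator (hm t)
  have hgm : Measurable g := Measurable.ennreal_tsum hmeas
  have hint : ∫⁻ ω, g ω ∂μ ≤ ENNReal.ofReal D := by
    rw [hg, lintegral_tsum fun t => (hmeas t).aemeasurable]
    have h1 : ∀ t, ∫⁻ ω, (B t).indicator (fun _ => ENNReal.ofReal (w t)) ω ∂μ ≤
        ENNReal.ofReal (w t * f t) := by
      intro t
      rw [lintegral_indicator_const (hm t), ENNReal.ofReal_mul (hw t)]
      exact mul_le_mul_right (hB t) _
    refine (ENNReal.tsum_le_tsum h1).trans ?_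
    rw [ENNReal.tsum_eq_iSup_sum]
    refine iSup_le fun F => ?_
    rw [← ENNReal.ofReal_sum_of_nonneg fun t _ => mul_nonneg (hw t) (hf t)]
    exact ENNReal.ofReal_le_ofReal (hD F)
  have hae := ae_lt_top hgm (hint.trans_lt ENNReal.ofReal_lt_top).ne
  filter_upwards [hae] with ω hω
  refine ⟨(g ω).toReal, fun F hF => ?_⟩
  have h1 : ∑ t ∈ F, ENNReal.ofReal (w t) ≤ g ω := by
    calc ∑ t ∈ F, ENNReal.ofReal (w t)
        = ∑ t ∈ F, (B t).indicator (fun _ => ENNReal.ofReal (w t)) ω :=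
          sum_congr rfl fun t ht => by rw [Set.indicator_of_mem (hF t ht)]
      _ ≤ g ω := ENNReal.sum_le_tsum F
  rw [← ENNReal.ofReal_sum_of_nonneg fun t _ => hw t] at h1
  have h2 := ENNReal.toReal_mono hω.ne h1
  rwa [ENNReal.toReal_ofReal (sum_nonneg fun t _ => hw t)] at h2

variable {K : Type} [Field K] [NumberField K]
variable {Ω : Type*} [MeasurableSpace Ω] {μ : Measure Ω} {E : Pr K → Set Ω} {τ : ℝ} {q : ℕ}

/-- from a bounded series to the number of the objects -/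
theorem count_of_sum {T : Type*} {f : T → ℝ} (hf : ∀ t, 1 ≤ f t) {σ C : ℝ} (hσ : 0 ≤ σ)
    {p : T → Prop} (h : ∀ F : Finset T, (∀ t ∈ F, p t) → ∑ t ∈ F, (f t) ^ (-σ) ≤ C)
    {X : ℝ} (hX : 1 ≤ X) :
    {t | p t ∧ f t ≤ X}.Finite ∧ ({t | p t ∧ f t ≤ X}.ncard : ℝ) ≤ C * X ^ σ := by
  classical
  have hX0 : 0 < X := by linarith
  have key : ∀ F : Finset T, (∀ t ∈ F, p t ∧ f t ≤ X) → (F.card : ℝ) ≤ C * X ^ σ := by
    intro F hF
    have h1 := h F fun t ht => (hF t ht).1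
    have h2 : (F.card : ℝ) * X ^ (-σ) ≤ ∑ t ∈ F, (f t) ^ (-σ) := by
      rw [← nsmul_eq_mul, ← sum_const]
      refine sum_le_sum fun t ht => ?_
      exact Real.rpow_le_rpow_of_nonpos (by linarith [hf t]) (hF t ht).2 (by linarith)
    have h3 : 0 < X ^ σ := by positivity
    calc (F.card : ℝ) = (F.card : ℝ) * X ^ (-σ) * X ^ σ := by
          rw [mul_assoc, ← Real.rpow_add hX0, neg_add_cancel, Real.rpow_zero, mul_one]
      _ ≤ C * X ^ σ := mul_le_mul_of_nonneg_right (h2.trans h1) h3.le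
  have hfin : {t | p t ∧ f t ≤ X}.Finite := by
    by_contra hinf
    obtain ⟨F, hF, hcard⟩ := Set.Infinite.exists_subset_card_eq hinf (⌊C * X ^ σ⌋₊ + 1)
    have h1 := key F fun t ht => hF ht
    rw [hcard] at h1
    push_cast at h1
    exact absurd h1 (not_le.2 (Nat.lt_floor_add_one _))
  refine ⟨hfin, ?_⟩
  rw [Set.ncard_eq_toFinset_card _ hfin]
  exact key _ fun t ht => by simpa using ht

/-- the sum over the points of a family whose support is composed of the random primes -/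
theorem fam_sum {T : Type*} [Countable T] (sp : T → Finset (Pr K)) (S₀ : Finset (Pr K))
    (hτ0 : 0 ≤ τ) {σ D : ℝ} (hD : ∀ F : Finset T, ∑ t ∈ F, (nn (sp t)) ^ (-(σ + τ)) ≤ D)
    (hi : iIndepSet E μ) (hm : ∀ v, MeasurableSet (E v))
    (hE : ∀ v, μ (E v) ≤ ENNReal.ofReal ((Nv v) ^ (-τ))) :
    ∀ᵐ ω ∂μ, ∃ C : ℝ, ∀ F : Finset T, (∀ t ∈ F, ∀ v ∈ sp t, v ∈ S₀ ∨ ω ∈ E v) →
      ∑ t ∈ F, (nn (sp t)) ^ (-σ) ≤ C := by
  classical
  have h := ae_bounded (μ := μ) (B := fun t : T => ⋂ v ∈ sp t \ S₀, E v)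
    (w := fun t => (nn (sp t)) ^ (-σ)) (f := fun t => (nn S₀) ^ τ * (nn (sp t)) ^ (-τ))
    (D := (nn S₀) ^ τ * D)
    (fun t => Finset.measurableSet_biInter _ fun v _ => hm v)
    (fun t => Real.rpow_nonneg (nn_pos _).le _)
    (fun t => mul_nonneg (Real.rpow_nonneg (nn_pos _).le _) (Real.rpow_nonneg (nn_pos _).le _))
    (fun t => (inter_nn hi hE _).trans (ENNReal.ofReal_le_ofReal (sdiff_bound _ _ hτ0)))
    (fun F => by
      have e : ∀ t ∈ F, (nn (sp t)) ^ (-σ) * ((nn S₀) ^ τ * (nn (sp t)) ^ (-τ)) =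
          (nn S₀) ^ τ * (nn (sp t)) ^ (-(σ + τ)) := by
        intro t _
        rw [neg_add, Real.rpow_add (nn_pos _)]
        ring
      rw [sum_congr rfl e, ← mul_sum]
      exact mul_le_mul_of_nonneg_left (hD F) (Real.rpow_nonneg (nn_pos _).le _))
  filter_upwards [h] with ω hω
  obtain ⟨C, hC⟩ := hω
  refine ⟨C, fun F hF => hC F fun t ht => ?_⟩
  rw [Set.mem_iInter₂]
  intro v hv
  rw [mem_sdiff] at hv
  exact (hF t ht v hv.1).resolve_left hv.2

/-- the series over the points for which the inequality fails -/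
theorem exc_dec (hq : 3 ≤ q) (A : Fin q → Projectivization K (Fin 2 → K))
    (hA : Function.Injective A) {κ : ℝ} (hκ : 0 < κ) :
    ∃ ν : ℝ, 0 < ν ∧ ∀ θ : ℝ, 2 / (q : ℝ) - ν < θ → ∃ D : ℝ, 0 < D ∧
      ∀ F : Finset {P : Off A // Real.log (nn (spA A P)) ≤ ((q : ℝ) - κ) * ht P.1},
        ∑ t ∈ F, (nn (spA A t.1)) ^ (-θ) ≤ D := by
  classical
  have hq3 : (3 : ℝ) ≤ q := by exact_mod_cast hq
  obtain ⟨e, he⟩ : ∃ e : ℝ, e = min κ 1 := ⟨_, rfl⟩
  have he0 : 0 < e := by rw [he]; exact lt_min hκ one_pos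
  have he1 : e ≤ κ := by rw [he]; exact min_le_left _ _
  have he2 : e ≤ 1 := by rw [he]; exact min_le_right _ _
  have hqe : 0 < (q : ℝ) - e := by linarith
  obtain ⟨M, hMdef⟩ : ∃ M : ℝ, M = 1 / ((q : ℝ) - e) := ⟨_, rfl⟩
  have hM : 1 / (q : ℝ) < M := by
    rw [hMdef]
    exact one_div_lt_one_div_of_lt hqe (by linarith)
  obtain ⟨ν₀, C₀, hν₀, hν₀q, hC₀, hcount⟩ := exc_count hq A hA hM
  have h21 : 2 / (q : ℝ) = 2 * (1 / q) := by ring
  have h1q : 0 < 1 / (q : ℝ) := by positivity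
  refine ⟨ν₀, hν₀, fun θ hθ => ?_⟩
  exact dyadic_sum
    (T := {P : Off A // Real.log (nn (spA A P)) ≤ ((q : ℝ) - κ) * ht P.1})
    (fun t => nn (spA A t.1))
    (fun t => one_le_nn _) (α := 2 / (q : ℝ) - ν₀) (θ := θ) (C := C₀)
    (by linarith) (by linarith) hC₀ (fun X hX F hF => by
      have h1 := hcount X hX (F.image fun t => t.1)
        (fun P hP => by
          obtain ⟨t, _, rfl⟩ := mem_image.1 hP
          rw [hMdef, one_div, inv_mul_le_iff₀ hqe]
          refine t.2.trans ?_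
          exact mul_le_mul_of_nonneg_right (by linarith) (ht_nonneg _))
        (fun P hP => by
          obtain ⟨t, ht', rfl⟩ := mem_image.1 hP
          exact hF t ht')
      rw [card_image_of_injective F Subtype.val_injective] at h1
      exact h1)

end Pool.Agent.X61.RI
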