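import Pool.Agent.X61.RI.Curve
import Pool.Agent.X61.RI.Twist

/-! The height of the values of a rational function with rational poles, if the primes in the
denominator are in a random set, and the minimal discriminant of elliptic curves. -/

set_option autoImplicit false

namespace Pool.Agent.X61.RI

open NumberField IsDedekindDomain Finset MeasureTheory ProbabilityTheory Polynomial
open Pool.Agent.H691R3 Pool.Agent.TH876.Loc Pool.Agent.Y911.RR
open Pool.Agent.Y911.US (ht ht_nonneg ht_mk)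

variable {K : Type} [Field K] [NumberField K]

theorem pole_finite (x : K) : {v : Pr K | 1 < v.valuation K x}.Finite :=
  (int_finite x).subset fun _ hv => not_le.2 hv

omit [Field K] [NumberField K] in
theorem bdd_of_finite {T : Set K} (hT : T.Finite) (f : K → ℝ) : ∃ C : ℝ, ∀ t ∈ T, f t ≤ C := by
  obtain ⟨C, hC⟩ := (hT.image f).bddAbove
  exact ⟨C, fun t ht => hC ⟨t, ht, rfl⟩⟩

theorem fam_szpiro {q : ℕ} {P Q : K[X]} {c : Fin q → Option K} (hP : P ≠ 0) (hQ : Q ≠ 0)
    (hPQ : IsCoprime P Q) (hq : 3 ≤ q) (hinj : Function.Injective c)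
    (hc : ∀ l, IsPole P Q (c l)) {M : ℝ}
    (hM : ((max P.natDegree Q.natDegree : ℕ) : ℝ) / q < M) :
    ∃ ν : ℝ, 0 < ν ∧ ∀ τ : ℝ, 0 ≤ τ → 2 / (q : ℝ) - ν < τ →
    ∀ {Ω : Type} [MeasurableSpace Ω] (μ : Measure Ω) (E : Pr K → Set Ω), iIndepSet E μ →
      (∀ v, μ (E v) ≤ ENNReal.ofReal ((Nv v) ^ (-τ))) →
    ∀ᵐ ω ∂μ, ∀ S : Finset (Pr K), ∃ C : ℝ, ∀ t : K, Q.eval t ≠ 0 →
      (∀ v, 1 < v.valuation K (P.eval t / Q.eval t) → v ∈ S ∨ ω ∈ E v) →
      Height.logHeight₁ (P.eval t / Q.eval t) ≤ C + M * ∑ᶠ (v : Pr K)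
        (_ : v ∈ {v : Pr K | 1 < v.valuation K (P.eval t / Q.eval t)}), Real.log (Nv v) := by
  classical
  have hq0 : (0 : ℝ) < q := by exact_mod_cast (by omega : 0 < q)
  obtain ⟨D, hD⟩ : ∃ D : ℕ, D = max P.natDegree Q.natDegree := ⟨_, rfl⟩
  rw [← hD] at hM
  have hM0 : 0 < M := lt_of_le_of_lt (by positivity) hM
  have hMq : (D : ℝ) < M * q := by rwa [div_lt_iff₀ hq0] at hM
  have hB := goodF_finite hP hQ hPQ hc
  obtain ⟨κ, hκ⟩ : ∃ κ : ℝ, κ = (M * q - D) / (2 * M) := ⟨_, rfl⟩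
  have hκ0 : 0 < κ := by
    rw [hκ]
    exact div_pos (by linarith) (by linarith)
  have hMκ : M * ((q : ℝ) - κ) - D = (M * q - D) / 2 := by
    rw [hκ]
    field_simp
    ring
  obtain ⟨ν, hν, hexc⟩ := exc_dec hq (fun l => opp (c l)) (opc_inj hinj) hκ0
  obtain ⟨Cf, hCf⟩ := curve_height (K := K) (f := ![P, Q]) (D := D) (by
    intro i
    fin_cases i
    · exact hD ▸ le_max_left _ _
    · exact hD ▸ le_max_right _ _)
  refine ⟨ν, hν, ?_⟩
  intro τ hτ0 hτ Ω _ μ E hi hE
  obtain ⟨D', hD', hb⟩ := hexc ((2 / q - ν + τ) / 2) (by linarith)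
  have c1 := countable_primes K
  rw [ae_all_iff]
  intro S
  have h := part_sum (μ := μ) (E := E)
    (fun t : {P : Off (fun l => opp (c l)) //
      Real.log (nn (spA (fun l => opp (c l)) P)) ≤ ((q : ℝ) - κ) * ht P.1} =>
        spA (fun l => opp (c l)) t.1)
    (S ∪ hB.toFinset) hτ0 (σ := 0) (κ := 1) hD' hb (by linarith) hi hE
  filter_upwards [h] with ω hω
  obtain ⟨C, hC⟩ := hω
  have hfin : {t : {P : Off (fun l => opp (c l)) //
      Real.log (nn (spA (fun l => opp (c l)) P)) ≤ ((q : ℝ) - κ) * ht P.1} |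
      (nn (spA (fun l => opp (c l)) t.1)) ^ (1 : ℝ) ≤
        nn ((spA (fun l => opp (c l)) t.1).filter
          fun v => v ∈ S ∪ hB.toFinset ∨ ω ∈ E v)}.Finite := by
    refine finite_of_card (C := C) fun F hF => ?_
    have h1 := hC F hF
    simp only [neg_zero, Real.rpow_zero, Finset.sum_const, nsmul_eq_mul, mul_one] at h1
    exact h1
  have hW1 : {t : K | ∃ ho : ∀ l, c l ≠ some t, cpt c ⟨t, ho⟩ ∈ Subtype.val '' {t :
      {P : Off (fun l => opp (c l)) //
      Real.log (nn (spA (fun l => opp (c l)) P)) ≤ ((q : ℝ) - κ) * ht P.1} |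
      (nn (spA (fun l => opp (c l)) t.1)) ^ (1 : ℝ) ≤
        nn ((spA (fun l => opp (c l)) t.1).filter
          fun v => v ∈ S ∪ hB.toFinset ∨ ω ∈ E v)}}.Finite := by
    refine (((hfin.image Subtype.val).preimage (f := cpt c)
      (cpt_injective c).injOn).image Subtype.val).subset ?_
    rintro t ⟨ho, h'⟩
    exact ⟨⟨t, ho⟩, h', rfl⟩
  obtain ⟨C1, hC1⟩ := bdd_of_finite hW1 fun t => Height.logHeight₁ (P.eval t / Q.eval t)
  refine ⟨max C1 (Cf + M * Real.log (nn hB.toFinset)), ?_⟩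
  intro t ht0 hsup
  have hsum0 : 0 ≤ ∑ᶠ (v : Pr K)
      (_ : v ∈ {v : Pr K | 1 < v.valuation K (P.eval t / Q.eval t)}), Real.log (Nv v) :=
    finsum_nonneg fun v => finsum_nonneg fun _ => Real.log_nonneg (one_le_Nv v)
  have ho : ∀ l, c l ≠ some t := by
    intro l hl
    have := hc l
    rw [hl] at this
    exact ht0 this
  have hgood : ∀ v : Pr K, v ∈ spA (fun l => opp (c l)) (cpt c ⟨t, ho⟩) → v ∉ hB.toFinset →
      v ∈ {v : Pr K | 1 < v.valuation K (P.eval t / Q.eval t)} := by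
    intro v hv hvB
    rw [mem_spA] at hv
    obtain ⟨l, hl⟩ := hv
    have hvg : GoodF v P Q c := by
      by_contra h'
      exact hvB ((Set.Finite.mem_toFinset hB).2 h')
    by_contra hcon
    exact not_meet hvg.1 hvg.2.1 (hc l) (fun a ha => hvg.2.2 l a ha) ht0 (not_lt.1 hcon) hl
  by_cases hex : Real.log (nn (spA (fun l => opp (c l)) (cpt c ⟨t, ho⟩))) ≤
      ((q : ℝ) - κ) * ht (cpt c ⟨t, ho⟩).1
  · have h1 : t ∈ {t : K | ∃ ho : ∀ l, c l ≠ some t, cpt c ⟨t, ho⟩ ∈ Subtype.val '' {t :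
      {P : Off (fun l => opp (c l)) //
      Real.log (nn (spA (fun l => opp (c l)) P)) ≤ ((q : ℝ) - κ) * ht P.1} |
      (nn (spA (fun l => opp (c l)) t.1)) ^ (1 : ℝ) ≤
        nn ((spA (fun l => opp (c l)) t.1).filter
          fun v => v ∈ S ∪ hB.toFinset ∨ ω ∈ E v)}} := by
      refine ⟨ho, ⟨cpt c ⟨t, ho⟩, hex⟩, ?_, rfl⟩
      show (nn (spA (fun l => opp (c l)) (cpt c ⟨t, ho⟩))) ^ (1 : ℝ) ≤ _
      rw [Real.rpow_one]
      refine le_of_eq ?_
      congr 1
      refine (Finset.filter_true_of_mem fun v hv => ?_).symm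
      rw [Finset.mem_union]
      by_cases hvB : v ∈ hB.toFinset
      · exact Or.inl (Or.inr hvB)
      · rcases hsup v (hgood v hv hvB) with h1 | h1
        · exact Or.inl (Or.inl h1)
        · exact Or.inr h1
    have h2 : Height.logHeight₁ (P.eval t / Q.eval t) ≤ C1 := hC1 t h1
    exact h2.trans ((le_max_left _ _).trans (le_add_of_nonneg_right (mul_nonneg hM0.le hsum0)))
  · have hex' := not_le.1 hex
    obtain ⟨s, hs⟩ : ∃ s, s = spA (fun l => opp (c l)) (cpt c ⟨t, ho⟩) := ⟨_, rfl⟩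
    rw [← hs] at hex' hgood
    have hsf := pole_finite (P.eval t / Q.eval t)
    have hr : Real.log (nn s) - Real.log (nn hB.toFinset) ≤
        ∑ᶠ (v : Pr K) (_ : v ∈ {v : Pr K | 1 < v.valuation K (P.eval t / Q.eval t)}),
          Real.log (Nv v) := by
      have e : {v : Pr K | 1 < v.valuation K (P.eval t / Q.eval t)} =
          (hsf.toFinset : Set (Pr K)) := (Set.Finite.coe_toFinset hsf).symm
      rw [e, finsum_mem_coe_finset, ← Pool.Agent.TH876.KR.log_nn, sub_le_iff_le_add,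
        ← Real.log_mul (nn_pos _).ne' (nn_pos _).ne']
      refine Real.log_le_log (nn_pos _) ?_
      have hsub : s ⊆ hsf.toFinset ∪ (hB.toFinset \ hsf.toFinset) := by
        intro v hv
        rw [Finset.union_sdiff_self_eq_union, Finset.mem_union]
        by_cases hvB : v ∈ hB.toFinset
        · exact Or.inr hvB
        · left
          rw [Set.Finite.mem_toFinset]
          exact hgood v hv hvB
      refine (nn_mono hsub).trans ?_
      rw [nn_union disjoint_sdiff]
      exact mul_le_mul_of_nonneg_left (nn_mono sdiff_subset) (nn_pos _).le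
    have h1 := hCf t
    have e1 : (fun i => ((![P, Q] : Fin 2 → K[X]) i).eval t) = ![P.eval t, Q.eval t] := by
      funext i
      fin_cases i <;> rfl
    rw [e1, ← Height.logHeight₁_div_eq_logHeight] at h1
    have h2 : (cpt c ⟨t, ho⟩).1 = pt t := rfl
    rw [h2] at hex'
    have h3 := mul_le_mul_of_nonneg_left hr hM0.le
    have h4 : M * (((q : ℝ) - κ) * ht (pt t)) < M * Real.log (nn s) :=
      mul_lt_mul_of_pos_left hex' hM0
    have h5 := le_max_right C1 (Cf + M * Real.log (nn hB.toFinset))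
    have h6 := ht_nonneg (pt t)
    have h7 : (D : ℝ) * ht (pt t) ≤ M * (((q : ℝ) - κ) * ht (pt t)) := by
      rw [← mul_assoc]
      refine mul_le_mul_of_nonneg_right ?_ h6
      linarith
    refine le_trans ?_ (add_le_add h5 h3)
    refine h1.trans ?_
    linarith

end Pool.Agent.X61.RI
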