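import Pool.Agent.X61.RI.Disc

/-! Tuples of points of the projective line: the heights of the cross ratios and the minimal
discriminant, if the primes of bad reduction are in a random set. -/

set_option autoImplicit false

namespace Pool.Agent.X61.RI.Tup

open NumberField IsDedekindDomain Finset MeasureTheory ProbabilityTheory
open Pool.Agent.H691R3 Pool.Agent.TH876.Loc Pool.Agent.Y911.RR
open Pool.Agent.X61.RI (UnitAt)

variable {K : Type} [Field K] [NumberField K]

/-- the determinant of two vectors -/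
def det (x y : Fin 2 → K) : K := x 0 * y 1 - x 1 * y 0

/-- the vectors `P i` are coordinates of distinct points of the projective line -/
def Distinct {n : ℕ} (P : Fin n → Fin 2 → K) : Prop := ∀ i j, i ≠ j → det (P i) (P j) ≠ 0

/-- the points with the coordinates `P i` are mapped to the points with the coordinates `Q i` by
an automorphism of the projective line over `K` -/
def Isomorphic {n : ℕ} (P Q : Fin n → Fin 2 → K) : Prop :=
  ∃ (a b c d : K) (u : Fin n → K), a * d - b * c ≠ 0 ∧ (∀ i, u i ≠ 0) ∧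
    ∀ i, Q i 0 = u i * (a * P i 0 + b * P i 1) ∧ Q i 1 = u i * (c * P i 0 + d * P i 1)

/-- good reduction at `v`: after an automorphism of the projective line the points have
`v`-integral coordinates and stay distinct modulo `v` -/
def GoodAt {n : ℕ} (v : HeightOneSpectrum (𝓞 K)) (P : Fin n → Fin 2 → K) : Prop :=
  ∃ Q, Isomorphic P Q ∧ (∀ i j, v.valuation K (Q i j) ≤ 1) ∧
    ∀ i j, i ≠ j → v.valuation K (det (Q i) (Q j)) = 1

/-! ### cross ratios -/

/-- the coordinate of `w` for which `x`, `y`, `z` are `∞`, `0`, `1` -/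
def cr (x y z w : Fin 2 → K) : K := det w y * det z x / (det w x * det z y)

omit [NumberField K] in
theorem det_comm (x y : Fin 2 → K) : det x y = -det y x := by
  unfold det
  ring

omit [NumberField K] in
theorem det_self (x : Fin 2 → K) : det x x = 0 := by
  unfold det
  ring

omit [NumberField K] in
theorem cr_sub_one {x y z w : Fin 2 → K} (h1 : det w x ≠ 0) (h2 : det z y ≠ 0) :
    cr x y z w - 1 = -(det w z * det x y) / (det w x * det z y) := by
  unfold cr
  rw [div_sub_one (mul_ne_zero h1 h2)]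
  congr 1
  unfold det
  ring

omit [NumberField K] in
theorem det_iso {n : ℕ} {P Q : Fin n → Fin 2 → K} {a b c d : K} {u : Fin n → K}
    (h : ∀ i, Q i 0 = u i * (a * P i 0 + b * P i 1) ∧ Q i 1 = u i * (c * P i 0 + d * P i 1))
    (i j : Fin n) : det (Q i) (Q j) = u i * u j * (a * d - b * c) * det (P i) (P j) := by
  unfold det
  rw [(h i).1, (h i).2, (h j).1, (h j).2]
  ring

omit [NumberField K] in
theorem distinct_iso {n : ℕ} {P Q : Fin n → Fin 2 → K} (hP : Distinct P)
    (h : Isomorphic P Q) : Distinct Q := by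
  obtain ⟨a, b, c, d, u, hD, hu, hQ⟩ := h
  intro i j hij
  rw [det_iso hQ]
  exact mul_ne_zero (mul_ne_zero (mul_ne_zero (hu i) (hu j)) hD) (hP i j hij)

omit [NumberField K] in
theorem cr_iso {n : ℕ} {P Q : Fin n → Fin 2 → K} (h : Isomorphic P Q) (i j k l : Fin n) :
    cr (Q i) (Q j) (Q k) (Q l) = cr (P i) (P j) (P k) (P l) := by
  obtain ⟨a, b, c, d, u, hD, hu, hQ⟩ := h
  have e : u i * u j * u k * u l * (a * d - b * c) ^ 2 ≠ 0 :=
    mul_ne_zero (mul_ne_zero (mul_ne_zero (mul_ne_zero (hu i) (hu j)) (hu k)) (hu l))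
      (pow_ne_zero _ hD)
  unfold cr
  simp only [det_iso hQ]
  rw [← mul_div_mul_left (det (P l) (P j) * det (P k) (P i)) _ e]
  congr 1 <;> ring

theorem unitAt_of_good {n : ℕ} {P : Fin n → Fin 2 → K} {v : HeightOneSpectrum (𝓞 K)}
    (h : GoodAt v P) {i j k l : Fin n} (hij : i ≠ j) (hik : i ≠ k) (hil : i ≠ l) (hjk : j ≠ k)
    (hjl : j ≠ l) (hkl : k ≠ l) : UnitAt v (cr (P i) (P j) (P k) (P l)) := by
  obtain ⟨Q, hPQ, -, hQ⟩ := h
  have hne : ∀ i j, i ≠ j → det (Q i) (Q j) ≠ 0 := by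
    intro i j hij h0
    have := hQ i j hij
    rw [h0, map_zero] at this
    exact zero_ne_one this
  rw [← cr_iso hPQ]
  constructor
  · unfold cr
    rw [map_div₀, map_mul, map_mul, hQ l j hjl.symm, hQ k i hik.symm, hQ l i hil.symm,
      hQ k j hjk.symm]
    simp
  · rw [cr_sub_one (hne l i hil.symm) (hne k j hjk.symm), map_div₀, Valuation.map_neg, map_mul,
      map_mul, hQ l k hkl.symm, hQ i j hij, hQ l i hil.symm, hQ k j hjk.symm]
    simp

/-- the normal form -/
noncomputable def nf {n : ℕ} (P : Fin n → Fin 2 → K) (i₀ i₁ i₂ : Fin n) : Fin n → Fin 2 → K :=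
  fun i => if i = i₀ then ![1, 0] else ![cr (P i₀) (P i₁) (P i₂) (P i), 1]

omit [NumberField K] in
theorem iso_nf {n : ℕ} {P : Fin n → Fin 2 → K} (hP : Distinct P) {i₀ i₁ i₂ : Fin n}
    (h01 : i₀ ≠ i₁) (h02 : i₀ ≠ i₂) (h12 : i₁ ≠ i₂) : Isomorphic P (nf P i₀ i₁ i₂) := by
  classical
  set A := det (P i₂) (P i₀) with hA
  set B := det (P i₂) (P i₁) with hB
  have hA0 : A ≠ 0 := hP _ _ h02.symm
  have hB0 : B ≠ 0 := hP _ _ h12.symm
  refine ⟨P i₁ 1 * A, -(P i₁ 0) * A, P i₀ 1 * B, -(P i₀ 0) * B,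
    fun i => if i = i₀ then (det (P i₀) (P i₁) * A)⁻¹ else (det (P i) (P i₀) * B)⁻¹, ?_, ?_, ?_⟩
  · have e : P i₁ 1 * A * (-(P i₀ 0) * B) - -(P i₁ 0) * A * (P i₀ 1 * B) =
        A * B * det (P i₁) (P i₀) := by
      unfold det
      ring
    rw [e]
    exact mul_ne_zero (mul_ne_zero hA0 hB0) (hP _ _ h01.symm)
  · intro i
    dsimp only
    split_ifs with h
    · exact inv_ne_zero (mul_ne_zero (hP _ _ h01) hA0)
    · exact inv_ne_zero (mul_ne_zero (hP _ _ h) hB0)
  · intro i
    unfold nf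
    by_cases h : i = i₀
    · subst h
      simp only [if_true, Matrix.cons_val_zero, Matrix.cons_val_one]
      have h1 : det (P i) (P i₁) * A ≠ 0 := mul_ne_zero (hP _ _ h01) hA0
      have e1 : P i₁ 1 * A * P i 0 + -(P i₁ 0) * A * P i 1 = det (P i) (P i₁) * A := by
        unfold det
        ring
      have e2 : P i 1 * B * P i 0 + -(P i 0) * B * P i 1 = 0 := by ring
      rw [e1, e2]
      exact ⟨(inv_mul_cancel₀ h1).symm, (mul_zero _).symm⟩
    · simp only [if_neg h, Matrix.cons_val_zero, Matrix.cons_val_one]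
      have h1 : det (P i) (P i₀) * B ≠ 0 := mul_ne_zero (hP _ _ h) hB0
      have e1 : P i₁ 1 * A * P i 0 + -(P i₁ 0) * A * P i 1 = det (P i) (P i₁) * A := by
        unfold det
        ring
      have e2 : P i₀ 1 * B * P i 0 + -(P i₀ 0) * B * P i 1 = det (P i) (P i₀) * B := by
        unfold det
        ring
      rw [e1, e2]
      refine ⟨?_, (inv_mul_cancel₀ h1).symm⟩
      unfold cr
      rw [← hA, ← hB, div_eq_inv_mul]

omit [NumberField K] in
theorem cr_zero {x y z : Fin 2 → K} : cr x y z y = 0 := by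
  unfold cr
  rw [det_self, zero_mul, zero_div]

omit [NumberField K] in
theorem cr_one {x y z : Fin 2 → K} (h1 : det z x ≠ 0) (h2 : det z y ≠ 0) : cr x y z z = 1 := by
  unfold cr
  rw [mul_comm]
  exact div_self (mul_ne_zero h1 h2)

/-- all cross ratios are units and not congruent to `1`: good reduction -/
theorem good_of_unitAt {n : ℕ} {P : Fin n → Fin 2 → K} (hP : Distinct P)
    {v : HeightOneSpectrum (𝓞 K)} {i₀ i₁ i₂ : Fin n}
    (h01 : i₀ ≠ i₁) (h02 : i₀ ≠ i₂) (h12 : i₁ ≠ i₂)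
    (h : ∀ i j, i ≠ i₀ → i ≠ i₁ → j ≠ i₀ → j ≠ i₁ → i ≠ j →
      UnitAt v (cr (P i₀) (P i₁) (P i) (P j))) : GoodAt v P := by
  set lam : Fin n → K := fun i => cr (P i₀) (P i₁) (P i₂) (P i) with hlam
  have hu : ∀ i, i ≠ i₀ → i ≠ i₁ → v.valuation K (lam i) = 1 := by
    intro i h0 h1
    by_cases h2 : i = i₂
    · rw [h2, hlam]
      dsimp only
      rw [cr_one (hP _ _ h02.symm) (hP _ _ h12.symm), map_one]
    · exact (h i₂ i h02.symm h12.symm h0 h1 (Ne.symm h2)).1
  have hint : ∀ i, i ≠ i₀ → v.valuation K (lam i) ≤ 1 := by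
    intro i h0
    by_cases h1 : i = i₁
    · rw [h1, hlam]
      dsimp only
      rw [cr_zero, map_zero]
      exact zero_le_one
    · exact (hu i h0 h1).le
  have hl1 : lam i₁ = 0 := by
    rw [hlam]
    dsimp only
    exact cr_zero
  have hsub : ∀ i j, i ≠ i₀ → j ≠ i₀ → i ≠ j → v.valuation K (lam i - lam j) = 1 := by
    intro i j h0 h0' hij
    by_cases h1 : i = i₁
    · rw [h1, hl1, zero_sub, Valuation.map_neg]
      exact hu j h0' (fun h' => hij (h1.trans h'.symm))
    by_cases h1' : j = i₁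
    · rw [h1', hl1, sub_zero]
      exact hu i h0 h1
    have e : lam i - lam j = lam j * (cr (P i₀) (P i₁) (P j) (P i) - 1) := by
      have g1 := hP i i₀ h0
      have g2 := hP j i₀ h0'
      have g3 := hP j i₁ h1'
      have g4 := hP i₂ i₁ h12.symm
      rw [hlam]
      dsimp only
      unfold cr
      field_simp
    rw [e, map_mul, hu j h0' h1', (h j i h0' h1' h0 h1 (Ne.symm hij)).2, mul_one]
  refine ⟨nf P i₀ i₁ i₂, iso_nf hP h01 h02 h12, ?_, ?_⟩
  · intro i j
    unfold nf
    by_cases h0 : i = i₀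
    · rw [if_pos h0]
      fin_cases j
      · show v.valuation K 1 ≤ 1
        rw [map_one]
      · show v.valuation K 0 ≤ 1
        rw [map_zero]
        exact zero_le_one
    · rw [if_neg h0]
      fin_cases j
      · exact hint i h0
      · show v.valuation K 1 ≤ 1
        rw [map_one]
  · intro i j hij
    unfold nf
    by_cases h0 : i = i₀
    · have h0' : j ≠ i₀ := fun h' => hij (h0.trans h'.symm)
      rw [if_pos h0, if_neg h0']
      have e : det ![(1 : K), 0] ![cr (P i₀) (P i₁) (P i₂) (P j), 1] = 1 := by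
        unfold det
        simp
      rw [e, map_one]
    · by_cases h0' : j = i₀
      · rw [if_neg h0, if_pos h0']
        have e : det ![cr (P i₀) (P i₁) (P i₂) (P i), 1] ![(1 : K), 0] = -1 := by
          unfold det
          simp
        rw [e, Valuation.map_neg, map_one]
      · rw [if_neg h0, if_neg h0']
        have e : det ![cr (P i₀) (P i₁) (P i₂) (P i), 1] ![cr (P i₀) (P i₁) (P i₂) (P j), 1] =
            lam i - lam j := by
          unfold det
          simp [hlam]
        rw [e]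
        exact hsub i j h0 h0' hij

omit [NumberField K] in
theorem cr_off {n : ℕ} {P : Fin n → Fin 2 → K} (hP : Distinct P) {i j k l : Fin n}
    (hij : i ≠ j) (hik : i ≠ k) (hil : i ≠ l) (hjk : j ≠ k)
    (hjl : j ≠ l) (hkl : k ≠ l) :
    cr (P i) (P j) (P k) (P l) ≠ 0 ∧ cr (P i) (P j) (P k) (P l) ≠ 1 := by
  have g1 := hP l i hil.symm
  have g2 := hP k j hjk.symm
  constructor
  · unfold cr
    exact div_ne_zero (mul_ne_zero (hP l j hjl.symm) (hP k i hik.symm)) (mul_ne_zero g1 g2)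
  · rw [← sub_ne_zero, cr_sub_one g1 g2]
    exact div_ne_zero (neg_ne_zero.2 (mul_ne_zero (hP l k hkl.symm) (hP i j hij)))
      (mul_ne_zero g1 g2)


/-! ### the minimal discriminant -/

/-- the logarithm of the norm of the `v`-part of the minimal discriminant of the binary form with
the given zeros: the least value of `-log |D|_v`, where `D` is the product of all determinants, for
`v`-integral coordinates -/
noncomputable def localDisc (v : HeightOneSpectrum (𝓞 K)) {n : ℕ} (P : Fin n → Fin 2 → K) : ℝ :=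
  sInf {r : ℝ | ∃ Q, Isomorphic P Q ∧ (∀ i j, v.valuation K (Q i j) ≤ 1) ∧
    r = ∑ i, ∑ j ∈ Finset.univ.erase i, -Real.log (FinitePlace.mk v (det (Q i) (Q j)))}

/-- the logarithm of the norm of the minimal discriminant -/
noncomputable def logDisc {n : ℕ} (P : Fin n → Fin 2 → K) : ℝ :=
  ∑ᶠ v : HeightOneSpectrum (𝓞 K), localDisc v P

/-- the logarithm of the product of the norms of the primes of bad reduction -/
noncomputable def logBad {n : ℕ} (P : Fin n → Fin 2 → K) : ℝ :=
  ∑ᶠ (v : HeightOneSpectrum (𝓞 K)) (_ : v ∈ {v : HeightOneSpectrum (𝓞 K) | ¬ GoodAt v P}),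
    Real.log (Ideal.absNorm v.asIdeal : ℝ)

theorem det_int {v : Pr K} {x y : Fin 2 → K} (hx : ∀ j, v.valuation K (x j) ≤ 1)
    (hy : ∀ j, v.valuation K (y j) ≤ 1) : v.valuation K (det x y) ≤ 1 := by
  unfold det
  refine Valuation.map_sub_le _ ?_ ?_
  · rw [map_mul]
    exact mul_le_one' (hx 0) (hy 1)
  · rw [map_mul]
    exact mul_le_one' (hx 1) (hy 0)

theorem sum_nonneg' {v : Pr K} {n : ℕ} {Q : Fin n → Fin 2 → K}
    (hQ : ∀ i j, v.valuation K (Q i j) ≤ 1) :
    0 ≤ ∑ i, ∑ j ∈ Finset.univ.erase i, -Real.log (FinitePlace.mk v (det (Q i) (Q j))) := by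
  refine Finset.sum_nonneg fun i _ => Finset.sum_nonneg fun j _ => ?_
  have h1 := (val_le_one v _).1 (det_int (hQ i) (hQ j))
  have h2 : Real.log (FinitePlace.mk v (det (Q i) (Q j))) ≤ 0 :=
    Real.log_nonpos ((fv v).nonneg _) h1
  linarith

theorem localDisc_nonneg (v : Pr K) {n : ℕ} (P : Fin n → Fin 2 → K) : 0 ≤ localDisc v P := by
  refine Real.sInf_nonneg ?_
  rintro r ⟨Q, -, hQ, rfl⟩
  exact sum_nonneg' hQ

theorem localDisc_le {v : Pr K} {n : ℕ} {P Q : Fin n → Fin 2 → K} (h : Isomorphic P Q)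
    (hQ : ∀ i j, v.valuation K (Q i j) ≤ 1) :
    localDisc v P ≤ ∑ i, ∑ j ∈ Finset.univ.erase i, -Real.log (fv v (det (Q i) (Q j))) := by
  refine csInf_le ⟨0, ?_⟩ ⟨Q, h, hQ, rfl⟩
  rintro r ⟨Q', -, hQ', rfl⟩
  exact sum_nonneg' hQ'

theorem localDisc_good {v : Pr K} {n : ℕ} {P : Fin n → Fin 2 → K} (h : GoodAt v P) :
    localDisc v P = 0 := by
  obtain ⟨Q, h1, h2, h3⟩ := h
  refine le_antisymm ((localDisc_le h1 h2).trans (le_of_eq ?_)) (localDisc_nonneg v P)
  refine Finset.sum_eq_zero fun i _ => Finset.sum_eq_zero fun j hj => ?_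
  rw [(val_eq_one v _).1 (h3 i j (Finset.ne_of_mem_erase hj).symm), Real.log_one, neg_zero]

/-- `log |x|` and `log |y|` and the distance -/
noncomputable def pr (v : Pr K) (x y : K) : ℝ :=
  Real.posLog (fv v x) + Real.posLog (fv v y) - Real.log (fv v (x - y))

theorem posLog_eq (v : Pr K) (x : K) : Real.posLog (fv v x) = Real.log (max 1 (fv v x)) :=
  Real.posLog_eq_log_max_one ((fv v).nonneg _)

theorem pr_nonneg (v : Pr K) {x y : K} (h : x ≠ y) : 0 ≤ pr v x y := by
  unfold pr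
  have h0 : 0 < fv v (x - y) := (fv v).pos (sub_ne_zero.2 h)
  have h1 : fv v (x - y) ≤ max 1 (fv v x) * max 1 (fv v y) := by
    have k := fv_na v x (-y)
    rw [← sub_eq_add_neg, AbsoluteValue.map_neg] at k
    have a1 : 1 ≤ max 1 (fv v x) := le_max_left _ _
    have a2 : 1 ≤ max 1 (fv v y) := le_max_left _ _
    refine k.trans (max_le ?_ ?_)
    · calc fv v x ≤ max 1 (fv v x) := le_max_right _ _
        _ = max 1 (fv v x) * 1 := (mul_one _).symm
        _ ≤ _ := mul_le_mul_of_nonneg_left a2 (by linarith)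
    · calc fv v y ≤ max 1 (fv v y) := le_max_right _ _
        _ = 1 * max 1 (fv v y) := (one_mul _).symm
        _ ≤ _ := mul_le_mul_of_nonneg_right a1 (by linarith)
  have h2 := Real.log_le_log h0 h1
  rw [Real.log_mul (lt_max_of_lt_left one_pos).ne' (lt_max_of_lt_left one_pos).ne',
    ← posLog_eq, ← posLog_eq] at h2
  linarith

/-- the constant of the archimedean places -/
noncomputable def arc (K : Type) [Field K] [NumberField K] : ℝ :=
  ∑ w : InfinitePlace K, (w.mult : ℝ) * Real.log 2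

theorem arc_nonneg : 0 ≤ arc K :=
  Finset.sum_nonneg fun w _ => mul_nonneg (Nat.cast_nonneg _) (Real.log_nonneg (by norm_num))

theorem pair_sum {x y : K} (h : x ≠ y) (B : Finset (Pr K)) :
    ∑ v ∈ B, pr v x y ≤ Height.logHeight₁ x + Height.logHeight₁ y + arc K := by
  classical
  have hxy : x - y ≠ 0 := sub_ne_zero.2 h
  obtain ⟨B', hB'⟩ : ∃ B' : Finset (Pr K), B' = B ∪ ((posLog_finite x).toFinset ∪
    ((posLog_finite y).toFinset ∪ (log_fv_support_finite hxy).toFinset)) := ⟨_, rfl⟩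
  have h1 : ∑ v ∈ B, pr v x y ≤ ∑ v ∈ B', pr v x y := by
    rw [hB']
    exact Finset.sum_le_sum_of_subset_of_nonneg subset_union_left fun v _ _ => pr_nonneg v h
  have e1 : ∑ᶠ v : Pr K, Real.posLog (fv v x) = ∑ v ∈ B', Real.posLog (fv v x) := by
    refine finsum_eq_sum_of_support_subset _ ?_
    rw [hB']
    intro v hv
    simp only [Finset.coe_union, Set.Finite.coe_toFinset, Set.mem_union]
    exact Or.inr (Or.inl hv)
  have e2 : ∑ᶠ v : Pr K, Real.posLog (fv v y) = ∑ v ∈ B', Real.posLog (fv v y) := by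
    refine finsum_eq_sum_of_support_subset _ ?_
    rw [hB']
    intro v hv
    simp only [Finset.coe_union, Set.Finite.coe_toFinset, Set.mem_union]
    exact Or.inr (Or.inr (Or.inl hv))
  have e3 : ∑ᶠ v : Pr K, Real.log (fv v (x - y)) = ∑ v ∈ B', Real.log (fv v (x - y)) := by
    refine finsum_eq_sum_of_support_subset _ ?_
    rw [hB']
    intro v hv
    simp only [Finset.coe_union, Set.Finite.coe_toFinset, Set.mem_union]
    exact Or.inr (Or.inr (Or.inr hv))
  have e4 : ∑ v ∈ B', pr v x y = ∑ v ∈ B', Real.posLog (fv v x) +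
      ∑ v ∈ B', Real.posLog (fv v y) - ∑ v ∈ B', Real.log (fv v (x - y)) := by
    unfold pr
    rw [Finset.sum_sub_distrib, Finset.sum_add_distrib]
  have k := log_product_formula (K := K) hxy
  have hh : ∀ z : K, Height.logHeight₁ z = ∑ w : InfinitePlace K, (w.mult : ℝ) *
      Real.posLog (w z) + ∑ᶠ v : Pr K, Real.posLog (fv v z) := by
    intro z
    rw [NumberField.logHeight₁_eq]
    congr 1
    rw [← finsum_comp_equiv (FinitePlace.equivHeightOneSpectrum (K := K)).symm]
    rfl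
  have h5 : ∑ w : InfinitePlace K, (w.mult : ℝ) * Real.log (w (x - y)) ≤
      ∑ w : InfinitePlace K, (w.mult : ℝ) * Real.posLog (w x) +
      ∑ w : InfinitePlace K, (w.mult : ℝ) * Real.posLog (w y) + arc K := by
    unfold arc
    rw [← Finset.sum_add_distrib, ← Finset.sum_add_distrib]
    refine Finset.sum_le_sum fun w _ => ?_
    rw [← mul_add, ← mul_add]
    refine mul_le_mul_of_nonneg_left ?_ (Nat.cast_nonneg _)
    have g0 : 0 < w (x - y) := InfinitePlace.pos_iff.2 hxy
    have g1 : w (x - y) ≤ w x + w y := by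
      have := w.1.sub_le_add x y
      exact this
    have m1 : 1 ≤ max 1 (w x) := le_max_left _ _
    have m2 : 1 ≤ max 1 (w y) := le_max_left _ _
    have m3 : w x ≤ max 1 (w x) := le_max_right _ _
    have m4 : w y ≤ max 1 (w y) := le_max_right _ _
    have g2 : w (x - y) ≤ max 1 (w x) * max 1 (w y) * 2 := by nlinarith
    have g3 := Real.log_le_log g0 g2
    rw [Real.log_mul (mul_pos (by linarith) (by linarith)).ne' (by norm_num),
      Real.log_mul (by linarith) (by linarith),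
      ← Real.posLog_eq_log_max_one (apply_nonneg w x),
      ← Real.posLog_eq_log_max_one (apply_nonneg w y)] at g3
    exact g3
  rw [hh x, hh y, e1, e2]
  rw [e3] at k
  rw [e4] at h1
  linarith

/-! ### the normal form at a prime -/

/-- the scaling of the normal form -/
noncomputable def wt (v : Pr K) {n : ℕ} (P : Fin n → Fin 2 → K) (i₀ i₁ i₂ i : Fin n) : K :=
  if i = i₀ then 1 else
    if v.valuation K (cr (P i₀) (P i₁) (P i₂) (P i)) ≤ 1 then 1 else
      (cr (P i₀) (P i₁) (P i₂) (P i))⁻¹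

theorem wt_ne (v : Pr K) {n : ℕ} (P : Fin n → Fin 2 → K) (i₀ i₁ i₂ i : Fin n) :
    wt v P i₀ i₁ i₂ i ≠ 0 := by
  unfold wt
  split_ifs with h h'
  · exact one_ne_zero
  · exact one_ne_zero
  · intro h0
    rw [inv_eq_zero] at h0
    rw [h0, map_zero] at h'
    exact h' zero_le_one

theorem wt_abs (v : Pr K) {n : ℕ} (P : Fin n → Fin 2 → K) (i₀ i₁ i₂ i : Fin n) (hi : i ≠ i₀) :
    -Real.log (fv v (wt v P i₀ i₁ i₂ i)) =
      Real.posLog (fv v (cr (P i₀) (P i₁) (P i₂) (P i))) := by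
  unfold wt
  rw [if_neg hi]
  split_ifs with h'
  · rw [map_one, Real.log_one, neg_zero, eq_comm, Real.posLog_eq_zero_iff,
      abs_of_nonneg ((fv v).nonneg _)]
    exact (val_le_one v _).1 h'
  · rw [map_inv₀, Real.log_inv, neg_neg, eq_comm, Real.posLog_apply, max_eq_right]
    refine Real.log_nonneg (le_of_lt ?_)
    by_contra hcon
    exact h' ((val_le_one v _).2 (not_lt.1 hcon))

/-- the local contribution -/
noncomputable def T (v : Pr K) {n : ℕ} (P : Fin n → Fin 2 → K) (i₀ i₁ i₂ i j : Fin n) : ℝ :=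
  if i = i₀ then Real.posLog (fv v (cr (P i₀) (P i₁) (P i₂) (P j))) else
    if j = i₀ then Real.posLog (fv v (cr (P i₀) (P i₁) (P i₂) (P i))) else
      pr v (cr (P i₀) (P i₁) (P i₂) (P i)) (cr (P i₀) (P i₁) (P i₂) (P j))

theorem loc {n : ℕ} {P : Fin n → Fin 2 → K} (hP : Distinct P) {i₀ i₁ i₂ : Fin n}
    (h01 : i₀ ≠ i₁) (h02 : i₀ ≠ i₂) (h12 : i₁ ≠ i₂) (v : Pr K) :
    localDisc v P ≤ ∑ i, ∑ j ∈ Finset.univ.erase i, T v P i₀ i₁ i₂ i j := by
  classical
  obtain ⟨N, hN⟩ : ∃ N : Fin n → Fin 2 → K, N = nf P i₀ i₁ i₂ := ⟨_, rfl⟩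
  have hiso := iso_nf hP h01 h02 h12
  have hdN := distinct_iso hP hiso
  obtain ⟨Q, hQ⟩ : ∃ Q : Fin n → Fin 2 → K, Q = fun i j => wt v P i₀ i₁ i₂ i * N i j := ⟨_, rfl⟩
  have hPQ : Isomorphic P Q := by
    obtain ⟨a, b, c, d, u, hD, hu, h⟩ := hiso
    refine ⟨a, b, c, d, fun i => wt v P i₀ i₁ i₂ i * u i, hD,
      fun i => mul_ne_zero (wt_ne v P i₀ i₁ i₂ i) (hu i), fun i => ?_⟩
    rw [hQ, hN]
    dsimp only
    rw [(h i).1, (h i).2]
    constructor <;> ring
  have hint : ∀ i j, v.valuation K (Q i j) ≤ 1 := by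
    intro i j
    rw [hQ, hN]
    dsimp only
    unfold nf wt
    by_cases h0 : i = i₀
    · rw [if_pos h0, if_pos h0, one_mul]
      fin_cases j
      · show v.valuation K 1 ≤ 1
        rw [map_one]
      · show v.valuation K 0 ≤ 1
        rw [map_zero]
        exact zero_le_one
    · rw [if_neg h0, if_neg h0]
      by_cases h1 : v.valuation K (cr (P i₀) (P i₁) (P i₂) (P i)) ≤ 1
      · rw [if_pos h1, one_mul]
        fin_cases j
        · exact h1
        · show v.valuation K 1 ≤ 1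
          rw [map_one]
      · rw [if_neg h1]
        have hne : cr (P i₀) (P i₁) (P i₂) (P i) ≠ 0 := by
          intro h2
          rw [h2, map_zero] at h1
          exact h1 zero_le_one
        fin_cases j
        · show v.valuation K ((cr (P i₀) (P i₁) (P i₂) (P i))⁻¹ *
            cr (P i₀) (P i₁) (P i₂) (P i)) ≤ 1
          rw [inv_mul_cancel₀ hne, map_one]
        · show v.valuation K ((cr (P i₀) (P i₁) (P i₂) (P i))⁻¹ * 1) ≤ 1
          rw [mul_one, map_inv₀]
          exact inv_le_one_of_one_le₀ (not_le.1 h1).le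
  refine (localDisc_le hPQ hint).trans (le_of_eq ?_)
  refine Finset.sum_congr rfl fun i _ => Finset.sum_congr rfl fun j hj => ?_
  have hij : i ≠ j := (Finset.ne_of_mem_erase hj).symm
  have hd : det (Q i) (Q j) = wt v P i₀ i₁ i₂ i * wt v P i₀ i₁ i₂ j * det (N i) (N j) := by
    rw [hQ]
    unfold det
    ring
  have hdn : det (N i) (N j) ≠ 0 := by
    rw [hN]
    exact hdN i j hij
  have f1 : fv v (wt v P i₀ i₁ i₂ i) ≠ 0 := (fv v).ne_zero (wt_ne v P i₀ i₁ i₂ i)
  have f2 : fv v (wt v P i₀ i₁ i₂ j) ≠ 0 := (fv v).ne_zero (wt_ne v P i₀ i₁ i₂ j)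
  have f3 : fv v (det (N i) (N j)) ≠ 0 := (fv v).ne_zero hdn
  rw [hd, map_mul, map_mul, Real.log_mul (mul_ne_zero f1 f2) f3, Real.log_mul f1 f2]
  unfold T
  by_cases h0 : i = i₀
  · have h0' : j ≠ i₀ := fun h' => hij (h0.trans h'.symm)
    have e : det (N i) (N j) = 1 := by
      rw [hN]
      unfold nf det
      rw [if_pos h0, if_neg h0']
      simp
    have e1 : wt v P i₀ i₁ i₂ i = 1 := by
      unfold wt
      rw [if_pos h0]
    rw [if_pos h0, e, e1, map_one, Real.log_one, ← wt_abs v P i₀ i₁ i₂ j h0']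
    ring
  · by_cases h0' : j = i₀
    · have e : det (N i) (N j) = -1 := by
        rw [hN]
        unfold nf det
        rw [if_neg h0, if_pos h0']
        simp
      have e1 : wt v P i₀ i₁ i₂ j = 1 := by
        unfold wt
        rw [if_pos h0']
      rw [if_neg h0, if_pos h0', e, e1, AbsoluteValue.map_neg, map_one, Real.log_one,
        ← wt_abs v P i₀ i₁ i₂ i h0]
      ring
    · have e : det (N i) (N j) =
          cr (P i₀) (P i₁) (P i₂) (P i) - cr (P i₀) (P i₁) (P i₂) (P j) := by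
        rw [hN]
        unfold nf
        rw [if_neg h0, if_neg h0']
        unfold det
        simp
      rw [if_neg h0, if_neg h0', e]
      unfold pr
      rw [← wt_abs v P i₀ i₁ i₂ i h0, ← wt_abs v P i₀ i₁ i₂ j h0']
      ring

theorem unitAt_finite {x : K} (h0 : x ≠ 0) (h1 : x ≠ 1) : {v : Pr K | ¬ UnitAt v x}.Finite := by
  refine ((unit_finite h0).union (unit_finite (sub_ne_zero.2 h1))).subset fun v hv => ?_
  by_contra hcon
  rw [Set.mem_union, not_or] at hcon
  apply hv
  refine ⟨?_, ?_⟩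
  · by_contra h
    exact hcon.1 h
  · by_contra h
    exact hcon.2 h

theorem bad_finite {n : ℕ} {P : Fin n → Fin 2 → K} (hP : Distinct P) {i₀ i₁ i₂ : Fin n}
    (h01 : i₀ ≠ i₁) (h02 : i₀ ≠ i₂) (h12 : i₁ ≠ i₂) : {v : Pr K | ¬ GoodAt v P}.Finite := by
  have h : (⋃ i : Fin n, ⋃ j : Fin n, {v : Pr K | ¬ (i ≠ i₀ → i ≠ i₁ → j ≠ i₀ → j ≠ i₁ → i ≠ j →
      UnitAt v (cr (P i₀) (P i₁) (P i) (P j)))}).Finite := by
    refine Set.finite_iUnion fun i => Set.finite_iUnion fun j => ?_
    by_cases hc : i ≠ i₀ ∧ i ≠ i₁ ∧ j ≠ i₀ ∧ j ≠ i₁ ∧ i ≠ j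
    · obtain ⟨a1, a2, a3, a4, a5⟩ := hc
      obtain ⟨c0, c1⟩ := cr_off hP h01 a1.symm a3.symm a2.symm a4.symm a5
      exact (unitAt_finite c0 c1).subset fun v hv h => hv fun _ _ _ _ _ => h
    · refine Set.finite_empty.subset fun v hv => ?_
      exfalso
      exact hv fun a1 a2 a3 a4 a5 => absurd ⟨a1, a2, a3, a4, a5⟩ hc
  refine h.subset fun v hv => ?_
  by_contra hcon
  simp only [Set.mem_iUnion, not_exists] at hcon
  apply hv
  refine good_of_unitAt hP h01 h02 h12 fun i j a1 a2 a3 a4 a5 => ?_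
  by_contra hu
  exact hcon i j fun h => hu (h a1 a2 a3 a4 a5)

theorem double_sum {n : ℕ} (g : Fin n → ℝ) (a : ℝ) :
    ∑ i, ∑ j ∈ Finset.univ.erase i, (g i + g j + a) =
      2 * ((n : ℝ) - 1) * ∑ i, g i + n * ((n : ℝ) - 1) * a := by
  have h1 : ∀ i : Fin n, ∑ j ∈ Finset.univ.erase i, (g i + g j + a) =
      ∑ j, (g i + g j + a) - (g i + g i + a) := by
    intro i
    rw [eq_sub_iff_add_eq]
    exact Finset.sum_erase_add _ _ (Finset.mem_univ i)
  simp only [h1, Finset.sum_sub_distrib, Finset.sum_add_distrib, Finset.sum_const,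
    Finset.card_univ, Fintype.card_fin, nsmul_eq_mul, ← Finset.mul_sum]
  ring

theorem logDisc_le {n : ℕ} {P : Fin n → Fin 2 → K} (hP : Distinct P) {i₀ i₁ i₂ : Fin n}
    (h01 : i₀ ≠ i₁) (h02 : i₀ ≠ i₂) (h12 : i₁ ≠ i₂) {X : ℝ}
    (hX : ∀ i, i ≠ i₀ → i ≠ i₁ → i ≠ i₂ →
      Height.logHeight₁ (cr (P i₀) (P i₁) (P i₂) (P i)) ≤ X) :
    logDisc P ≤ 2 * ((n : ℝ) - 1) * (((n : ℝ) - 3) * X) + n * ((n : ℝ) - 1) * arc K := by
  classical
  have hbad := bad_finite hP h01 h02 h12
  have e1 : logDisc P = ∑ v ∈ hbad.toFinset, localDisc v P := by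
    refine finsum_eq_sum_of_support_subset _ ?_
    rw [Set.Finite.coe_toFinset]
    intro v hv h
    exact hv (localDisc_good h)
  obtain ⟨g, hg⟩ : ∃ g : Fin n → ℝ, g = fun i => if i = i₀ then 0 else
      Height.logHeight₁ (cr (P i₀) (P i₁) (P i₂) (P i)) := ⟨_, rfl⟩
  have hcr : ∀ i j, i ≠ i₀ → j ≠ i₀ → i ≠ j →
      cr (P i₀) (P i₁) (P i₂) (P i) ≠ cr (P i₀) (P i₁) (P i₂) (P j) := by
    intro i j h0 h0' hij h
    have hiso := iso_nf hP h01 h02 h12
    have := distinct_iso hP hiso i j hij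
    apply this
    unfold nf det
    rw [if_neg h0, if_neg h0', h]
    ring
  have ha := arc_nonneg (K := K)
  have h1 : ∀ i, ∀ j ∈ Finset.univ.erase i,
      ∑ v ∈ hbad.toFinset, T v P i₀ i₁ i₂ i j ≤ g i + g j + arc K := by
    intro i j hj
    have hij : i ≠ j := (Finset.ne_of_mem_erase hj).symm
    rw [hg]
    unfold T
    dsimp only
    by_cases h0 : i = i₀
    · have h0' : j ≠ i₀ := fun h' => hij (h0.trans h'.symm)
      simp only [if_pos h0, if_neg h0']
      have := sum_posLog_le (cr (P i₀) (P i₁) (P i₂) (P j)) hbad.toFinset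
      linarith
    · by_cases h0' : j = i₀
      · simp only [if_neg h0, if_pos h0']
        have := sum_posLog_le (cr (P i₀) (P i₁) (P i₂) (P i)) hbad.toFinset
        linarith
      · simp only [if_neg h0, if_neg h0']
        exact pair_sum (hcr i j h0 h0' hij) _
  have h2 : logDisc P ≤ ∑ i, ∑ j ∈ Finset.univ.erase i, (g i + g j + arc K) := by
    rw [e1]
    refine (Finset.sum_le_sum fun v _ => loc hP h01 h02 h12 v).trans ?_
    rw [Finset.sum_comm]
    refine Finset.sum_le_sum fun i _ => ?_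
    rw [Finset.sum_comm]
    exact Finset.sum_le_sum fun j hj => h1 i j hj
  rw [double_sum] at h2
  have hn1 : (1 : ℝ) ≤ n := by
    have : 0 < n := i₀.pos
    exact_mod_cast this
  have h3 : ∑ i, g i ≤ ((n : ℝ) - 3) * X := by
    have hg0 : g i₀ = 0 := by
      rw [hg]
      dsimp only
      rw [if_pos rfl]
    have hg1 : g i₁ = 0 := by
      rw [hg]
      dsimp only
      rw [if_neg h01.symm, cr_zero, Height.logHeight₁_zero]
    have hg2 : g i₂ = 0 := by
      rw [hg]
      dsimp only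
      rw [if_neg h02.symm, cr_one (hP _ _ h02.symm) (hP _ _ h12.symm), Height.logHeight₁_one]
    have hs : ∑ i, g i = ∑ i ∈ ((Finset.univ.erase i₀).erase i₁).erase i₂, g i := by
      rw [Finset.sum_erase _ hg2, Finset.sum_erase _ hg1, Finset.sum_erase _ hg0]
    have hc : (((Finset.univ.erase i₀).erase i₁).erase i₂).card = n - 3 := by
      rw [Finset.card_erase_of_mem, Finset.card_erase_of_mem, Finset.card_erase_of_mem,
        Finset.card_univ, Fintype.card_fin]
      · omega
      · exact Finset.mem_univ _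
      · exact Finset.mem_erase.2 ⟨h01.symm, Finset.mem_univ _⟩
      · exact Finset.mem_erase.2 ⟨h12.symm, Finset.mem_erase.2 ⟨h02.symm, Finset.mem_univ _⟩⟩
    have hn3 : 3 ≤ n := by
      have h4 : ({i₀, i₁, i₂} : Finset (Fin n)).card = 3 := Finset.card_eq_three.2
        ⟨i₀, i₁, i₂, h01, h02, h12, rfl⟩
      have h5 := Finset.card_le_univ ({i₀, i₁, i₂} : Finset (Fin n))
      rw [h4, Fintype.card_fin] at h5
      exact h5
    rw [hs]
    calc ∑ i ∈ ((Finset.univ.erase i₀).erase i₁).erase i₂, g i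
        ≤ ∑ _i ∈ ((Finset.univ.erase i₀).erase i₁).erase i₂, X := by
          refine Finset.sum_le_sum fun i hi => ?_
          rw [Finset.mem_erase, Finset.mem_erase, Finset.mem_erase] at hi
          rw [hg]
          dsimp only
          rw [if_neg hi.2.2.1]
          exact hX i hi.2.2.1 hi.2.1 hi.1
      _ = ((n : ℝ) - 3) * X := by
          rw [Finset.sum_const, hc, nsmul_eq_mul, Nat.cast_sub hn3]
          push_cast
          ring
  have h4 : 2 * ((n : ℝ) - 1) * ∑ i, g i ≤ 2 * ((n : ℝ) - 1) * (((n : ℝ) - 3) * X) :=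
    mul_le_mul_of_nonneg_left h3 (by linarith)
  linarith

end Pool.Agent.X61.RI.Tup
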