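import Pool.Agent.X61.RI.Tup

/-! The heights of the solutions of the unit equation for a random set of primes. -/

set_option autoImplicit false

namespace Pool.Agent.X61.RI.Tup

open NumberField IsDedekindDomain Finset MeasureTheory ProbabilityTheory Polynomial
open Pool.Agent.H691R3 Pool.Agent.TH876.Loc Pool.Agent.Y911.RR
open Pool.Agent.X61.RI (UnitAt)

variable {K : Type} [Field K] [NumberField K]

/-- the line `x + (1 - x) - 1 = 0` -/
noncomputable def lin (K : Type) [Field K] : Fin 3 → K[X] := ![X, 1 - X, -1]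

theorem lin_curve (K : Type) [Field K] : IsCurve (lin K) 1 := by
  refine ⟨?_, ?_, ⟨0, ?_, ?_⟩, ![1, 1, 0], ?_⟩
  · unfold lin
    rw [Fin.sum_univ_three]
    show X + (1 - X) + -1 = (0 : K[X])
    ring
  · intro i
    unfold lin
    fin_cases i
    · show (X : K[X]).natDegree ≤ 1
      exact natDegree_X_le
    · show (1 - X : K[X]).natDegree ≤ 1
      refine (natDegree_sub_le _ _).trans ?_
      rw [natDegree_one]
      exact max_le (by norm_num) natDegree_X_le
    · show (-1 : K[X]).natDegree ≤ 1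
      rw [natDegree_neg, natDegree_one]
      norm_num
  · exact X_ne_zero
  · exact natDegree_X
  · rw [Fin.sum_univ_three]
    show 1 * X + 1 * (1 - X) + 0 * -1 = (1 : K[X])
    ring

theorem lin_meets (K : Type) [Field K] (l : Fin 3) :
    Meets (lin K) 1 ((![some 0, some 1, none] : Fin 3 → Option K) l) := by
  fin_cases l
  · show ∃ i, (lin K i).eval 0 = 0
    exact ⟨0, eval_X⟩
  · show ∃ i, (lin K i).eval 1 = 0
    refine ⟨1, ?_⟩
    show (1 - X : K[X]).eval 1 = 0
    rw [eval_sub, eval_one, eval_X, sub_self]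
  · show ∃ i, (lin K i).natDegree < 1
    refine ⟨2, ?_⟩
    show (-1 : K[X]).natDegree < 1
    rw [natDegree_neg, natDegree_one]
    norm_num

theorem lin_inj (K : Type) [Field K] :
    Function.Injective (![some 0, some 1, none] : Fin 3 → Option K) := by
  intro i j hij
  fin_cases i <;> fin_cases j <;> simp at hij ⊢

omit [NumberField K] in
theorem lin_eval (x : K) : (fun i => (lin K i).eval x) = ![x, 1 - x, -1] := by
  unfold lin
  funext i
  fin_cases i
  · exact eval_X
  · show (1 - X : K[X]).eval x = 1 - x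
    rw [eval_sub, eval_one, eval_X]
  · show (-1 : K[X]).eval x = -1
    rw [eval_neg, eval_one]

theorem lin_csupp (x : K) : csupp (![x, 1 - x, -1] : Fin 3 → K) = {v : Pr K | ¬ UnitAt v x} := by
  ext v
  have em : v.valuation K (-1) = 1 := by rw [Valuation.map_neg, map_one]
  have es : v.valuation K (1 - x) = v.valuation K (x - 1) := Valuation.map_sub_swap _ _ _
  constructor
  · rintro ⟨i, j, hij⟩ hu
    apply hij
    have h : ∀ i, v.valuation K ((![x, 1 - x, -1] : Fin 3 → K) i) = 1 := by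
      intro i
      fin_cases i
      · exact hu.1
      · exact es.trans hu.2
      · exact em
    rw [h i, h j]
  · intro hu
    by_contra hcon
    apply hu
    have h : ∀ i j, v.valuation K ((![x, 1 - x, -1] : Fin 3 → K) i) =
        v.valuation K ((![x, 1 - x, -1] : Fin 3 → K) j) := by
      intro i j
      by_contra h
      exact hcon ⟨i, j, h⟩
    exact ⟨(h 0 2).trans em, es.symm.trans ((h 1 2).trans em)⟩

theorem lin_height (x : K) :
    Height.logHeight₁ x ≤ Height.logHeight (![x, 1 - x, -1] : Fin 3 → K) := by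
  have h := Height.logHeight_comp_le (![0, 2] : Fin 2 → Fin 3) (![x, 1 - x, -1] : Fin 3 → K)
  have e : (![x, 1 - x, -1] : Fin 3 → K) ∘ (![0, 2] : Fin 2 → Fin 3) = ![x, -1] := by
    funext i
    fin_cases i <;> rfl
  rw [e, ← Height.logHeight₁_div_eq_logHeight, div_neg, div_one, Height.logHeight₁_neg] at h
  exact h

theorem units_height {M : ℝ} (hM : 1 / 3 < M) : ∃ ν : ℝ, 0 < ν ∧ ∀ τ : ℝ, 0 ≤ τ →
    2 / 3 - ν < τ → ∀ {Ω : Type} [MeasurableSpace Ω] (μ : Measure Ω) (E : Pr K → Set Ω),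
      iIndepSet E μ → (∀ v, μ (E v) ≤ ENNReal.ofReal ((Nv v) ^ (-τ))) →
    ∀ᵐ ω ∂μ, ∀ S : Finset (Pr K), ∃ C : ℝ, 0 ≤ C ∧ ∀ x : K, x ≠ 0 → x ≠ 1 →
      (∀ v, ¬ UnitAt v x → v ∈ S ∨ ω ∈ E v) → Height.logHeight₁ x ≤
        C + M * ∑ᶠ (v : Pr K) (_ : v ∈ {v : Pr K | ¬ UnitAt v x}), Real.log (Nv v) := by
  obtain ⟨ν, hν, h⟩ := curve_exc (q := 3) le_rfl (lin_curve K) (lin_inj K) (lin_meets K)
    (M := M) (by exact_mod_cast hM)
  refine ⟨ν, hν, fun τ hτ0 hτ Ω _ μ E hi hE => ?_⟩
  filter_upwards [h τ hτ0 (by exact_mod_cast hτ) μ E hi hE] with ω hω S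
  obtain ⟨C, hC⟩ := bdd_of_finite (hω S) fun x => Height.logHeight₁ x
  refine ⟨max C 0, le_max_right _ _, fun x h0 h1 hu => ?_⟩
  have hs : 0 ≤ ∑ᶠ (v : Pr K) (_ : v ∈ {v : Pr K | ¬ UnitAt v x}), Real.log (Nv v) :=
    finsum_nonneg fun v => finsum_nonneg fun _ => Real.log_nonneg (one_le_Nv v)
  by_cases hlt : M * (∑ᶠ (v : Pr K) (_ : v ∈ {v : Pr K | ¬ UnitAt v x}), Real.log (Nv v)) <
      Height.logHeight (![x, 1 - x, -1] : Fin 3 → K)
  · have hx : Height.logHeight₁ x ≤ C := by
      refine hC x ⟨?_, ?_, ?_⟩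
      · intro i
        have e := congrFun (lin_eval x) i
        rw [e]
        fin_cases i
        · exact h0
        · exact sub_ne_zero.2 h1.symm
        · show (-1 : K) ≠ 0
          norm_num
      · rw [lin_eval, lin_csupp]
        exact fun v hv => hu v hv
      · rw [lin_eval, lin_csupp]
        exact hlt
    exact hx.trans ((le_max_left _ _).trans (le_add_of_nonneg_right
      (mul_nonneg (by linarith) hs)))
  · refine (lin_height x).trans ((not_lt.1 hlt).trans ?_)
    exact le_add_of_nonneg_left (le_max_right _ _)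

/-- the bad primes of a cross ratio are bad primes of the tuple -/
theorem cr_bad {n : ℕ} {P : Fin n → Fin 2 → K} (hP : Distinct P) {i j k l : Fin n}
    (hij : i ≠ j) (hik : i ≠ k) (hil : i ≠ l) (hjk : j ≠ k)
    (hjl : j ≠ l) (hkl : k ≠ l) :
    ∑ᶠ (v : Pr K) (_ : v ∈ {v : Pr K | ¬ UnitAt v (cr (P i) (P j) (P k) (P l))}),
      Real.log (Nv v) ≤ logBad P := by
  classical
  have hbad := bad_finite hP hij hik hjk
  obtain ⟨c0, c1⟩ := cr_off hP hij hik hil hjk hjl hkl
  have hu := unitAt_finite c0 c1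
  have e1 : logBad P = ∑ v ∈ hbad.toFinset, Real.log (Nv v) := by
    unfold logBad
    rw [finsum_mem_eq_finite_toFinset_sum _ hbad]
    rfl
  rw [e1, finsum_mem_eq_finite_toFinset_sum _ hu]
  refine Finset.sum_le_sum_of_subset_of_nonneg ?_ fun v _ _ => Real.log_nonneg (one_le_Nv v)
  intro v hv
  rw [Set.Finite.mem_toFinset] at hv ⊢
  intro h
  exact hv (unitAt_of_good h hij hik hil hjk hjl hkl)

end Pool.Agent.X61.RI.Tup
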